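import Pool.Agent.K6.H47.TL.Stm

/-! PIECE ATT (helper86): attaching cells to a partial algebra. -/

set_option autoImplicit false

universe u

namespace Pool.Agent.K6.H47.TL

namespace ATT

section

variable {R : Type u} [Ring R] {Y : Type u} [AddCommGroup Y] [Module R Y] {ι : Type u} [DecidableEq ι]
  {P : ι → Type u} [∀ s, AddCommGroup (P s)] [∀ s, Module R (P s)] (K : ∀ s, Submodule R (P s))
  (v : ∀ s, K s →ₗ[R] Y)

/-- the relations -/
noncomputable def rho : (Π₀ s, K s) →ₗ[R] Y × (Π₀ s, P s) :=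
  (DFinsupp.lsum ℕ v).prod (-(DFinsupp.mapRange.linearMap fun s => (K s).subtype))

/-- the pushout -/
abbrev Q : Type u := (Y × (Π₀ s, P s)) ⧸ LinearMap.range (rho K v)

/-- the inclusion -/
noncomputable def inj : Y →ₗ[R] Q K v :=
  (LinearMap.range (rho K v)).mkQ ∘ₗ LinearMap.inl R Y (Π₀ s, P s)

/-- the cells -/
noncomputable def cel (s : ι) : P s →ₗ[R] Q K v :=
  (LinearMap.range (rho K v)).mkQ ∘ₗ LinearMap.inr R Y (Π₀ s, P s) ∘ₗ DFinsupp.lsingle s

lemma rho_single (s : ι) (x : K s) :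
    rho K v (DFinsupp.single s x) = (v s x, -DFinsupp.single s (x : P s)) := by
  simp [rho]

lemma rho_fst (z : Π₀ s, K s) : (rho K v z).1 = DFinsupp.lsum ℕ v z := rfl

lemma rho_snd (z : Π₀ s, K s) (s : ι) : (rho K v z).2 s = -(z s : P s) := by
  simp [rho]

lemma glue (s : ι) : cel K v s ∘ₗ (K s).subtype = inj K v ∘ₗ v s := by
  ext x
  show (LinearMap.range (rho K v)).mkQ (0, DFinsupp.single s (x : P s)) =
    (LinearMap.range (rho K v)).mkQ (v s x, 0)
  symm
  rw [← sub_eq_zero, ← map_sub, Submodule.mkQ_apply, Submodule.Quotient.mk_eq_zero]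
  refine ⟨DFinsupp.single s x, ?_⟩
  rw [rho_single]
  simp

lemma surj (z : Q K v) : ∃ (y : Y) (t : Finset ι) (x : ∀ s, P s),
    z = inj K v y + ∑ s ∈ t, cel K v s (x s) := by
  classical
  obtain ⟨⟨y, w⟩, rfl⟩ := Submodule.mkQ_surjective _ z
  refine ⟨y, w.support, fun s => w s, ?_⟩
  have hw : w = ∑ s ∈ w.support, DFinsupp.single s (w s) := (DFinsupp.sum_single (f := w)).symm
  have h1 : ((y, w) : Y × (Π₀ s, P s)) = LinearMap.inl R Y (Π₀ s, P s) y +
      ∑ s ∈ w.support, LinearMap.inr R Y (Π₀ s, P s) (DFinsupp.single s (w s)) := by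
    rw [← map_sum, ← hw]
    simp
  rw [h1, map_add, map_sum]
  rfl

lemma ker (y : Y) (t : Finset ι) (x : ∀ s, P s) (h : inj K v y + ∑ s ∈ t, cel K v s (x s) = 0) :
    ∃ z : ∀ s, K s, (∀ s ∈ t, (z s : P s) = x s) ∧ y + ∑ s ∈ t, v s (z s) = 0 := by
  classical
  have h1 : (LinearMap.range (rho K v)).mkQ (LinearMap.inl R Y (Π₀ s, P s) y +
      ∑ s ∈ t, LinearMap.inr R Y (Π₀ s, P s) (DFinsupp.single s (x s))) = 0 := by
    rw [map_add, map_sum]
    exact h
  rw [Submodule.mkQ_apply, Submodule.Quotient.mk_eq_zero] at h1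
  obtain ⟨z0, hz0⟩ := h1
  have e1 : DFinsupp.lsum ℕ v z0 = y := by
    rw [← rho_fst K v z0, hz0]
    simp [Prod.fst_sum]
  have e2 : ∀ s, -(z0 s : P s) = if s ∈ t then x s else 0 := by
    intro s
    rw [← rho_snd K v z0 s, hz0]
    have h3 : (LinearMap.inl R Y (Π₀ s, P s) y +
      ∑ s ∈ t, LinearMap.inr R Y (Π₀ s, P s) (DFinsupp.single s (x s))).2 =
        ∑ s ∈ t, DFinsupp.single s (x s) := by
      simp [Prod.snd_sum]
    rw [h3, DFinsupp.finsetSum_apply]
    by_cases hs : s ∈ t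
    · rw [if_pos hs, Finset.sum_eq_single s]
      · exact DFinsupp.single_eq_same
      · intro s' _ hss'
        exact DFinsupp.single_eq_of_ne hss'.symm
      · intro h; exact absurd hs h
    · rw [if_neg hs]
      apply Finset.sum_eq_zero
      intro s' hs'
      apply DFinsupp.single_eq_of_ne
      rintro rfl
      exact hs hs'
  refine ⟨fun s => -(z0 s), fun s hs => ?_, ?_⟩
  · have := e2 s
    rw [if_pos hs] at this
    simpa using this
  · have h4 : z0 = ∑ s ∈ t, DFinsupp.single s (z0 s) := by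
      ext s
      rw [DFinsupp.finsetSum_apply]
      by_cases hs : s ∈ t
      · rw [Finset.sum_eq_single s]
        · rw [DFinsupp.single_eq_same]
        · intro s' _ hss'
          exact DFinsupp.single_eq_of_ne hss'.symm
        · intro h; exact absurd hs h
      · have h5 := e2 s
        rw [if_neg hs, neg_eq_zero] at h5
        rw [Finset.sum_eq_zero]
        · simp [h5]
        · intro s' hs'
          apply DFinsupp.single_eq_of_ne
          rintro rfl
          exact hs hs'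
    have h6 : DFinsupp.lsum ℕ v z0 = ∑ s ∈ t, v s (z0 s) := by
      conv_lhs => rw [h4]
      rw [map_sum]
      apply Finset.sum_congr rfl
      intro s _
      simp
    simp only [map_neg, Finset.sum_neg_distrib]
    rw [← h6, e1, add_neg_cancel]

lemma inj_injective : Function.Injective (inj K v) := by
  rw [← LinearMap.ker_eq_bot, LinearMap.ker_eq_bot']
  intro y hy
  obtain ⟨z, -, hz⟩ := ker K v y ∅ (fun _ => 0) (by simpa using hy)
  simpa using hz

lemma univ {Z : Type u} [AddCommGroup Z] [Module R Z] (f : Y →ₗ[R] Z) (g : ∀ s, P s →ₗ[R] Z)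
    (h : ∀ s, g s ∘ₗ (K s).subtype = f ∘ₗ v s) :
    ∃ h : Q K v →ₗ[R] Z, h ∘ₗ inj K v = f ∧ ∀ s, h ∘ₗ cel K v s = g s := by
  classical
  have hle : LinearMap.range (rho K v) ≤ LinearMap.ker (f.coprod (DFinsupp.lsum ℕ g)) := by
    have hz : (f.coprod (DFinsupp.lsum ℕ g)) ∘ₗ rho K v = 0 := by
      apply DFinsupp.lhom_ext
      intro s x
      rw [LinearMap.comp_apply, rho_single]
      have h1 : g s (x : P s) = f (v s x) := LinearMap.congr_fun (h s) x
      simp [LinearMap.coprod_apply, h1]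
    rintro _ ⟨z, rfl⟩
    exact LinearMap.congr_fun hz z
  refine ⟨(LinearMap.range (rho K v)).liftQ (f.coprod (DFinsupp.lsum ℕ g)) hle, ?_, fun s => ?_⟩
  · ext y
    simp [inj]
  · refine LinearMap.ext fun x => ?_
    simp [cel]

end

end ATT

open ATT in
theorem t_ATT : S_ATT.{u} := by
  classical
  intro R _ 𝒞 N _ _ b A U hnew
  have hinj := inj_injective (fun s : U => s.1.1.1.K) (fun s : U => s.1.2)
  have hglue := glue (fun s : U => s.1.1.1.K) (fun s : U => s.1.2)
  obtain ⟨π, hπ1, hπ2⟩ := univ (fun s : U => s.1.1.1.K) (fun s : U => s.1.2) A.π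
    (fun s : U => b.ext s.1.1 (A.π ∘ₗ s.1.2)) (fun s => b.spec _ _)
  have cancel : ∀ (c : 𝒞) (v' v'' : c.1.K →ₗ[R] A.Y),
      inj (fun s : U => s.1.1.1.K) (fun s : U => s.1.2) ∘ₗ v' =
        inj (fun s : U => s.1.1.1.K) (fun s : U => s.1.2) ∘ₗ v'' → v' = v'' := by
    intro c v' v'' h
    refine LinearMap.ext fun x => hinj ?_
    exact LinearMap.congr_fun h x
  let B : PA b :=
    { Y := Q (fun s : U => s.1.1.1.K) (fun s : U => s.1.2)
      π := π
      D := fun c v p =>
        (∃ v' p', A.D c v' p' ∧ v = inj (fun s : U => s.1.1.1.K) (fun s : U => s.1.2) ∘ₗ v' ∧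
          p = inj (fun s : U => s.1.1.1.K) (fun s : U => s.1.2) ∘ₗ p') ∨
        (∃ v', ∃ h : (⟨c, v'⟩ : Sq 𝒞 A.Y) ∈ U,
          v = inj (fun s : U => s.1.1.1.K) (fun s : U => s.1.2) ∘ₗ v' ∧
          p = cel (fun s : U => s.1.1.1.K) (fun s : U => s.1.2) ⟨⟨c, v'⟩, h⟩)
      ext := by
        rintro c v p (⟨v', p', h, rfl, rfl⟩ | ⟨v', h, rfl, rfl⟩)
        · rw [LinearMap.comp_assoc, A.ext c v' p' h]
        · exact hglue ⟨⟨c, v'⟩, h⟩
      ov := by
        rintro c v p (⟨v', p', h, rfl, rfl⟩ | ⟨v', h, rfl, rfl⟩)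
        · rw [← LinearMap.comp_assoc, ← LinearMap.comp_assoc, hπ1, A.ov c v' p' h]
        · rw [← LinearMap.comp_assoc, hπ1]
          exact hπ2 ⟨⟨c, v'⟩, h⟩
      uniq := by
        rintro c v p q (⟨v', p', h, rfl, rfl⟩ | ⟨v', h, rfl, rfl⟩) (⟨v'', q', h', h1, rfl⟩ | ⟨v'', h', h1, rfl⟩)
        · have e := cancel c _ _ h1
          subst e
          rw [A.uniq c v' p' q' h h']
        · have e := cancel c _ _ h1
          subst e
          exact absurd h (hnew _ h' _)
        · have e := cancel c _ _ h1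
          subst e
          exact absurd h' (hnew _ h _)
        · have e := cancel c _ _ h1
          subst e
          rfl }
  let i : Hm A B :=
    { f := inj (fun s : U => s.1.1.1.K) (fun s : U => s.1.2)
      ov := hπ1
      pres := fun c v p h => Or.inl ⟨v, p, h, rfl, rfl⟩ }
  exact ⟨B, i, cel (fun s : U => s.1.1.1.K) (fun s : U => s.1.2),
    { new := hnew
      glue := hglue
      D_iff := fun c v p => Iff.rfl
      surj := surj (fun s : U => s.1.1.1.K) (fun s : U => s.1.2)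
      ker := ker (fun s : U => s.1.1.1.K) (fun s : U => s.1.2)
      univ := fun Z _ _ f g h => univ (fun s : U => s.1.1.1.K) (fun s : U => s.1.2) f g h }⟩

end Pool.Agent.K6.H47.TL
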