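import Pool.Agent.K6.H47.TL.Stm

/-!
# Direct limits of modules in `Add T` are pure epimorphic images of direct sums of copies of `T`
-/

set_option autoImplicit false

universe u

namespace Pool.Agent.K6.H47.TL.Conv

variable {R : Type u} [Ring R]

/-- maps from finitely presented modules to direct limits factor -/
theorem fp_factor {ι : Type u} [Preorder ι] [IsDirectedOrder ι] [Nonempty ι] [DecidableEq ι]
    {G : ι → Type u} [∀ i, AddCommGroup (G i)] [∀ i, Module R (G i)]
    (t : ∀ i j, i ≤ j → G i →ₗ[R] G j) [DirectedSystem G fun i j h => t i j h]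
    (F : Type u) [AddCommGroup F] [Module R F] [Module.FinitePresentation R F]
    (f : F →ₗ[R] Module.DirectLimit G t) :
    ∃ i, ∃ g : F →ₗ[R] G i, Module.DirectLimit.of R ι G t i ∘ₗ g = f := by
  classical
  obtain ⟨n, K, e, hK⟩ := Module.FinitePresentation.exists_fin R F
  let q : (Fin n → R) →ₗ[R] F := e.symm.toLinearMap ∘ₗ K.mkQ
  have h1 : ∀ k : Fin n, ∃ i, ∃ x : G i, Module.DirectLimit.of R ι G t i x =
      f (q (Pi.basisFun R (Fin n) k)) := fun k => Module.DirectLimit.exists_of _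
  choose i x hx using h1
  obtain ⟨m, hm⟩ := Finite.exists_le i
  let g₀ : (Fin n → R) →ₗ[R] G m :=
    (Pi.basisFun R (Fin n)).constr ℕ fun k => t (i k) m (hm k) (x k)
  have hg₀ : Module.DirectLimit.of R ι G t m ∘ₗ g₀ = f ∘ₗ q := by
    apply (Pi.basisFun R (Fin n)).ext
    intro k
    simp only [LinearMap.comp_apply, g₀, Module.Basis.constr_basis]
    rw [Module.DirectLimit.of_f, hx]
  obtain ⟨s, hs⟩ := hK
  have h2 : ∀ y : s, ∃ j, ∃ h : m ≤ j, t m j h (g₀ y) = 0 := by
    intro y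
    have hy : (y : Fin n → R) ∈ K := hs ▸ Submodule.subset_span y.2
    have h3 : Module.DirectLimit.of R ι G t m (g₀ y) = 0 := by
      have h4 := LinearMap.congr_fun hg₀ (y : Fin n → R)
      simp only [LinearMap.comp_apply] at h4
      rw [h4]
      have h5 : q y = 0 := by
        change e.symm (K.mkQ y) = 0
        rw [(Submodule.Quotient.mk_eq_zero K).2 hy |> fun h => (show K.mkQ y = 0 from h), map_zero]
      rw [h5, map_zero]
    exact Module.DirectLimit.of.zero_exact h3
  choose j hmj hj using h2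
  obtain ⟨l₀, hl₀⟩ := Finite.exists_le j
  obtain ⟨l, hl1, hl2⟩ := exists_ge_ge l₀ m
  have h6 : K ≤ LinearMap.ker (t m l hl2 ∘ₗ g₀) := by
    rw [← hs, Submodule.span_le]
    intro y hy
    change t m l hl2 (g₀ y) = 0
    have h7 := DirectedSystem.map_map (f := fun i j h => t i j h) (hmj ⟨y, hy⟩)
      ((hl₀ ⟨y, hy⟩).trans hl1) (g₀ y)
    rw [← h7]
    have h8 := hj ⟨y, hy⟩
    rw [h8, map_zero]
  refine ⟨l, K.liftQ _ h6 ∘ₗ e.toLinearMap, ?_⟩
  refine LinearMap.ext fun z => ?_
  obtain ⟨w, hw⟩ := Submodule.mkQ_surjective K (e z)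
  have hz : z = q w := by
    change z = e.symm (K.mkQ w)
    rw [hw, LinearEquiv.symm_apply_apply]
  change Module.DirectLimit.of R ι G t l (K.liftQ _ h6 (e z)) = f z
  rw [← hw]
  change Module.DirectLimit.of R ι G t l (t m l hl2 (g₀ w)) = f z
  rw [Module.DirectLimit.of_f, hz]
  exact LinearMap.congr_fun hg₀ w

/-- direct limits of modules in `Add T` are pure epimorphic images of direct sums of copies of
`T` -/
theorem conv {T : Type u} [AddCommGroup T] [Module R T] {N : Type u} [AddCommGroup N] [Module R N]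
    {ι : Type u} [Preorder ι] [IsDirectedOrder ι] [Nonempty ι] [DecidableEq ι]
    {G : ι → Type u} [∀ i, AddCommGroup (G i)] [∀ i, Module R (G i)]
    (t : ∀ i j, i ≤ j → G i →ₗ[R] G j) [DirectedSystem G fun i j h => t i j h]
    (hG : ∀ i, AddT R T (G i)) (e : Module.DirectLimit G t ≃ₗ[R] N) :
    ∃ (X : Type u) (g : (X →₀ T) →ₗ[R] N), Function.Surjective g ∧
      ∀ (F : Type u) [AddCommGroup F] [Module R F] [Module.FinitePresentation R F]
        (f : F →ₗ[R] N), ∃ f' : F →ₗ[R] (X →₀ T), g ∘ₗ f' = f := by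
  classical
  choose X a p hp using hG
  let φ : ∀ i, G i →ₗ[R] N := fun i => e.toLinearMap ∘ₗ Module.DirectLimit.of R ι G t i
  let g : ((Σ i, X i) →₀ T) →ₗ[R] N :=
    Finsupp.lsum ℕ fun s : Σ i, X i => φ s.1 ∘ₗ p s.1 ∘ₗ Finsupp.lsingle s.2
  have hg : ∀ i, g ∘ₗ Finsupp.lmapDomain T R (Sigma.mk i) = φ i ∘ₗ p i := by
    intro i
    ext x y
    simp [g]
  have hlift : ∀ (F : Type u) [AddCommGroup F] [Module R F] (i : ι) (f : F →ₗ[R] G i),
      g ∘ₗ (Finsupp.lmapDomain T R (Sigma.mk i) ∘ₗ a i ∘ₗ f) = φ i ∘ₗ f := by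
    intro F _ _ i f
    rw [← LinearMap.comp_assoc, hg, LinearMap.comp_assoc, ← LinearMap.comp_assoc (h := p i), hp,
      LinearMap.id_comp]
  refine ⟨Σ i, X i, g, ?_, ?_⟩
  · intro z
    obtain ⟨i, x, hx⟩ := Module.DirectLimit.exists_of (e.symm z)
    refine ⟨Finsupp.lmapDomain T R (Sigma.mk i) (a i x), ?_⟩
    have h1 := LinearMap.congr_fun (hlift (G i) i LinearMap.id) x
    change g (Finsupp.lmapDomain T R (Sigma.mk i) (a i x)) = e (Module.DirectLimit.of R ι G t i x) at h1
    rw [h1, hx, LinearEquiv.apply_symm_apply]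
  · intro F _ _ _ f
    obtain ⟨i, f', hf'⟩ := fp_factor t F (e.symm.toLinearMap ∘ₗ f)
    refine ⟨_, (hlift F i f').trans ?_⟩
    refine LinearMap.ext fun x => ?_
    have h1 := LinearMap.congr_fun hf' x
    change Module.DirectLimit.of R ι G t i (f' x) = e.symm (f x) at h1
    change e (Module.DirectLimit.of R ι G t i (f' x)) = f x
    rw [h1, LinearEquiv.apply_symm_apply]

end Pool.Agent.K6.H47.TL.Conv
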