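import Pool.Agent.K6.H47.TL.Stm

/-! # Modules with both properties are in `Add T` (helper77) -/

set_option autoImplicit false

universe u

namespace Pool.Agent.K6.H47.TL

namespace ADD

variable {R : Type u} [Ring R] {T : Type u} [AddCommGroup T] [Module R T]

/-- Modules with a coresolution in `Add T`. -/
theorem cores_ext (h2 : S_EXF.{u}) (h3 : S_EXA.{u}) {M : Type u} [AddCommGroup M] [Module R M]
    (hM : ∀ i, ExtZ R i T M) : ∀ (n : ℕ) (C : Type u) [AddCommGroup C] [Module R C],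
      Cores R T n C → ∀ i, ExtZ R i C M := by
  intro n
  induction n with
  | zero =>
    intro C _ _ hC i
    exact h3 R T C M hC i (hM i)
  | succ n ih =>
    intro C _ _ hC i
    obtain ⟨T₀, _, _, f, hT, hf, hc⟩ := hC
    have h4 := ih (T₀ ⧸ LinearMap.range f) hc
    exact (h2 R C T₀ M f hf).1 i (h3 R T T₀ M hT i (hM i)) (h4 (i + 1))

/-- A map from the ring to a module in `Add T` which extends all maps from the ring to `M`. -/
theorem exists_env (h2 : S_EXF.{u}) (h3 : S_EXA.{u}) {M : Type u} [AddCommGroup M] [Module R M]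
    (hM : ∀ i, ExtZ R i T M) (n : ℕ) (hc : Cores R T n R) :
    ∃ (T₀ : Type u) (_ : AddCommGroup T₀) (_ : Module R T₀) (f : R →ₗ[R] T₀), AddT R T T₀ ∧
      ∀ v : R →ₗ[R] M, ∃ w : T₀ →ₗ[R] M, w ∘ₗ f = v := by
  cases n with
  | zero => exact ⟨R, inferInstance, inferInstance, LinearMap.id, hc, fun v => ⟨v, rfl⟩⟩
  | succ n =>
    obtain ⟨T₀, _, _, f, hT, hf, hc⟩ := hc
    exact ⟨T₀, inferInstance, inferInstance, f, hT, (h2 R R T₀ M f hf).2.2
      (cores_ext h2 h3 hM n (T₀ ⧸ LinearMap.range f) hc 0)⟩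

variable (T)

/-- The canonical map from a direct sum of copies of `T`. -/
noncomputable def ev (M : Type u) [AddCommGroup M] [Module R M] :
    ((T →ₗ[R] M) →₀ T) →ₗ[R] M :=
  Finsupp.lsum ℕ (fun φ : T →ₗ[R] M => φ)

theorem ev_single {M : Type u} [AddCommGroup M] [Module R M] (φ : T →ₗ[R] M) (t : T) :
    ev T M (Finsupp.single φ t) = φ t := by
  unfold ev
  rw [Finsupp.lsum_single]

theorem ev_surj {M : Type u} [AddCommGroup M] [Module R M] {T₀ : Type u} [AddCommGroup T₀]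
    [Module R T₀] (f : R →ₗ[R] T₀) (hT : AddT R T T₀)
    (h : ∀ v : R →ₗ[R] M, ∃ w : T₀ →ₗ[R] M, w ∘ₗ f = v) : Function.Surjective (ev (R := R) T M) := by
  intro x
  obtain ⟨w, hw⟩ := h (LinearMap.toSpanSingleton R M x)
  obtain ⟨X, i, p, hip⟩ := hT
  have h1 : w (f 1) = x := by
    have h2 := LinearMap.congr_fun hw 1
    simpa using h2
  have h2 : ∀ ξ : X →₀ T, ev T M (Finsupp.mapDomain (fun j => w ∘ₗ p ∘ₗ Finsupp.lsingle j) ξ) =
      w (p ξ) := by
    intro ξ
    induction ξ using Finsupp.induction_linear with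
    | zero => simp
    | add a b ha hb => rw [Finsupp.mapDomain_add, map_add, ha, hb, map_add, map_add]
    | single j t => rw [Finsupp.mapDomain_single, ev_single]; rfl
  refine ⟨Finsupp.mapDomain (fun j => w ∘ₗ p ∘ₗ Finsupp.lsingle j) (i (f 1)), ?_⟩
  rw [h2, ← LinearMap.comp_apply p i, hip, LinearMap.id_apply, h1]

end ADD

theorem t_ADD (h0 : S_EX0.{u}) (h1 : S_EXS.{u}) (h2 : S_EXF.{u}) (h3 : S_EXA.{u}) :
    S_ADD.{u} := by
  intro R _ T _ _ n hT 𝒞 h𝒞
  have _ := h0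
  refine ⟨?_, ?_⟩
  · intro X Z _ _ _ _ g hg hc f
    exact (h1 R T X Z g hg).2.2.2 ((h𝒞 (LinearMap.ker g)).2 hc 0) f
  · intro M _ _ hc hl
    have hM := (h𝒞 M).2 hc
    obtain ⟨T₀, _, _, f, hT₀, hf⟩ := ADD.exists_env h2 h3 hM n hT.cores
    have hs := ADD.ev_surj T f hT₀ hf
    have hk : CE 𝒞 (LinearMap.ker (ADD.ev (R := R) T M)) := by
      refine (h𝒞 _).1 fun i => ?_
      cases i with
      | zero =>
        refine (h1 R T _ M (ADD.ev T M) hs).2.2.1 (fun φ => ⟨Finsupp.lsingle φ, ?_⟩) (hT.ext 0 _)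
        ext t
        exact ADD.ev_single T φ t
      | succ i => exact (h1 R T _ M (ADD.ev T M) hs).2.1 i (hM i) (hT.ext (i + 1) _)
    obtain ⟨s, hs'⟩ := hl _ M (ADD.ev T M) hs hk LinearMap.id
    exact ⟨_, s, ADD.ev T M, hs'⟩

end Pool.Agent.K6.H47.TL
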