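import Pool.Agent.K6.H47.TL.Stm

/-!
# The cells of a tilting module of finite type (piece CEL, helper82)
-/

set_option autoImplicit false

universe u

namespace Pool.Agent.K6.H47.TL

namespace CEL

/-- a module of type `FP_1` is finitely presented -/
lemma fp_of_FPn {R : Type u} [Ring R] {M : Type u} [AddCommGroup M] [Module R M]
    (h : FPn R 1 M) : Module.FinitePresentation R M := by
  obtain ⟨k, f, hf, hk⟩ := h
  have : Module.Finite R (LinearMap.ker f) := hk
  exact Module.finitePresentation_of_surjective f hf (Module.Finite.iff_fg.1 hk)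

/-- a module of type `FP_n` is finite -/
lemma finite_of_FPn {R : Type u} [Ring R] {M : Type u} [AddCommGroup M] [Module R M] {n : ℕ}
    (h : FPn R n M) : Module.Finite R M := by
  cases n with
  | zero => exact h
  | succ n =>
    obtain ⟨k, f, hf, _⟩ := h
    exact Module.Finite.of_surjective f hf

end CEL

/-- **CEL** -/
theorem t_CEL (h0 : S_EX0.{u}) : S_CEL.{u} := by
  intro R _ T _ _ hT
  obtain ⟨𝒮, h𝒮, hiff⟩ := hT
  refine ⟨{c | Module.FinitePresentation R c.K ∧ ∀ (M : Type u) [AddCommGroup M] [Module R M],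
    (∀ i, ExtZ R i T M) → ∀ v : c.K →ₗ[R] M, ∃ p : c.P →ₗ[R] M, p ∘ₗ c.K.subtype = v},
    fun c hc => hc.1, ?_⟩
  intro M _ _
  refine ⟨fun h c hc v => hc.2 M h v, fun h => (hiff M).2 ?_⟩
  have key : ∀ (i : ℕ) (S : Type u) [AddCommGroup S] [Module R S], FPn R (i + 2) S →
      (∀ (M' : Type u) [AddCommGroup M'] [Module R M'], (∀ i, ExtZ R i T M') →
        ∀ i, ExtZ R i S M') → ExtZ R i S M := by
    intro i
    induction i with
    | zero =>
      intro S _ _ hS ho
      obtain ⟨k, f, hf, hk⟩ := hS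
      have hfin : Module.Finite R (LinearMap.ker f) := CEL.finite_of_FPn hk
      let c : Cell R := ⟨k, LinearMap.ker f, Module.Finite.iff_fg.1 hfin⟩
      have hc : c ∈ {c : Cell R | Module.FinitePresentation R c.K ∧
          ∀ (M : Type u) [AddCommGroup M] [Module R M], (∀ i, ExtZ R i T M) →
          ∀ v : c.K →ₗ[R] M, ∃ p : c.P →ₗ[R] M, p ∘ₗ c.K.subtype = v} := by
        refine ⟨CEL.fp_of_FPn hk, ?_⟩
        intro M' _ _ hM' v
        exact ((h0 R (Fin k → R) S M' f hf).1).1 (ho M' hM' 0) v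
      exact ((h0 R (Fin k → R) S M f hf).1).2 fun v => h c hc v
    | succ i ih =>
      intro S _ _ hS ho
      obtain ⟨k, f, hf, hk⟩ := hS
      rw [(h0 R (Fin k → R) S M f hf).2 i]
      apply ih _ hk
      intro M' _ _ hM' j
      exact ((h0 R (Fin k → R) S M' f hf).2 j).1 (ho M' hM' (j + 1))
  intro S _ _ hS i
  exact key i S (h𝒮 S hS _) fun M' _ _ hM' j => (hiff M').1 hM' S hS j

end Pool.Agent.K6.H47.TL
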