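import Pool.Agent.K6.H47.TL.Stm

/-!
# Piece EX0 (helper76): `Ext` by any projective presentation

Comparison of two presentations for `Ext^1`, Schanuel's lemma and dimension shifting for the rest.
-/

set_option autoImplicit false

universe u

namespace Pool.Agent.K6.H47.TL

namespace EX0

variable {R : Type u} [Ring R]

/-- comparison of two projective presentations -/
theorem e0_of {P P' M N : Type u} [AddCommGroup P] [Module R P] [AddCommGroup P'] [Module R P']
    [AddCommGroup M] [Module R M] [AddCommGroup N] [Module R N] [Module.Projective R P]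
    [Module.Projective R P'] (f : P →ₗ[R] M) (f' : P' →ₗ[R] M) (hf : Function.Surjective f)
    (hf' : Function.Surjective f')
    (h : ∀ v : LinearMap.ker f →ₗ[R] N, ∃ g : P →ₗ[R] N, g ∘ₗ (LinearMap.ker f).subtype = v) :
    ∀ v : LinearMap.ker f' →ₗ[R] N, ∃ g : P' →ₗ[R] N, g ∘ₗ (LinearMap.ker f').subtype = v := by
  intro v'
  obtain ⟨a, ha⟩ := Module.projective_lifting_property f f' hf
  obtain ⟨b, hb⟩ := Module.projective_lifting_property f' f hf'
  have ha' : ∀ x, f (a x) = f' x := fun x => LinearMap.congr_fun ha x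
  have hb' : ∀ x, f' (b x) = f x := fun x => LinearMap.congr_fun hb x
  have hbk : ∀ x ∈ LinearMap.ker f, b x ∈ LinearMap.ker f' := by
    intro x hx
    rw [LinearMap.mem_ker] at hx ⊢
    rw [hb', hx]
  obtain ⟨g, hg⟩ := h (v' ∘ₗ b.restrict hbk)
  have hd : ∀ x : P', ((LinearMap.id : P' →ₗ[R] P') - b ∘ₗ a) x ∈ LinearMap.ker f' := by
    intro x
    rw [LinearMap.mem_ker]
    simp [hb', ha']
  refine ⟨g ∘ₗ a + v' ∘ₗ LinearMap.codRestrict _ (LinearMap.id - b ∘ₗ a) hd, ?_⟩
  apply LinearMap.ext
  intro x
  have hax : a x.1 ∈ LinearMap.ker f := by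
    rw [LinearMap.mem_ker, ha']
    exact x.2
  have h1 := LinearMap.congr_fun hg ⟨a x.1, hax⟩
  have h2 : g (a x.1) = v' (b.restrict hbk ⟨a x.1, hax⟩) := h1
  change g (a x.1) + v' (LinearMap.codRestrict _ (LinearMap.id - b ∘ₗ a) hd x.1) = v' x
  rw [h2, ← map_add]
  congr 1
  apply Subtype.ext
  change b (a x.1) + (x.1 - b (a x.1)) = x.1
  abel

/-- `Ext^1` by any projective presentation -/
theorem ext_zero {P M N : Type u} [AddCommGroup P] [Module R P] [AddCommGroup M] [Module R M]
    [AddCommGroup N] [Module R N] [Module.Projective R P] (f : P →ₗ[R] M)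
    (hf : Function.Surjective f) :
    ExtZ R 0 M N ↔ ∀ v : LinearMap.ker f →ₗ[R] N, ∃ g : P →ₗ[R] N,
      g ∘ₗ (LinearMap.ker f).subtype = v := by
  have hs : Function.Surjective (Finsupp.linearCombination R (id : M → M)) := by
    intro m
    exact ⟨Finsupp.single m 1, by simp⟩
  exact ⟨fun h => e0_of _ f hs hf h, fun h => e0_of f _ hf hs h⟩

/-- Schanuel's lemma -/
theorem schanuel {P P' M : Type u} [AddCommGroup P] [Module R P] [AddCommGroup P'] [Module R P']
    [AddCommGroup M] [Module R M] [Module.Projective R P]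
    [Module.Projective R P'] (f : P →ₗ[R] M) (f' : P' →ₗ[R] M) (hf : Function.Surjective f)
    (hf' : Function.Surjective f') :
    Nonempty ((LinearMap.ker f × P') ≃ₗ[R] (LinearMap.ker f' × P)) := by
  obtain ⟨a, ha⟩ := Module.projective_lifting_property f f' hf
  obtain ⟨b, hb⟩ := Module.projective_lifting_property f' f hf'
  have ha' : ∀ x, f (a x) = f' x := fun x => LinearMap.congr_fun ha x
  have hb' : ∀ x, f' (b x) = f x := fun x => LinearMap.congr_fun hb x
  refine ⟨LinearEquiv.ofLinearMap
    (LinearMap.prod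
      (LinearMap.codRestrict (LinearMap.ker f')
        (LinearMap.snd R _ _ - b ∘ₗ ((LinearMap.ker f).subtype ∘ₗ LinearMap.fst R _ _ +
          a ∘ₗ LinearMap.snd R _ _)) ?_)
      ((LinearMap.ker f).subtype ∘ₗ LinearMap.fst R _ _ + a ∘ₗ LinearMap.snd R _ _))
    (LinearMap.prod
      (LinearMap.codRestrict (LinearMap.ker f)
        (LinearMap.snd R _ _ - a ∘ₗ ((LinearMap.ker f').subtype ∘ₗ LinearMap.fst R _ _ +
          b ∘ₗ LinearMap.snd R _ _)) ?_)
      ((LinearMap.ker f').subtype ∘ₗ LinearMap.fst R _ _ + b ∘ₗ LinearMap.snd R _ _))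
    ?_ ?_⟩
  · rintro ⟨⟨k, hk⟩, x⟩
    rw [LinearMap.mem_ker] at hk ⊢
    simp [hb', ha', hk]
  · rintro ⟨⟨k, hk⟩, x⟩
    rw [LinearMap.mem_ker] at hk ⊢
    simp [hb', ha', hk]
  · apply LinearMap.ext
    rintro ⟨⟨k, hk⟩, x⟩
    apply Prod.ext
    · apply Subtype.ext
      simp
    · simp
  · apply LinearMap.ext
    rintro ⟨⟨k, hk⟩, x⟩
    apply Prod.ext
    · apply Subtype.ext
      simp
    · simp

/-- invariance under isomorphism -/
theorem iso (N : Type u) [AddCommGroup N] [Module R N] : ∀ (i : ℕ) (M M' : Type u)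
    [AddCommGroup M] [Module R M] [AddCommGroup M'] [Module R M'] (_ : M ≃ₗ[R] M'),
    ExtZ R i M N → ExtZ R i M' N
  | 0, M, M', _, _, _, _, e, h => by
    have hs : Function.Surjective (Finsupp.linearCombination R (id : M → M)) := by
      intro m
      exact ⟨Finsupp.single m 1, by simp⟩
    rw [ext_zero (N := N) (e.toLinearMap ∘ₗ Finsupp.linearCombination R (id : M → M))
      (e.surjective.comp hs)]
    have hk : LinearMap.ker (e.toLinearMap ∘ₗ Finsupp.linearCombination R (id : M → M)) =
        LinearMap.ker (Finsupp.linearCombination R (id : M → M)) := LinearEquiv.ker_comp _ _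
    rw [hk]
    exact h
  | i + 1, M, M', _, _, _, _, e, h => by
    have hc : ∀ x : M →₀ R, Finsupp.linearCombination R (id : M' → M')
        (Finsupp.domLCongr (R := R) (M := R) e.toEquiv x) = e (Finsupp.linearCombination R (id : M → M) x) := by
      intro x
      induction x using Finsupp.induction_linear with
      | zero => simp
      | add x y hx hy => rw [map_add, map_add, map_add, map_add, hx, hy]
      | single m r => simp
    refine iso N i (Om R M) (Om R M') ?_ h
    refine LinearEquiv.ofSubmodules (Finsupp.domLCongr (R := R) (M := R) e.toEquiv) _ _ ?_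
    ext y
    constructor
    · rintro ⟨x, hx, rfl⟩
      rw [SetLike.mem_coe, LinearMap.mem_ker] at hx
      rw [LinearMap.mem_ker]
      change Finsupp.linearCombination R (id : M' → M') (Finsupp.domLCongr (R := R) (M := R) e.toEquiv x) = 0
      rw [hc, hx, map_zero]
    · intro hy
      rw [LinearMap.mem_ker] at hy
      refine ⟨(Finsupp.domLCongr (R := R) (M := R) e.toEquiv).symm y, ?_, ?_⟩
      · rw [SetLike.mem_coe, LinearMap.mem_ker]
        apply e.injective
        rw [← hc, LinearEquiv.apply_symm_apply, hy, map_zero]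
      · exact LinearEquiv.apply_symm_apply _ _

theorem lc_surj (R : Type u) [Ring R] (M : Type u) [AddCommGroup M] [Module R M] :
    Function.Surjective (Finsupp.linearCombination R (id : M → M)) := by
  intro m
  exact ⟨Finsupp.single m 1, by simp⟩

/-- product with a projective module -/
theorem prod_iff (N : Type u) [AddCommGroup N] [Module R N] : ∀ (i : ℕ) (A P : Type u)
    [AddCommGroup A] [Module R A] [AddCommGroup P] [Module R P] [Module.Projective R P],
    ExtZ R i (A × P) N ↔ ExtZ R i A N
  | 0, A, P, _, _, _, _, _ => by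
    rw [ext_zero (N := N) ((Finsupp.linearCombination R (id : A → A)).prodMap
      (LinearMap.id : P →ₗ[R] P)) ((lc_surj R A).prodMap Function.surjective_id),
      ext_zero (N := N) (Finsupp.linearCombination R (id : A → A)) (lc_surj R A)]
    constructor
    · intro h v
      have h1 : ∀ x : LinearMap.ker ((Finsupp.linearCombination R (id : A → A)).prodMap
          (LinearMap.id : P →ₗ[R] P)), (LinearMap.fst R (A →₀ R) P ∘ₗ Submodule.subtype _) x ∈
          LinearMap.ker (Finsupp.linearCombination R (id : A → A)) := by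
        rintro ⟨⟨x, p⟩, hx⟩
        rw [LinearMap.mem_ker] at hx ⊢
        exact congrArg Prod.fst hx
      obtain ⟨g, hg⟩ := h (v ∘ₗ LinearMap.codRestrict _ _ h1)
      refine ⟨g ∘ₗ LinearMap.inl R _ _, ?_⟩
      apply LinearMap.ext
      intro x
      have hx : ((x : A →₀ R), (0 : P)) ∈ LinearMap.ker
          ((Finsupp.linearCombination R (id : A → A)).prodMap (LinearMap.id : P →ₗ[R] P)) := by
        rw [LinearMap.mem_ker]
        apply Prod.ext
        · exact x.2
        · rfl
      exact LinearMap.congr_fun hg ⟨_, hx⟩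
    · intro h v
      have h1 : ∀ x : LinearMap.ker (Finsupp.linearCombination R (id : A → A)),
          (LinearMap.inl R (A →₀ R) P ∘ₗ Submodule.subtype _) x ∈
          LinearMap.ker ((Finsupp.linearCombination R (id : A → A)).prodMap
            (LinearMap.id : P →ₗ[R] P)) := by
        intro x
        rw [LinearMap.mem_ker]
        apply Prod.ext
        · exact x.2
        · rfl
      obtain ⟨g, hg⟩ := h (v ∘ₗ LinearMap.codRestrict _ _ h1)
      refine ⟨g ∘ₗ LinearMap.fst R _ _, ?_⟩
      apply LinearMap.ext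
      rintro ⟨⟨x, p⟩, hx⟩
      have hx0 := hx
      rw [LinearMap.mem_ker] at hx
      have hx1 : Finsupp.linearCombination R (id : A → A) x = 0 := congrArg Prod.fst hx
      have hx2 : p = 0 := congrArg Prod.snd hx
      subst hx2
      exact LinearMap.congr_fun hg ⟨x, hx1⟩
  | i + 1, A, P, _, _, _, _, _ => by
    -- Schanuel
    have hsA := (lc_surj R A).prodMap (Function.surjective_id (α := P))
    obtain ⟨e⟩ := schanuel (Finsupp.linearCombination R (id : A × P → A × P))
      ((Finsupp.linearCombination R (id : A → A)).prodMap (LinearMap.id : P →ₗ[R] P))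
      (lc_surj R (A × P)) hsA
    have h1 : ∀ x : LinearMap.ker ((Finsupp.linearCombination R (id : A → A)).prodMap
        (LinearMap.id : P →ₗ[R] P)), (LinearMap.fst R (A →₀ R) P ∘ₗ Submodule.subtype _) x ∈
        LinearMap.ker (Finsupp.linearCombination R (id : A → A)) := by
      rintro ⟨⟨x, p⟩, hx⟩
      rw [LinearMap.mem_ker] at hx ⊢
      exact congrArg Prod.fst hx
    have h2 : ∀ x : LinearMap.ker (Finsupp.linearCombination R (id : A → A)),
        (LinearMap.inl R (A →₀ R) P ∘ₗ Submodule.subtype _) x ∈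
        LinearMap.ker ((Finsupp.linearCombination R (id : A → A)).prodMap
          (LinearMap.id : P →ₗ[R] P)) := by
      intro x
      rw [LinearMap.mem_ker]
      apply Prod.ext
      · exact x.2
      · rfl
    have e' : LinearMap.ker ((Finsupp.linearCombination R (id : A → A)).prodMap
        (LinearMap.id : P →ₗ[R] P)) ≃ₗ[R] Om R A := by
      refine LinearEquiv.ofLinearMap (LinearMap.codRestrict _ _ h1) (LinearMap.codRestrict _ _ h2)
        ?_ ?_
      · apply LinearMap.ext
        intro x
        rfl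
      · apply LinearMap.ext
        rintro ⟨⟨x, p⟩, hx⟩
        have hx0 := hx
        rw [LinearMap.mem_ker] at hx
        have hx2 : p = 0 := congrArg Prod.snd hx
        subst hx2
        rfl
    have e2 : (Om R (A × P) × ((A →₀ R) × P)) ≃ₗ[R] (Om R A × ((A × P) →₀ R)) :=
      e.trans (LinearEquiv.prodCongr e' (LinearEquiv.refl R _))
    change ExtZ R i (Om R (A × P)) N ↔ ExtZ R i (Om R A) N
    rw [← prod_iff N i (Om R (A × P)) ((A →₀ R) × P), ← prod_iff N i (Om R A) ((A × P) →₀ R)]
    exact ⟨iso N i _ _ e2, iso N i _ _ e2.symm⟩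

end EX0

open EX0 in
theorem t_EX0 : S_EX0.{u} := by
  intro R _ P M N _ _ _ _ _ _ _ f hf
  refine ⟨ext_zero f hf, fun i => ?_⟩
  obtain ⟨e⟩ := schanuel (Finsupp.linearCombination R (id : M → M)) f (lc_surj R M) hf
  change ExtZ R i (Om R M) N ↔ ExtZ R i (LinearMap.ker f) N
  rw [← prod_iff N i (Om R M) P, ← prod_iff N i (LinearMap.ker f) (M →₀ R)]
  exact ⟨iso N i _ _ e, iso N i _ _ e.symm⟩

end Pool.Agent.K6.H47.TL
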