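import Pool.Agent.K6.H47.TL.Stm

/-!
# Piece EXF (helper76): the long exact sequence in the first variable

By rotation: `0 → A → B → C → 0` gives `0 → K → K' → A → 0` with `K` a syzygy of `B` and `K'` a
syzygy of `C`.
-/

set_option autoImplicit false

universe u

namespace Pool.Agent.K6.H47.TL

namespace EXF

variable {R : Type u} [Ring R]

/-- short exact sequences -/
structure SES {A B C : Type u} [AddCommGroup A] [Module R A] [AddCommGroup B] [Module R B]
    [AddCommGroup C] [Module R C] (f : A →ₗ[R] B) (g : B →ₗ[R] C) : Prop where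
  inj : Function.Injective f
  ex : ∀ x, g x = 0 ↔ ∃ a, f a = x
  sur : Function.Surjective g

theorem lc_surj (R : Type u) [Ring R] (M : Type u) [AddCommGroup M] [Module R M] :
    Function.Surjective (Finsupp.linearCombination R (id : M → M)) := by
  intro m
  exact ⟨Finsupp.single m 1, by simp⟩

theorem ker_le_comp {F B C : Type u} [AddCommGroup F] [Module R F] [AddCommGroup B] [Module R B]
    [AddCommGroup C] [Module R C] (π : F →ₗ[R] B) (g : B →ₗ[R] C) :
    LinearMap.ker π ≤ LinearMap.ker (g ∘ₗ π) := by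
  intro x hx
  rw [LinearMap.mem_ker] at hx ⊢
  simp [hx]

/-- rotation -/
theorem rot {A B C F : Type u} [AddCommGroup A] [Module R A] [AddCommGroup B] [Module R B]
    [AddCommGroup C] [Module R C] [AddCommGroup F] [Module R F] {f : A →ₗ[R] B} {g : B →ₗ[R] C}
    (s : SES f g) (π : F →ₗ[R] B) (hπ : Function.Surjective π) :
    ∃ ρ : LinearMap.ker (g ∘ₗ π) →ₗ[R] A,
      SES (Submodule.inclusion (ker_le_comp π g)) ρ ∧ ∀ x, f (ρ x) = π x.1 := by
  have hr : ∀ x : LinearMap.ker (g ∘ₗ π), (π ∘ₗ Submodule.subtype _) x ∈ LinearMap.range f := by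
    rintro ⟨x, hx⟩
    rw [LinearMap.mem_ker] at hx
    obtain ⟨a, ha⟩ := (s.ex (π x)).1 hx
    exact ⟨a, ha⟩
  let e := LinearEquiv.ofInjective f s.inj
  let ρ : LinearMap.ker (g ∘ₗ π) →ₗ[R] A :=
    e.symm.toLinearMap ∘ₗ LinearMap.codRestrict (LinearMap.range f) (π ∘ₗ Submodule.subtype _) hr
  have hρ : ∀ x, f (ρ x) = π x.1 := by
    intro x
    have h1 : e (ρ x) = LinearMap.codRestrict (LinearMap.range f) (π ∘ₗ Submodule.subtype _) hr x :=
      LinearEquiv.apply_symm_apply e _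
    exact congrArg Subtype.val h1
  refine ⟨ρ, ⟨Submodule.inclusion_injective _, ?_, ?_⟩, hρ⟩
  · intro x
    constructor
    · intro hx
      have h1 : π x.1 = 0 := by rw [← hρ, hx, map_zero]
      exact ⟨⟨x.1, h1⟩, rfl⟩
    · rintro ⟨a, rfl⟩
      apply s.inj
      rw [hρ, map_zero]
      exact a.2
  · intro a
    obtain ⟨x, hx⟩ := hπ (f a)
    have h1 : x ∈ LinearMap.ker (g ∘ₗ π) := by
      rw [LinearMap.mem_ker, LinearMap.comp_apply, hx]
      exact (s.ex _).2 ⟨a, rfl⟩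
    refine ⟨⟨x, h1⟩, s.inj ?_⟩
    rw [hρ]
    exact hx

/-- maps from `A` extend to `B` if `Ext^1 (C, N) = 0` -/
theorem ext3 (h : S_EX0.{u}) {A B C N : Type u} [AddCommGroup A] [Module R A] [AddCommGroup B]
    [Module R B] [AddCommGroup C] [Module R C] [AddCommGroup N] [Module R N] {f : A →ₗ[R] B}
    {g : B →ₗ[R] C} (s : SES f g) (hC : ExtZ R 0 C N) (v : A →ₗ[R] N) :
    ∃ w : B →ₗ[R] N, w ∘ₗ f = v := by
  have hπ := lc_surj R B
  set π := Finsupp.linearCombination R (id : B → B) with hπd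
  obtain ⟨ρ, sρ, hρ⟩ := rot s π hπ
  obtain ⟨w, hw⟩ := ((h R _ C N (g ∘ₗ π) (s.sur.comp hπ)).1.1 hC) (v ∘ₗ ρ)
  have hw' : ∀ x (hx : x ∈ LinearMap.ker (g ∘ₗ π)), w x = v (ρ ⟨x, hx⟩) :=
    fun x hx => LinearMap.congr_fun hw ⟨x, hx⟩
  have hk : LinearMap.ker π ≤ LinearMap.ker w := by
    intro x hx
    rw [LinearMap.mem_ker, hw' x (ker_le_comp π g hx)]
    have : ρ ⟨x, ker_le_comp π g hx⟩ = 0 := (sρ.ex _).2 ⟨⟨x, hx⟩, rfl⟩
    rw [this, map_zero]
  let e := π.quotKerEquivOfSurjective hπ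
  refine ⟨(LinearMap.ker π).liftQ w hk ∘ₗ e.symm.toLinearMap, ?_⟩
  apply LinearMap.ext
  intro a
  obtain ⟨x, hx⟩ := sρ.sur a
  have h1 : f a = π x.1 := by rw [← hx, hρ]
  have h2 : e.symm (f a) = (LinearMap.ker π).mkQ x.1 := by
    rw [LinearEquiv.symm_apply_eq, h1]
    rfl
  change (LinearMap.ker π).liftQ w hk (e.symm (f a)) = v a
  rw [h2, Submodule.mkQ_apply, Submodule.liftQ_apply, hw' x.1 x.2, ← hx]

/-- the first base case, for any presentations -/
theorem base1_aux {A K' K F' N : Type u} [AddCommGroup A] [Module R A] [AddCommGroup K']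
    [Module R K'] [AddCommGroup K] [Module R K] [AddCommGroup F'] [Module R F'] [AddCommGroup N]
    [Module R N] {j : K →ₗ[R] K'} {ρ : K' →ₗ[R] A} (sρ : SES j ρ) (ψ : F' →ₗ[R] K')
    (hψ : Function.Surjective ψ)
    (hK' : ∀ v : LinearMap.ker ψ →ₗ[R] N, ∃ g : F' →ₗ[R] N, g ∘ₗ (LinearMap.ker ψ).subtype = v)
    (hK : ∀ v : K →ₗ[R] N, ∃ g : K' →ₗ[R] N, g ∘ₗ j = v) :
    ∀ v : LinearMap.ker (ρ ∘ₗ ψ) →ₗ[R] N, ∃ g : F' →ₗ[R] N,
      g ∘ₗ (LinearMap.ker (ρ ∘ₗ ψ)).subtype = v := by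
  intro v
  obtain ⟨w, hw⟩ := hK' (v ∘ₗ Submodule.inclusion (ker_le_comp ψ ρ))
  have hw' : ∀ x (hx : x ∈ LinearMap.ker ψ), w x = v ⟨x, ker_le_comp ψ ρ hx⟩ :=
    fun x hx => LinearMap.congr_fun hw ⟨x, hx⟩
  obtain ⟨σ, sσ, hσ⟩ := rot sρ ψ hψ
  let d : LinearMap.ker (ρ ∘ₗ ψ) →ₗ[R] N := v - w ∘ₗ Submodule.subtype _
  have hd : LinearMap.ker σ ≤ LinearMap.ker d := by
    intro x hx
    rw [LinearMap.mem_ker] at hx ⊢
    obtain ⟨y, rfl⟩ := (sσ.ex x).1 hx
    change v _ - w y.1 = 0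
    rw [hw' y.1 y.2]
    exact sub_self _
  let e := σ.quotKerEquivOfSurjective sσ.sur
  let u : K →ₗ[R] N := (LinearMap.ker σ).liftQ d hd ∘ₗ e.symm.toLinearMap
  have hu : ∀ x, u (σ x) = d x := by
    intro x
    have h2 : e.symm (σ x) = (LinearMap.ker σ).mkQ x := by
      rw [LinearEquiv.symm_apply_eq]
      rfl
    change (LinearMap.ker σ).liftQ d hd (e.symm (σ x)) = d x
    rw [h2, Submodule.mkQ_apply, Submodule.liftQ_apply]
  obtain ⟨u', hu'⟩ := hK u
  refine ⟨w + u' ∘ₗ ψ, ?_⟩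
  apply LinearMap.ext
  intro x
  have h3 : (ψ x.1) = j (σ x) := (hσ x).symm
  have h4 : u' (j (σ x)) = u (σ x) := LinearMap.congr_fun hu' (σ x)
  change w x.1 + u' (ψ x.1) = v x
  rw [h3, h4, hu]
  change w x.1 + (v x - w x.1) = v x
  abel

/-- the first base case -/
theorem base1 (h : S_EX0.{u}) {A B C N : Type u} [AddCommGroup A] [Module R A] [AddCommGroup B]
    [Module R B] [AddCommGroup C] [Module R C] [AddCommGroup N] [Module R N] {f : A →ₗ[R] B}
    {g : B →ₗ[R] C} (s : SES f g) (hB : ExtZ R 0 B N) (hC : ExtZ R 1 C N) : ExtZ R 0 A N := by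
  have hπ := lc_surj R B
  obtain ⟨ρ, sρ, hρ⟩ := rot s (Finsupp.linearCombination R (id : B → B)) hπ
  have hK' : ExtZ R 0 (LinearMap.ker (g ∘ₗ Finsupp.linearCombination R (id : B → B))) N :=
    ((h R _ C N (g ∘ₗ Finsupp.linearCombination R (id : B → B)) (s.sur.comp hπ)).2 0).1 hC
  have hψ := lc_surj R (LinearMap.ker (g ∘ₗ Finsupp.linearCombination R (id : B → B)))
  have h1 := ((h R _ A N (ρ ∘ₗ Finsupp.linearCombination R
    (id : LinearMap.ker (g ∘ₗ Finsupp.linearCombination R (id : B → B)) → _))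
      (sρ.sur.comp hψ)).1)
  rw [h1]
  refine base1_aux sρ _ hψ (((h R _ _ N _ hψ).1).1 hK') ?_
  intro v
  obtain ⟨w, hw⟩ := ((h R _ B N _ hπ).1.1 hB) v
  refine ⟨w ∘ₗ Submodule.subtype _, ?_⟩
  apply LinearMap.ext
  intro x
  exact LinearMap.congr_fun hw x

/-- the second base case -/
theorem base4 (h : S_EX0.{u}) {A B C N : Type u} [AddCommGroup A] [Module R A] [AddCommGroup B]
    [Module R B] [AddCommGroup C] [Module R C] [AddCommGroup N] [Module R N] {f : A →ₗ[R] B}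
    {g : B →ₗ[R] C} (s : SES f g) (hA : ExtZ R 0 A N) (hC : ExtZ R 0 C N) : ExtZ R 0 B N := by
  have hπ := lc_surj R B
  set π := Finsupp.linearCombination R (id : B → B) with hπd
  obtain ⟨ρ, sρ, hρ⟩ := rot s π hπ
  rw [(h R _ B N π hπ).1]
  intro v
  obtain ⟨w, hw⟩ := ext3 h sρ hA v
  obtain ⟨w', hw'⟩ := ((h R _ C N (g ∘ₗ π) (s.sur.comp hπ)).1.1 hC) w
  refine ⟨w', ?_⟩
  apply LinearMap.ext
  intro x
  have h1 := LinearMap.congr_fun hw' (Submodule.inclusion (ker_le_comp π g) x)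
  have h2 := LinearMap.congr_fun hw x
  exact h1.trans h2

/-- all parts of the long exact sequence -/
theorem les (h : S_EX0.{u}) (N : Type u) [AddCommGroup N] [Module R N] : ∀ (i : ℕ)
    (A B C : Type u) [AddCommGroup A] [Module R A] [AddCommGroup B]
    [Module R B] [AddCommGroup C] [Module R C] (f : A →ₗ[R] B)
    (g : B →ₗ[R] C), SES f g →
    (ExtZ R i B N → ExtZ R (i + 1) C N → ExtZ R i A N) ∧
    (ExtZ R i A N → ExtZ R (i + 1) B N → ExtZ R (i + 1) C N) ∧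
    (ExtZ R i A N → ExtZ R i C N → ExtZ R i B N)
  | 0, A, B, C, _, _, _, _, _, _, f, g, s => by
    have hπ := lc_surj R B
    obtain ⟨ρ, sρ, hρ⟩ := rot s (Finsupp.linearCombination R (id : B → B)) hπ
    refine ⟨base1 h s, fun hA hB => ?_, base4 h s⟩
    rw [(h R _ C N (g ∘ₗ Finsupp.linearCombination R (id : B → B)) (s.sur.comp hπ)).2 0]
    exact base4 h sρ hB hA
  | i + 1, A, B, C, _, _, _, _, _, _, f, g, s => by
    have hπ := lc_surj R B
    obtain ⟨ρ, sρ, hρ⟩ := rot s (Finsupp.linearCombination R (id : B → B)) hπ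
    have ih := les h N i _ _ _ _ _ sρ
    have hCi := (h R _ C N (g ∘ₗ Finsupp.linearCombination R (id : B → B)) (s.sur.comp hπ)).2
    -- one more rotation
    have hπ2 := lc_surj R (LinearMap.ker (g ∘ₗ Finsupp.linearCombination R (id : B → B)))
    obtain ⟨ρ2, sρ2, hρ2⟩ := rot sρ (Finsupp.linearCombination R
      (id : LinearMap.ker (g ∘ₗ Finsupp.linearCombination R (id : B → B)) → _)) hπ2
    have ih2 := les h N i _ _ _ _ _ sρ2
    refine ⟨fun hB hC => ?_, fun hA hB => ?_, fun hA hC => ?_⟩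
    · -- `E^i K`, `E^(i+1) K'` give `E^(i+1) A`
      exact ih.2.1 hB ((hCi (i + 1)).1 hC)
    · -- `E^(i+1) K`, `E^(i+1) A` give `E^(i+1) K'`
      rw [hCi (i + 1)]
      have hAi := (h R _ A N (ρ ∘ₗ Finsupp.linearCombination R
        (id : LinearMap.ker (g ∘ₗ Finsupp.linearCombination R (id : B → B)) → _))
        (sρ.sur.comp hπ2)).2
      have h1 := (hAi i).1 hA
      -- the sequence `Om K' → K'_A → K`: `E^i K'_A`, `E^(i+1) K` give `E^i (Om K')`
      exact ih2.1 h1 hB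
    · -- `E^(i+1) A`, `E^i K'` give `E^i K`
      exact ih.1 ((hCi i).1 hC) hA

end EXF

open EXF in
theorem t_EXF (h : S_EX0.{u}) : S_EXF.{u} := by
  intro R _ A B N _ _ _ _ _ _ f hf
  have s : SES f (LinearMap.range f).mkQ := by
    refine ⟨hf, ?_, Submodule.mkQ_surjective _⟩
    intro x
    rw [Submodule.mkQ_apply, Submodule.Quotient.mk_eq_zero]
    rfl
  refine ⟨fun i => (les h N i _ _ _ _ _ s).1, fun i => (les h N i _ _ _ _ _ s).2.1, ?_⟩
  intro hC v
  exact ext3 h s hC v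

end Pool.Agent.K6.H47.TL
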