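import Pool.Agent.K6.H47.TL.Stm

/-! Piece EXS (helper1 for helper47): the long exact sequence in the second variable. -/

set_option autoImplicit false

universe u

namespace Pool.Agent.K6.H47.TL

namespace EXS

variable {R : Type u} [Ring R]

/-- a map which vanishes on the kernel of a surjection factors -/
lemma fac {F M Y : Type u} [AddCommGroup F] [Module R F] [AddCommGroup M] [Module R M]
    [AddCommGroup Y] [Module R Y] (π : F →ₗ[R] M) (hπ : Function.Surjective π) (q : F →ₗ[R] Y)
    (h : ∀ x, π x = 0 → q x = 0) : ∃ f : M →ₗ[R] Y, f ∘ₗ π = q := by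
  refine ⟨(LinearMap.ker π).liftQ q (fun x hx => h x hx) ∘ₗ
    (π.quotKerEquivOfSurjective hπ).symm.toLinearMap, ?_⟩
  apply LinearMap.ext
  intro x
  have e1 : (π.quotKerEquivOfSurjective hπ).symm (π x) = Submodule.Quotient.mk x := by
    rw [LinearEquiv.symm_apply_eq]
    rfl
  rw [LinearMap.comp_apply, LinearMap.comp_apply]
  change (LinearMap.ker π).liftQ q _ ((π.quotKerEquivOfSurjective hπ).symm (π x)) = q x
  rw [e1]
  rfl

lemma surj (M : Type u) [AddCommGroup M] [Module R M] :
    Function.Surjective (Finsupp.linearCombination R (id : M → M)) :=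
  Finsupp.linearCombination_id_surjective R M

variable {M X Z : Type u} [AddCommGroup M] [Module R M] [AddCommGroup X] [Module R X]
  [AddCommGroup Z] [Module R Z] (g : X →ₗ[R] Z)

lemma four (hg : Function.Surjective g) (h : ExtZ R 0 M (LinearMap.ker g)) (f : M →ₗ[R] Z) :
    ∃ f' : M →ₗ[R] X, g ∘ₗ f' = f := by
  obtain ⟨q, hq⟩ := Module.projective_lifting_property g
    (f ∘ₗ Finsupp.linearCombination R (id : M → M)) hg
  have hq' : ∀ x, g (q x) = f (Finsupp.linearCombination R (id : M → M) x) :=
    fun x => LinearMap.congr_fun hq x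
  have hmem : ∀ x : Om R M, (q ∘ₗ (LinearMap.ker (Finsupp.linearCombination R
      (id : M → M))).subtype) x ∈ LinearMap.ker g := by
    intro x
    rw [LinearMap.mem_ker, LinearMap.comp_apply, hq']
    have : Finsupp.linearCombination R (id : M → M) ((LinearMap.ker (Finsupp.linearCombination R
      (id : M → M))).subtype x) = 0 := x.2
    rw [this, map_zero]
  obtain ⟨r, hr⟩ := h (LinearMap.codRestrict (LinearMap.ker g) _ hmem)
  obtain ⟨f', hf'⟩ := fac (Finsupp.linearCombination R (id : M → M)) (surj M)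
    (q - (LinearMap.ker g).subtype ∘ₗ r) (by
      intro x hx
      have e1 := LinearMap.congr_fun hr ⟨x, hx⟩
      have e2 := congrArg Subtype.val e1
      rw [LinearMap.sub_apply, sub_eq_zero]
      exact e2.symm)
  refine ⟨f', ?_⟩
  apply LinearMap.ext
  intro y
  obtain ⟨x, rfl⟩ := surj (R := R) M y
  have e1 := LinearMap.congr_fun hf' x
  rw [LinearMap.comp_apply] at e1
  rw [LinearMap.comp_apply, e1, LinearMap.sub_apply, map_sub, hq']
  have e2 : g ((LinearMap.ker g).subtype (r x)) = 0 := (r x).2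
  rw [LinearMap.comp_apply, e2, sub_zero]

lemma three (h : ∀ f : M →ₗ[R] Z, ∃ f' : M →ₗ[R] X, g ∘ₗ f' = f)
    (hX : ExtZ R 0 M X) : ExtZ R 0 M (LinearMap.ker g) := by
  intro v
  obtain ⟨p, hp⟩ := hX ((LinearMap.ker g).subtype ∘ₗ v)
  have hp' : ∀ x : Om R M, p ((LinearMap.ker (Finsupp.linearCombination R
      (id : M → M))).subtype x) = (LinearMap.ker g).subtype (v x) :=
    fun x => LinearMap.congr_fun hp x
  obtain ⟨f, hf⟩ := fac (Finsupp.linearCombination R (id : M → M)) (surj M) (g ∘ₗ p) (by
    intro x hx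
    have e1 := hp' ⟨x, hx⟩
    have e2 : p x = (LinearMap.ker g).subtype (v ⟨x, hx⟩) := e1
    rw [LinearMap.comp_apply, e2]
    exact (v ⟨x, hx⟩).2)
  obtain ⟨f', hf'⟩ := h f
  have hmem : ∀ x, (p - f' ∘ₗ Finsupp.linearCombination R (id : M → M)) x ∈ LinearMap.ker g := by
    intro x
    have e1 : f (Finsupp.linearCombination R (id : M → M) x) = g (p x) :=
      LinearMap.congr_fun hf x
    have e2 : g (f' (Finsupp.linearCombination R (id : M → M) x)) =
      f (Finsupp.linearCombination R (id : M → M) x) := LinearMap.congr_fun hf' _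
    rw [LinearMap.mem_ker, LinearMap.sub_apply, map_sub, LinearMap.comp_apply, e2, e1, sub_self]
  refine ⟨LinearMap.codRestrict (LinearMap.ker g) _ hmem, ?_⟩
  apply LinearMap.ext
  intro x
  apply Subtype.ext
  have e3 : Finsupp.linearCombination R (id : M → M) ((LinearMap.ker (Finsupp.linearCombination R
      (id : M → M))).subtype x) = 0 := x.2
  have e4 : (p - f' ∘ₗ Finsupp.linearCombination R (id : M → M)) ((LinearMap.ker
      (Finsupp.linearCombination R (id : M → M))).subtype x) = (LinearMap.ker g).subtype (v x) := by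
    rw [LinearMap.sub_apply, LinearMap.comp_apply, e3, map_zero, sub_zero, hp']
  exact e4

lemma one (hg : Function.Surjective g) (i : ℕ) :
    ∀ (M : Type u) [AddCommGroup M] [Module R M],
      ExtZ R i M X → ExtZ R (i + 1) M (LinearMap.ker g) → ExtZ R i M Z := by
  induction i with
  | zero =>
    intro M _ _ hX hK f
    obtain ⟨f', hf'⟩ := four (M := Om R M) g hg hK f
    obtain ⟨p, hp⟩ := hX f'
    refine ⟨g ∘ₗ p, ?_⟩
    rw [LinearMap.comp_assoc, hp, hf']
  | succ i ih =>
    intro M _ _ hX hK
    exact ih (Om R M) hX hK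

lemma two (hg : Function.Surjective g) (i : ℕ) :
    ∀ (M : Type u) [AddCommGroup M] [Module R M],
      ExtZ R i M Z → ExtZ R (i + 1) M X → ExtZ R (i + 1) M (LinearMap.ker g) := by
  induction i with
  | zero =>
    intro M _ _ hZ hX
    refine three (M := Om R M) g ?_ hX
    intro f
    obtain ⟨p, hp⟩ := hZ f
    obtain ⟨q, hq⟩ := Module.projective_lifting_property g p hg
    refine ⟨q ∘ₗ (LinearMap.ker (Finsupp.linearCombination R (id : M → M))).subtype, ?_⟩
    rw [← LinearMap.comp_assoc, hq, hp]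
  | succ i ih =>
    intro M _ _ hZ hX
    exact ih (Om R M) hZ hX

end EXS

theorem t_EXS (_ : S_EX0.{u}) : S_EXS.{u} := by
  intro R _ M X Z _ _ _ _ _ _ g hg
  exact ⟨fun i => EXS.one g hg i M, fun i => EXS.two g hg i M, EXS.three g, EXS.four g hg⟩

end Pool.Agent.K6.H47.TL
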