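import Pool.Agent.K6.H47.TL.Stm

/-! Piece HOM (helper1 for helper47): homomorphisms out of an attachment of cells. -/

set_option autoImplicit false

universe u

namespace Pool.Agent.K6.H47.TL

theorem t_HOM : S_HOM.{u} := by
  intro R _ 𝒞 N _ _ b A B U i cell hatt
  constructor
  · rw [← LinearMap.ker_eq_bot, Submodule.eq_bot_iff]
    intro y hy
    obtain ⟨z, -, hz⟩ := hatt.ker y ∅ (fun _ => 0) (by simpa using hy)
    simpa using hz
  · intro Z g hg
    have hg' : ∀ s : U, ∃ p, Z.D s.1.1 (g.f ∘ₗ s.1.2) p := fun s => hg s.1 s.2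
    choose p hp using hg'
    obtain ⟨h, h1, h2⟩ := hatt.univ Z.Y g.f p (fun s => Z.ext _ _ _ (hp s))
    have ha : ∀ y, h (i.f y) = g.f y := fun y => LinearMap.congr_fun h1 y
    have hb : ∀ (s : U) x, h (cell s x) = p s x := fun s x => LinearMap.congr_fun (h2 s) x
    -- the cells are chosen in `B`
    have hD : ∀ s : U, B.D s.1.1 (i.f ∘ₗ s.1.2) (cell s) := by
      intro s
      rw [hatt.D_iff]
      right
      exact ⟨s.1.2, s.2, rfl, rfl⟩
    have hov : Z.π ∘ₗ h = B.π := by
      apply LinearMap.ext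
      intro z
      obtain ⟨y, t, x, rfl⟩ := hatt.surj z
      have e1 : Z.π (h (i.f y)) = B.π (i.f y) := by
        rw [ha]
        have e2 : Z.π (g.f y) = A.π y := LinearMap.congr_fun g.ov y
        have e3 : B.π (i.f y) = A.π y := LinearMap.congr_fun i.ov y
        rw [e2, e3]
      have e2 : ∀ s : U, ∀ w, Z.π (h (cell s w)) = B.π (cell s w) := by
        intro s w
        rw [hb]
        have e3 : Z.π ∘ₗ (p s) = B.π ∘ₗ (cell s) := by
          rw [Z.ov _ _ _ (hp s), B.ov _ _ _ (hD s), ← LinearMap.comp_assoc, ← LinearMap.comp_assoc,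
            g.ov, i.ov]
        exact LinearMap.congr_fun e3 w
      rw [LinearMap.comp_apply, map_add, map_add, map_add, e1, map_sum, map_sum, map_sum]
      congr 1
      exact Finset.sum_congr rfl fun s _ => e2 s _
    refine ⟨⟨h, hov, ?_⟩, h1, ?_⟩
    · intro c v q hq
      rw [hatt.D_iff] at hq
      rcases hq with ⟨v', p', hp', rfl, rfl⟩ | ⟨v', hU, rfl, rfl⟩
      · rw [← LinearMap.comp_assoc, ← LinearMap.comp_assoc, h1]
        exact g.pres c _ _ hp'
      · rw [← LinearMap.comp_assoc, h1, h2]
        exact hp ⟨⟨c, v'⟩, hU⟩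
    · rintro ⟨h', hov', hpres'⟩ hh'
      have hh'' : h' ∘ₗ i.f = g.f := hh'
      have hc : ∀ s : U, h' ∘ₗ cell s = p s := by
        intro s
        have e1 := hpres' _ _ _ (hD s)
        rw [← LinearMap.comp_assoc, hh''] at e1
        exact Z.uniq _ _ _ _ e1 (hp s)
      have : h' = h := by
        apply LinearMap.ext
        intro z
        obtain ⟨y, t, x, rfl⟩ := hatt.surj z
        have e1 : h' (i.f y) = h (i.f y) := by
          rw [ha]; exact LinearMap.congr_fun hh'' y
        have e2 : ∀ s : U, ∀ w, h' (cell s w) = h (cell s w) := by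
          intro s w
          rw [hb]; exact LinearMap.congr_fun (hc s) w
        rw [map_add, map_add, e1, map_sum, map_sum]
        congr 1
        exact Finset.sum_congr rfl fun s _ => e2 s _
      subst this
      rfl

end Pool.Agent.K6.H47.TL
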