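import Pool.Agent.K6.H47.TL.Stm

/-!
# Modules of finite type, piece KIL (helper14, for helper47)
-/

set_option autoImplicit false

universe u

namespace Pool.Agent.K6.H47.TL

namespace KIL

variable {R : Type u} [Ring R] {𝒞 : Set (Cell R)} {N : Type u} [AddCommGroup N] [Module R N]

/-- the data of a chosen extension in `Y` -/
abbrev Dt (𝒞 : Set (Cell R)) (Y : Type u) [AddCommGroup Y] [Module R Y] : Type u :=
  Σ c : 𝒞, (c.1.K →ₗ[R] Y) × (c.1.P →ₗ[R] Y)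

/-- the image of the data under a homomorphism -/
def mp {Y Z : Type u} [AddCommGroup Y] [Module R Y] [AddCommGroup Z] [Module R Z]
    (f : Y →ₗ[R] Z) (x : Dt 𝒞 Y) : Dt 𝒞 Z :=
  ⟨x.1, (f ∘ₗ x.2.1, f ∘ₗ x.2.2)⟩

theorem fp_quot {Y : Type u} [AddCommGroup Y] [Module R Y] [Module.FinitePresentation R Y]
    (W : Submodule R Y) (hW : W.FG) : Module.FinitePresentation R (Y ⧸ W) := by
  apply Module.finitePresentation_of_surjective W.mkQ W.mkQ_surjective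
  rw [Submodule.ker_mkQ]
  exact hW

theorem aux (b : Base 𝒞 N) (hLL : LL 𝒞 N) (n : ℕ) : ∀ (Y : Type u) [AddCommGroup Y] [Module R Y]
    [Module.FinitePresentation R Y] (π : Y →ₗ[R] N) (D : Set (Dt 𝒞 Y)), D.Finite → D.ncard = n →
    (∀ x ∈ D, x.2.2 ∘ₗ x.1.1.K.subtype = x.2.1) →
    (∀ x ∈ D, π ∘ₗ x.2.2 = b.ext x.1 (π ∘ₗ x.2.1)) →
    ∀ V : Submodule R Y, V.FG → V ≤ LinearMap.ker π →
    ∃ (B : PA b) (h : Y →ₗ[R] B.Y), B.Small ∧ B.π ∘ₗ h = π ∧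
      (∀ x ∈ D, B.D x.1 (h ∘ₗ x.2.1) (h ∘ₗ x.2.2)) ∧ V ≤ LinearMap.ker h := by
  induction n using Nat.strong_induction_on with
  | _ n ih =>
    intro Y _ _ _ π D hD hn h1 h2 V hV hVπ
    have hfp : Module.FinitePresentation R (Y ⧸ V) := fp_quot V hV
    obtain ⟨Y', _, _, hfp', hLP, g, h', hg⟩ := hLL (Y ⧸ V) (V.liftQ π hVπ)
    have hφπ : h' ∘ₗ (g ∘ₗ V.mkQ) = π := by
      rw [← LinearMap.comp_assoc, hg, Submodule.liftQ_mkQ]
    have hφV : V ≤ LinearMap.ker (g ∘ₗ V.mkQ) := by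
      intro y hy
      rw [LinearMap.mem_ker, LinearMap.comp_apply]
      have : V.mkQ y = 0 := by simpa using hy
      rw [this, map_zero]
    generalize g ∘ₗ V.mkQ = φ at hφπ hφV
    let D' : Set (Dt 𝒞 Y') := mp φ '' D
    have hD' : D'.Finite := hD.image _
    have hn' : D'.ncard ≤ n := hn ▸ Set.ncard_image_le hD
    have h1' : ∀ x ∈ D', x.2.2 ∘ₗ x.1.1.K.subtype = x.2.1 := by
      rintro _ ⟨x, hx, rfl⟩
      change (φ ∘ₗ x.2.2) ∘ₗ x.1.1.K.subtype = φ ∘ₗ x.2.1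
      rw [LinearMap.comp_assoc, h1 x hx]
    have h2' : ∀ x ∈ D', h' ∘ₗ x.2.2 = b.ext x.1 (h' ∘ₗ x.2.1) := by
      rintro _ ⟨x, hx, rfl⟩
      change h' ∘ₗ (φ ∘ₗ x.2.2) = b.ext x.1 (h' ∘ₗ (φ ∘ₗ x.2.1))
      rw [← LinearMap.comp_assoc, ← LinearMap.comp_assoc, hφπ, h2 x hx]
    by_cases hf : ∀ (c : 𝒞) (v : c.1.K →ₗ[R] Y') (p q : c.1.P →ₗ[R] Y'),
        (⟨c, (v, p)⟩ : Dt 𝒞 Y') ∈ D' → (⟨c, (v, q)⟩ : Dt 𝒞 Y') ∈ D' → p = q
    · refine ⟨{ Y := Y', π := h', D := fun c v p => (⟨c, (v, p)⟩ : Dt 𝒞 Y') ∈ D'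
                ext := fun c v p h => h1' _ h
                ov := fun c v p h => h2' _ h
                uniq := hf }, φ, ⟨hfp', hLP, hD'⟩, hφπ, fun x hx => ?_, hφV⟩
      exact ⟨x, hx, rfl⟩
    · push Not at hf
      obtain ⟨c, v, p, q, hp, hq, hpq⟩ := hf
      let W : Submodule R Y' := LinearMap.range (p - q)
      have hW : W.FG := (Module.Finite.fg_top (R := R) (M := c.1.P)).map (p - q) |> fun h => by
        rw [Submodule.map_top] at h; exact h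
      have hWπ : W ≤ LinearMap.ker h' := by
        rintro _ ⟨z, rfl⟩
        rw [LinearMap.mem_ker, LinearMap.sub_apply, map_sub, sub_eq_zero]
        exact LinearMap.congr_fun ((h2' _ hp).trans (h2' _ hq).symm) z
      have hfp'' : Module.FinitePresentation R (Y' ⧸ W) := fp_quot W hW
      have hqπ : (W.liftQ h' hWπ) ∘ₗ W.mkQ = h' := Submodule.liftQ_mkQ _ _ _
      let D'' : Set (Dt 𝒞 (Y' ⧸ W)) := mp W.mkQ '' D'
      have hD'' : D''.Finite := hD'.image _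
      have hn'' : D''.ncard < D'.ncard := by
        refine lt_of_le_of_ne (Set.ncard_image_le hD') fun he => hpq ?_
        have hinj := (Set.ncard_image_iff hD').1 he
        have h3 : mp W.mkQ (⟨c, (v, p)⟩ : Dt 𝒞 Y') = mp W.mkQ (⟨c, (v, q)⟩ : Dt 𝒞 Y') := by
          have h4 : W.mkQ ∘ₗ p = W.mkQ ∘ₗ q := by
            refine LinearMap.ext fun z => ?_
            rw [LinearMap.comp_apply, LinearMap.comp_apply, ← sub_eq_zero, ← map_sub]
            have : p z - q z ∈ W := ⟨z, LinearMap.sub_apply p q z⟩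
            rwa [← LinearMap.mem_ker, Submodule.ker_mkQ]
          unfold mp
          simp only [h4]
        have h5 := hinj hp hq h3
        simpa using h5
      obtain ⟨B, h, hB, hBπ, hBD, -⟩ := ih D''.ncard (lt_of_lt_of_le hn'' hn') (Y' ⧸ W)
        (W.liftQ h' hWπ) D'' hD'' rfl (by
          rintro _ ⟨x, hx, rfl⟩
          change (W.mkQ ∘ₗ x.2.2) ∘ₗ x.1.1.K.subtype = W.mkQ ∘ₗ x.2.1
          rw [LinearMap.comp_assoc, h1' x hx]) (by
          rintro _ ⟨x, hx, rfl⟩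
          change (W.liftQ h' hWπ) ∘ₗ (W.mkQ ∘ₗ x.2.2) =
            b.ext x.1 ((W.liftQ h' hWπ) ∘ₗ (W.mkQ ∘ₗ x.2.1))
          rw [← LinearMap.comp_assoc, ← LinearMap.comp_assoc, hqπ, h2' x hx]) ⊥
        Submodule.fg_bot bot_le
      refine ⟨B, h ∘ₗ (W.mkQ ∘ₗ φ), hB, ?_, fun x hx => ?_, fun y hy => ?_⟩
      · rw [← LinearMap.comp_assoc, hBπ, ← LinearMap.comp_assoc, hqπ, hφπ]
      · exact hBD (mp W.mkQ (mp φ x)) ⟨mp φ x, ⟨x, hx, rfl⟩, rfl⟩
      · rw [LinearMap.mem_ker, LinearMap.comp_apply, LinearMap.comp_apply,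
          LinearMap.mem_ker.1 (hφV hy), map_zero, map_zero]

end KIL

/-- KIL -/
theorem t_KIL : S_KIL.{u} := by
  intro R _ 𝒞 N _ _ b hLL Y _ _ _ π D hD h1 h2 V hV hVπ
  exact KIL.aux b hLL D.ncard Y π D hD rfl h1 h2 V hV hVπ

end Pool.Agent.K6.H47.TL
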