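import Pool.Agent.K6.H47.TL.Stm

/-!
The direct limit of a sequence of partial algebras.
-/

set_option autoImplicit false

universe u

namespace Pool.Agent.K6.H47.TL

noncomputable section

namespace LIM

variable {R : Type u} [Ring R] {𝒞 : Set (Cell R)} {N : Type u} [AddCommGroup N] [Module R N]
  {b : Base 𝒞 N}

theorem hm_ext {A B : PA b} {g h : Hm A B} (e : g.f = h.f) : g = h := by
  cases g
  cases h
  cases e
  rfl

variable (A : ℕ → PA b) (i : ∀ n, Hm (A n) (A (n + 1)))

/-- the composites -/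
def tr (m n : ℕ) (h : m ≤ n) : Hm (A m) (A n) :=
  Nat.leRec (motive := fun n _ => Hm (A m) (A n)) (Hm.id _) (fun k _ g => (i k).comp g) h

theorem tr_self (m : ℕ) : tr A i m m le_rfl = Hm.id _ := Nat.leRec_self _ _

theorem tr_succ (m n : ℕ) (h : m ≤ n) (h' : m ≤ n + 1) :
    tr A i m (n + 1) h' = (i n).comp (tr A i m n h) := Nat.leRec_succ _ _ h

/-- the composites as linear maps -/
def F (m n : ℕ) (h : m ≤ n) : (A m).Y →ₗ[R] (A n).Y := (tr A i m n h).f

theorem F_self (m : ℕ) (x : (A m).Y) : F A i m m le_rfl x = x := by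
  unfold F
  rw [tr_self]
  rfl

theorem F_succ (m n : ℕ) (h : m ≤ n) (h' : m ≤ n + 1) (x : (A m).Y) :
    F A i m (n + 1) h' x = (i n).f (F A i m n h x) := by
  unfold F
  rw [tr_succ A i m n h h']
  rfl

theorem F_comp (m n k : ℕ) (h : m ≤ n) (h' : n ≤ k) (x : (A m).Y) :
    F A i n k h' (F A i m n h x) = F A i m k (h.trans h') x := by
  induction k, h' using Nat.le_induction with
  | base => rw [F_self]
  | succ k hk ih => rw [F_succ A i n k hk, F_succ A i m k (h.trans hk), ih]

instance sys : DirectedSystem (fun n => (A n).Y) (fun m n h => F A i m n h) where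
  map_self m x := F_self A i m x
  map_map k n m h h' x := F_comp A i m n k h h' x

theorem F_inj (hi : ∀ n, Function.Injective (i n).f) (m n : ℕ) (h : m ≤ n) :
    Function.Injective (F A i m n h) := by
  induction n, h using Nat.le_induction with
  | base =>
    intro x y hxy
    rwa [F_self, F_self] at hxy
  | succ n hn ih =>
    intro x y hxy
    rw [F_succ A i m n hn, F_succ A i m n hn] at hxy
    exact ih (hi n hxy)

/-- the limit -/
abbrev LY : Type u := Module.DirectLimit (fun n => (A n).Y) (F A i)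

/-- the map to the limit -/
def e (n : ℕ) : (A n).Y →ₗ[R] LY A i := Module.DirectLimit.of R ℕ (fun n => (A n).Y) (F A i) n

theorem e_F (m n : ℕ) (h : m ≤ n) (x : (A m).Y) : e A i n (F A i m n h x) = e A i m x :=
  Module.DirectLimit.of_f

theorem e_i (n : ℕ) (x : (A n).Y) : e A i (n + 1) ((i n).f x) = e A i n x := by
  have h := e_F A i n (n + 1) (Nat.le_succ n) x
  rwa [F_succ A i n n le_rfl, F_self] at h

theorem e_inj (hi : ∀ n, Function.Injective (i n).f) (n : ℕ) : Function.Injective (e A i n) := by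
  intro x y hxy
  obtain ⟨k, hk, h⟩ := Module.DirectLimit.exists_eq_of_of_eq hxy
  exact F_inj A i hi n k hk h

theorem Hg_of {Z : Type u} [AddCommGroup Z] [Module R Z] (g : ∀ n, (A n).Y →ₗ[R] Z)
    (hg : ∀ n, g (n + 1) ∘ₗ (i n).f = g n) (m n : ℕ) (h : m ≤ n) (x : (A m).Y) :
    g n (F A i m n h x) = g m x := by
  induction n, h using Nat.le_induction with
  | base => rw [F_self]
  | succ n hn ih =>
    rw [F_succ A i m n hn, ← ih]
    exact LinearMap.congr_fun (hg n) _

/-- maps from the limit -/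
def lf {Z : Type u} [AddCommGroup Z] [Module R Z] (g : ∀ n, (A n).Y →ₗ[R] Z)
    (hg : ∀ n, g (n + 1) ∘ₗ (i n).f = g n) : LY A i →ₗ[R] Z :=
  Module.DirectLimit.lift R ℕ (fun n => (A n).Y) (F A i) g fun m n h x => Hg_of A i g hg m n h x

theorem lf_e {Z : Type u} [AddCommGroup Z] [Module R Z] (g : ∀ n, (A n).Y →ₗ[R] Z)
    (hg : ∀ n, g (n + 1) ∘ₗ (i n).f = g n) (n : ℕ) : lf A i g hg ∘ₗ e A i n = g n := by
  ext x
  exact Module.DirectLimit.lift_of (f := F A i) g (fun m n h x => Hg_of A i g hg m n h x) x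

theorem l_ext {Z : Type u} [AddCommGroup Z] [Module R Z] {g h : LY A i →ₗ[R] Z}
    (hgh : ∀ n, g ∘ₗ e A i n = h ∘ₗ e A i n) : g = h :=
  Module.DirectLimit.hom_ext hgh

theorem e_up (m n : ℕ) (h : m ≤ n) {K : Type u} [AddCommGroup K] [Module R K]
    (v : K →ₗ[R] (A m).Y) : e A i n ∘ₗ (F A i m n h ∘ₗ v) = e A i m ∘ₗ v := by
  ext x
  exact e_F A i m n h (v x)

/-- the limit as a partial algebra -/
def lim (hi : ∀ n, Function.Injective (i n).f) : PA b where
  Y := LY A i
  π := lf A i (fun n => (A n).π) fun n => (i n).ov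
  D c v p := ∃ (n : ℕ) (v' : c.1.K →ₗ[R] (A n).Y) (p' : c.1.P →ₗ[R] (A n).Y),
    (A n).D c v' p' ∧ v = e A i n ∘ₗ v' ∧ p = e A i n ∘ₗ p'
  ext := by
    rintro c v p ⟨n, v', p', hD, rfl, rfl⟩
    rw [LinearMap.comp_assoc, (A n).ext c v' p' hD]
  ov := by
    rintro c v p ⟨n, v', p', hD, rfl, rfl⟩
    rw [← LinearMap.comp_assoc, ← LinearMap.comp_assoc, lf_e]
    exact (A n).ov c v' p' hD
  uniq := by
    rintro c v p q ⟨n, v1, p1, hD1, hv1, hp1⟩ ⟨m, v2, p2, hD2, hv2, hp2⟩
    have hn : n ≤ max n m := le_max_left _ _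
    have hm : m ≤ max n m := le_max_right _ _
    have h1 := (tr A i n (max n m) hn).pres c v1 p1 hD1
    have h2 := (tr A i m (max n m) hm).pres c v2 p2 hD2
    have h3 : (tr A i n (max n m) hn).f ∘ₗ v1 = (tr A i m (max n m) hm).f ∘ₗ v2 := by
      ext x
      apply e_inj A i hi (max n m)
      have h4 := LinearMap.congr_fun (e_up A i n (max n m) hn v1) x
      have h5 := LinearMap.congr_fun (e_up A i m (max n m) hm v2) x
      have h6 := LinearMap.congr_fun (hv1.symm.trans hv2) x
      exact h4.trans (h6.trans h5.symm)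
    rw [← h3] at h2
    have h4 := (A (max n m)).uniq c _ _ _ h1 h2
    rw [hp1, hp2, ← e_up A i n (max n m) hn p1, ← e_up A i m (max n m) hm p2]
    exact congrArg _ h4

/-- the map to the limit -/
def eh (hi : ∀ n, Function.Injective (i n).f) (n : ℕ) : Hm (A n) (lim A i hi) where
  f := e A i n
  ov := lf_e A i (fun n => (A n).π) (fun n => (i n).ov) n
  pres c v p hD := ⟨n, v, p, hD, rfl, rfl⟩

theorem fg_le (V : Submodule R (LY A i)) (hV : V.FG) :
    ∃ n, V ≤ LinearMap.range (e A i n) := by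
  classical
  obtain ⟨s, rfl⟩ := hV
  have hmono : ∀ m n, m ≤ n → LinearMap.range (e A i m) ≤ LinearMap.range (e A i n) := by
    rintro m n h _ ⟨x, rfl⟩
    exact ⟨F A i m n h x, e_F A i m n h x⟩
  induction s using Finset.induction_on with
  | empty => exact ⟨0, by simp⟩
  | insert z s _ ih =>
    obtain ⟨n, hn⟩ := ih
    obtain ⟨m, x, hx⟩ := Module.DirectLimit.exists_of z
    refine ⟨max n m, ?_⟩
    rw [Submodule.span_le]
    intro y hy
    rw [Finset.coe_insert, Set.mem_insert_iff] at hy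
    rcases hy with rfl | hy
    · exact hmono m _ (le_max_right _ _) ⟨x, hx⟩
    · exact hmono n _ (le_max_left _ _) (hn (Submodule.subset_span hy))

/-- factorisation through an injective map -/
theorem factor {K Y Z : Type u} [AddCommGroup K] [Module R K] [AddCommGroup Y] [Module R Y]
    [AddCommGroup Z] [Module R Z] (g : Y →ₗ[R] Z) (hg : Function.Injective g) (v : K →ₗ[R] Z)
    (hv : LinearMap.range v ≤ LinearMap.range g) : ∃ v' : K →ₗ[R] Y, g ∘ₗ v' = v := by
  refine ⟨(LinearEquiv.ofInjective g hg).symm.toLinearMap ∘ₗ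
    v.codRestrict (LinearMap.range g) (fun x => hv ⟨x, rfl⟩), ?_⟩
  ext x
  have h := (LinearEquiv.ofInjective g hg).apply_symm_apply
    (v.codRestrict (LinearMap.range g) (fun x => hv ⟨x, rfl⟩) x)
  exact congrArg Subtype.val h

end LIM

open LIM

theorem t_LIM : S_LIM.{u} := by
  intro R _ 𝒞 N _ _ b A i hi hfill
  refine ⟨lim A i hi, eh A i hi, ?_, e_inj A i hi, ?_, ?_, ?_, ?_⟩
  · intro c v
    have hfg : (LinearMap.range v).FG := by
      rw [LinearMap.range_eq_map]
      exact ((Submodule.fg_top _).2 c.1.fg).map v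
    obtain ⟨n, hn⟩ := fg_le A i _ hfg
    obtain ⟨v', hv'⟩ := factor (e A i n) (e_inj A i hi n) v hn
    obtain ⟨p, hp⟩ := hfill n c v'
    refine ⟨e A i (n + 1) ∘ₗ p, n + 1, (i n).f ∘ₗ v', p, hp, ?_, rfl⟩
    rw [← hv']
    ext x
    exact (e_i A i n (v' x)).symm
  · intro n
    ext x
    exact e_i A i n x
  · intro V hV
    exact fg_le A i V hV
  · intro Z _ _ g hg
    refine ⟨lf A i g hg, fun n => lf_e A i g hg n, fun h hh => ?_⟩
    refine l_ext A i fun n => ?_
    rw [lf_e]
    exact hh n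
  · intro Z g hg
    have h1 : (Z.π ∘ₗ lf A i (fun n => (g n).f) hg : LY A i →ₗ[R] N) =
        lf A i (fun n => (A n).π) (fun n => (i n).ov) := by
      refine l_ext A i fun n => ?_
      rw [LinearMap.comp_assoc, lf_e, lf_e]
      exact (g n).ov
    have h2 : ∀ (n : ℕ) (K : Type u) [AddCommGroup K] [Module R K] (v : K →ₗ[R] (A n).Y),
        lf A i (fun n => (g n).f) hg ∘ₗ (e A i n ∘ₗ v) = (g n).f ∘ₗ v := by
      intro n K _ _ v
      rw [← LinearMap.comp_assoc, lf_e]
    refine ⟨⟨lf A i (fun n => (g n).f) hg, h1, ?_⟩, fun n => lf_e A i _ hg n, fun h hh => ?_⟩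
    · rintro c v p ⟨n, v', p', hD, rfl, rfl⟩
      have h3 := (g n).pres c v' p' hD
      rw [← h2 n c.1.K v', ← h2 n c.1.P p'] at h3
      exact h3
    · apply hm_ext
      refine l_ext A i fun n => ?_
      rw [lf_e]
      exact hh n

end

end Pool.Agent.K6.H47.TL
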