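import Pool.Agent.K6.H47.TL.Stm

/-!
# From `T` to pure quotients of direct sums of copies of `T` (piece LLT, helper82)
-/

set_option autoImplicit false

universe u

namespace Pool.Agent.K6.H47.TL

namespace LLT

/-- a map from a finitely generated module to a direct sum lands in a finite part -/
lemma fin_supp {R : Type u} [Ring R] {T X F : Type u} [AddCommGroup T] [Module R T]
    [AddCommGroup F] [Module R F] [Module.Finite R F] (f : F →ₗ[R] (X →₀ T)) :
    ∃ S : Finset X, ∑ x ∈ S, (Finsupp.lsingle x ∘ₗ Finsupp.lapply x ∘ₗ f) = f := by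
  classical
  obtain ⟨G, hG⟩ := (Module.Finite.fg_top : (⊤ : Submodule R F).FG)
  refine ⟨G.biUnion fun y => (f y).support, ?_⟩
  set S : Finset X := G.biUnion fun y => (f y).support with hS
  have h1 : ∀ y : F, (f y).support ⊆ S := by
    intro y
    have h2 : (⊤ : Submodule R F) ≤ Submodule.comap f (Finsupp.supported T R (S : Set X)) := by
      rw [← hG, Submodule.span_le]
      intro y hy
      show f y ∈ Finsupp.supported T R (S : Set X)
      rw [Finsupp.mem_supported]
      exact_mod_cast Finset.subset_biUnion_of_mem (fun y => (f y).support) hy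
    have h3 : f y ∈ Finsupp.supported T R (S : Set X) := h2 (Submodule.mem_top : y ∈ ⊤)
    rw [Finsupp.mem_supported] at h3
    exact_mod_cast h3
  ext1 y
  rw [LinearMap.sum_apply]
  conv_rhs => rw [← Finsupp.sum_single (f y), Finsupp.sum]
  symm
  apply Finset.sum_subset (h1 y)
  intro x _ hx
  rw [Finsupp.notMem_support_iff.1 hx, Finsupp.single_zero]

lemma sum_comp {R : Type u} [Ring R] {A B C : Type u} [AddCommGroup A] [Module R A]
    [AddCommGroup B] [Module R B] [AddCommGroup C] [Module R C] {ι : Type*} (S : Finset ι)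
    (f : ι → B →ₗ[R] C) (g : A →ₗ[R] B) : (∑ x ∈ S, f x) ∘ₗ g = ∑ x ∈ S, f x ∘ₗ g := by
  ext y
  simp [LinearMap.sum_apply]

lemma comp_sum {R : Type u} [Ring R] {A B C : Type u} [AddCommGroup A] [Module R A]
    [AddCommGroup B] [Module R B] [AddCommGroup C] [Module R C] {ι : Type*} (S : Finset ι)
    (f : B →ₗ[R] C) (g : ι → A →ₗ[R] B) : f ∘ₗ (∑ x ∈ S, g x) = ∑ x ∈ S, f ∘ₗ g x := by
  ext y
  simp [LinearMap.sum_apply]

end LLT

/-- **LLT** -/
theorem t_LLT : S_LLT.{u} := by
  classical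
  intro R _ 𝒞 h𝒞 T _ _ hCE hLL X N _ _ g hg hpure
  constructor
  · intro c hc v
    have : Module.FinitePresentation R c.K := h𝒞 c hc
    obtain ⟨v', hv'⟩ := hpure c.K v
    obtain ⟨S, hS⟩ := LLT.fin_supp v'
    have h1 : ∀ x : X, ∃ p : c.P →ₗ[R] T, p ∘ₗ c.K.subtype = Finsupp.lapply x ∘ₗ v' :=
      fun x => hCE c hc _
    choose p hp using h1
    refine ⟨g ∘ₗ ∑ x ∈ S, (Finsupp.lsingle x ∘ₗ p x), ?_⟩
    rw [LinearMap.comp_assoc, LLT.sum_comp]
    simp only [LinearMap.comp_assoc, hp]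
    rw [hS, hv']
  · intro F _ _ _ f
    obtain ⟨f', hf'⟩ := hpure F f
    obtain ⟨S, hS⟩ := LLT.fin_supp f'
    have h1 : ∀ x : S, ∃ (Y : Type u) (_ : AddCommGroup Y) (_ : Module R Y),
        Module.FinitePresentation R Y ∧ LP 𝒞 Y ∧
        ∃ (a : F →ₗ[R] Y) (b : Y →ₗ[R] T), b ∘ₗ a = Finsupp.lapply (x : X) ∘ₗ f' :=
      fun x => hLL F _
    choose Y i1 i2 hfp hlp a b hab using h1
    refine ⟨∀ x : S, Y x, inferInstance, inferInstance, inferInstance, ?_,
      LinearMap.pi a, g ∘ₗ ∑ x : S, (Finsupp.lsingle (x : X) ∘ₗ b x ∘ₗ LinearMap.proj x), ?_⟩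
    · intro X' Z _ _ _ _ q hq hk r
      have h2 : ∀ x : S, ∃ r' : Y x →ₗ[R] X', q ∘ₗ r' = r ∘ₗ LinearMap.single R Y x :=
        fun x => hlp x X' Z q hq hk _
      choose r' hr' using h2
      refine ⟨∑ x : S, r' x ∘ₗ LinearMap.proj x, ?_⟩
      rw [LLT.comp_sum]
      simp only [← LinearMap.comp_assoc, hr']
      apply LinearMap.pi_ext
      intro x y
      rw [LinearMap.sum_apply, Finset.sum_eq_single x]
      · simp
      · intro x' _ hne
        simp [Pi.single_eq_of_ne hne]
      · intro h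
        exact absurd (Finset.mem_univ x) h
    · rw [← hf', LinearMap.comp_assoc]
      conv_rhs => rw [← hS]
      congr 1
      rw [LLT.sum_comp, ← Finset.sum_coe_sort S
        (fun x => Finsupp.lsingle x ∘ₗ Finsupp.lapply x ∘ₗ f')]
      apply Finset.sum_congr rfl
      intro x _
      rw [← hab x]
      rfl

end Pool.Agent.K6.H47.TL
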