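import Pool.Agent.K6.H47.TL.Stm

/-!
# Piece POS: a directed system of small partial algebras (helper21, for helper47)

The small partial algebras on quotients of `R ^ n` form a small filtered category; a directed poset
with a final functor to it (Mathlib: `IsFiltered.exists_directed`) is the index set.
-/

set_option autoImplicit false

universe u

open CategoryTheory

namespace Pool.Agent.K6.H47.TL.POS

variable {R : Type u} [Ring R] {𝒞 : Set (Cell R)} {N : Type u} [AddCommGroup N] [Module R N]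

lemma hm_ext {b : Base 𝒞 N} {A B : PA b} {g h : Hm A B} (e : g.f = h.f) : g = h := by
  cases g
  cases h
  subst e
  rfl

/-- partial algebras on quotients of `R ^ n` -/
structure Ob (b : Base 𝒞 N) : Type u where
  n : ℕ
  K : Submodule R (Fin n → R)
  π : ((Fin n → R) ⧸ K) →ₗ[R] N
  D : ∀ c : 𝒞, (c.1.K →ₗ[R] ((Fin n → R) ⧸ K)) → (c.1.P →ₗ[R] ((Fin n → R) ⧸ K)) → Prop
  ext : ∀ (c : 𝒞) (v : c.1.K →ₗ[R] ((Fin n → R) ⧸ K)) (p : c.1.P →ₗ[R] ((Fin n → R) ⧸ K)),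
    D c v p → p ∘ₗ c.1.K.subtype = v
  ov : ∀ (c : 𝒞) (v : c.1.K →ₗ[R] ((Fin n → R) ⧸ K)) (p : c.1.P →ₗ[R] ((Fin n → R) ⧸ K)),
    D c v p → π ∘ₗ p = b.ext c (π ∘ₗ v)
  uniq : ∀ (c : 𝒞) (v : c.1.K →ₗ[R] ((Fin n → R) ⧸ K)) (p q : c.1.P →ₗ[R] ((Fin n → R) ⧸ K)),
    D c v p → D c v q → p = q

/-- the partial algebra -/
def Ob.pa {b : Base 𝒞 N} (o : Ob b) : PA b where
  Y := (Fin o.n → R) ⧸ o.K
  π := o.π
  D := o.D
  ext := o.ext
  ov := o.ov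
  uniq := o.uniq

/-- the small category of the small partial algebras -/
def Jb (b : Base 𝒞 N) : Type u := {o : Ob b // o.pa.Small}

instance (b : Base 𝒞 N) : SmallCategory (Jb b) where
  Hom x y := Hm x.1.pa y.1.pa
  id x := Hm.id _
  comp f g := g.comp f
  id_comp f := hm_ext (LinearMap.comp_id _)
  comp_id f := hm_ext (LinearMap.id_comp _)
  assoc f g h := hm_ext (by
    simp only [Hm.comp, LinearMap.comp_assoc])

lemma LP_equiv {Y Y' : Type u} [AddCommGroup Y] [Module R Y] [AddCommGroup Y'] [Module R Y']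
    (e : Y ≃ₗ[R] Y') (h : LP 𝒞 Y) : LP 𝒞 Y' := by
  intro X Z _ _ _ _ g hg hk f
  obtain ⟨f', hf'⟩ := h X Z g hg hk (f ∘ₗ e.toLinearMap)
  refine ⟨f' ∘ₗ e.symm.toLinearMap, ?_⟩
  rw [← LinearMap.comp_assoc, hf', LinearMap.comp_assoc, LinearEquiv.comp_symm, LinearMap.comp_id]

/-- every small partial algebra is isomorphic to one of these -/
lemma exists_ob {b : Base 𝒞 N} (S : PA b) (hS : S.Small) :
    ∃ (o : Jb b) (i : Hm S o.1.pa) (i' : Hm o.1.pa S), i'.f ∘ₗ i.f = LinearMap.id := by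
  have := hS.fp
  obtain ⟨n, K, e, hK⟩ := Module.FinitePresentation.exists_fin R S.Y
  have hcan : ∀ {W : Type u} [AddCommGroup W] [Module R W] (v w : W →ₗ[R] ((Fin n → R) ⧸ K)),
      e.symm.toLinearMap ∘ₗ v = e.symm.toLinearMap ∘ₗ w → v = w := by
    intro W _ _ v w h
    ext x
    exact e.symm.injective (LinearMap.congr_fun h x)
  have hes : ∀ {W : Type u} [AddCommGroup W] [Module R W] (v : W →ₗ[R] S.Y),
      e.symm.toLinearMap ∘ₗ (e.toLinearMap ∘ₗ v) = v := by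
    intro W _ _ v
    ext x
    simp
  let o : Ob b :=
    { n := n
      K := K
      π := S.π ∘ₗ e.symm.toLinearMap
      D := fun c v p => S.D c (e.symm.toLinearMap ∘ₗ v) (e.symm.toLinearMap ∘ₗ p)
      ext := fun c v p h => hcan _ _ (by
        rw [← LinearMap.comp_assoc]
        exact S.ext c _ _ h)
      ov := fun c v p h => by
        rw [LinearMap.comp_assoc, LinearMap.comp_assoc]
        exact S.ov c _ _ h
      uniq := fun c v p q h h' => hcan _ _ (S.uniq c _ _ _ h h') }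
  have ho : o.pa.Small :=
    { fp := Module.FinitePresentation.of_equiv e
      lp := LP_equiv e hS.lp
      dfin := by
        have hf := hS.dfin
        let φ : (Σ c : 𝒞, (c.1.K →ₗ[R] ((Fin n → R) ⧸ K)) × (c.1.P →ₗ[R] ((Fin n → R) ⧸ K))) →
            (Σ c : 𝒞, (c.1.K →ₗ[R] S.Y) × (c.1.P →ₗ[R] S.Y)) := fun x =>
          ⟨x.1, (e.symm.toLinearMap ∘ₗ x.2.1, e.symm.toLinearMap ∘ₗ x.2.2)⟩
        have hφ : Function.Injective φ := by
          rintro ⟨c, v, p⟩ ⟨c', v', p'⟩ h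
          simp only [φ, Sigma.mk.injEq] at h
          obtain ⟨h1, h2⟩ := h
          subst h1
          rw [heq_eq_eq, Prod.mk.injEq] at h2
          rw [hcan _ _ h2.1, hcan _ _ h2.2]
        exact hf.preimage (hφ.injOn) }
  refine ⟨⟨o, ho⟩, ⟨e.toLinearMap, ?_, ?_⟩, ⟨e.symm.toLinearMap, rfl, fun c v p h => h⟩, ?_⟩
  · change (S.π ∘ₗ e.symm.toLinearMap) ∘ₗ e.toLinearMap = S.π
    rw [LinearMap.comp_assoc, LinearEquiv.symm_comp, LinearMap.comp_id]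
  · intro c v p h
    change S.D c (e.symm.toLinearMap ∘ₗ (e.toLinearMap ∘ₗ v))
      (e.symm.toLinearMap ∘ₗ (e.toLinearMap ∘ₗ p))
    rw [hes, hes]
    exact h
  · exact LinearEquiv.symm_comp e

/-- KIL with values in the small category -/
lemma kil (h : S_KIL.{u}) (b : Base 𝒞 N) (hL : LL 𝒞 N) (Y : Type u) [AddCommGroup Y] [Module R Y]
    [Module.FinitePresentation R Y] (π : Y →ₗ[R] N)
    (D : Set (Σ c : 𝒞, (c.1.K →ₗ[R] Y) × (c.1.P →ₗ[R] Y))) (hD : D.Finite)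
    (h1 : ∀ x ∈ D, x.2.2 ∘ₗ x.1.1.K.subtype = x.2.1)
    (h2 : ∀ x ∈ D, π ∘ₗ x.2.2 = b.ext x.1 (π ∘ₗ x.2.1))
    (V : Submodule R Y) (hV : V.FG) (hV2 : V ≤ LinearMap.ker π) :
    ∃ (o : Jb b) (k : Y →ₗ[R] o.1.pa.Y), o.1.pa.π ∘ₗ k = π ∧
      (∀ x ∈ D, o.1.pa.D x.1 (k ∘ₗ x.2.1) (k ∘ₗ x.2.2)) ∧ V ≤ LinearMap.ker k := by
  obtain ⟨B, k, hB, e1, e2, e3⟩ := h R 𝒞 N b hL Y π D hD h1 h2 V hV hV2
  obtain ⟨o, i, i', hi⟩ := exists_ob B hB
  refine ⟨o, i.f ∘ₗ k, ?_, ?_, ?_⟩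
  · rw [← LinearMap.comp_assoc, i.ov, e1]
  · intro x hx
    rw [LinearMap.comp_assoc, LinearMap.comp_assoc]
    exact i.pres _ _ _ (e2 x hx)
  · intro y hy
    have := e3 hy
    rw [LinearMap.mem_ker] at this ⊢
    rw [LinearMap.comp_apply, this, map_zero]

/-- hitting an element -/
lemma hit (h : S_KIL.{u}) (b : Base 𝒞 N) (hL : LL 𝒞 N) (x : N) :
    ∃ (o : Jb b) (y : o.1.pa.Y), o.1.pa.π y = x := by
  obtain ⟨o, k, e, -⟩ := kil h b hL R (LinearMap.toSpanSingleton R N x) ∅ Set.finite_empty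
    (by simp) (by simp) ⊥ Submodule.fg_bot bot_le
  refine ⟨o, k 1, ?_⟩
  rw [← LinearMap.comp_apply, e, LinearMap.toSpanSingleton_apply, one_smul]

lemma filt (h : S_KIL.{u}) (b : Base 𝒞 N) (hL : LL 𝒞 N) : IsFiltered (Jb b) where
  nonempty := ⟨(hit h b hL 0).choose⟩
  cocone_objs := by
    intro A B
    have := A.2.fp
    have := B.2.fp
    let iA : A.1.pa.Y →ₗ[R] A.1.pa.Y × B.1.pa.Y := LinearMap.inl R _ _
    let iB : B.1.pa.Y →ₗ[R] A.1.pa.Y × B.1.pa.Y := LinearMap.inr R _ _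
    let π : A.1.pa.Y × B.1.pa.Y →ₗ[R] N := LinearMap.coprod A.1.pa.π B.1.pa.π
    have hA : π ∘ₗ iA = A.1.pa.π := LinearMap.coprod_inl _ _
    have hB : π ∘ₗ iB = B.1.pa.π := LinearMap.coprod_inr _ _
    let DA : Set (Σ c : 𝒞, (c.1.K →ₗ[R] (A.1.pa.Y × B.1.pa.Y)) × (c.1.P →ₗ[R] (A.1.pa.Y × B.1.pa.Y))) :=
      (fun x : (Σ c : 𝒞, (c.1.K →ₗ[R] A.1.pa.Y) × (c.1.P →ₗ[R] A.1.pa.Y)) =>
        ⟨x.1, (iA ∘ₗ x.2.1, iA ∘ₗ x.2.2)⟩) '' {x | A.1.pa.D x.1 x.2.1 x.2.2}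
    let DB : Set (Σ c : 𝒞, (c.1.K →ₗ[R] (A.1.pa.Y × B.1.pa.Y)) × (c.1.P →ₗ[R] (A.1.pa.Y × B.1.pa.Y))) :=
      (fun x : (Σ c : 𝒞, (c.1.K →ₗ[R] B.1.pa.Y) × (c.1.P →ₗ[R] B.1.pa.Y)) =>
        ⟨x.1, (iB ∘ₗ x.2.1, iB ∘ₗ x.2.2)⟩) '' {x | B.1.pa.D x.1 x.2.1 x.2.2}
    obtain ⟨o, k, e1, e2, -⟩ := kil h b hL (A.1.pa.Y × B.1.pa.Y) π (DA ∪ DB)
      ((A.2.dfin.image _).union (B.2.dfin.image _))
      (by
        rintro x (⟨y, hy, rfl⟩ | ⟨y, hy, rfl⟩)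
        · change (iA ∘ₗ y.2.2) ∘ₗ y.1.1.K.subtype = iA ∘ₗ y.2.1
          rw [LinearMap.comp_assoc, A.1.pa.ext _ _ _ hy]
        · change (iB ∘ₗ y.2.2) ∘ₗ y.1.1.K.subtype = iB ∘ₗ y.2.1
          rw [LinearMap.comp_assoc, B.1.pa.ext _ _ _ hy])
      (by
        rintro x (⟨y, hy, rfl⟩ | ⟨y, hy, rfl⟩)
        · change π ∘ₗ (iA ∘ₗ y.2.2) = b.ext y.1 (π ∘ₗ (iA ∘ₗ y.2.1))
          rw [← LinearMap.comp_assoc, ← LinearMap.comp_assoc, hA]
          exact A.1.pa.ov _ _ _ hy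
        · change π ∘ₗ (iB ∘ₗ y.2.2) = b.ext y.1 (π ∘ₗ (iB ∘ₗ y.2.1))
          rw [← LinearMap.comp_assoc, ← LinearMap.comp_assoc, hB]
          exact B.1.pa.ov _ _ _ hy)
      ⊥ Submodule.fg_bot bot_le
    refine ⟨o, (⟨k ∘ₗ iA, ?_, ?_⟩ : Hm A.1.pa o.1.pa), (⟨k ∘ₗ iB, ?_, ?_⟩ : Hm B.1.pa o.1.pa),
      trivial⟩
    · rw [← LinearMap.comp_assoc, e1, hA]
    · intro c v p hp
      exact e2 ⟨c, (iA ∘ₗ v, iA ∘ₗ p)⟩ (Or.inl ⟨⟨c, (v, p)⟩, hp, rfl⟩)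
    · rw [← LinearMap.comp_assoc, e1, hB]
    · intro c v p hp
      exact e2 ⟨c, (iB ∘ₗ v, iB ∘ₗ p)⟩ (Or.inr ⟨⟨c, (v, p)⟩, hp, rfl⟩)
  cocone_maps := by
    intro A B f g
    have := A.2.fp
    have := B.2.fp
    let f' : Hm A.1.pa B.1.pa := f
    let g' : Hm A.1.pa B.1.pa := g
    obtain ⟨o, k, e1, e2, e3⟩ := kil h b hL B.1.pa.Y B.1.pa.π
      {x | B.1.pa.D x.1 x.2.1 x.2.2} B.2.dfin (fun x hx => B.1.pa.ext _ _ _ hx)
      (fun x hx => B.1.pa.ov _ _ _ hx) (LinearMap.range (f'.f - g'.f))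
      (Module.Finite.iff_fg.1 inferInstance)
      (by
        rintro _ ⟨y, rfl⟩
        rw [LinearMap.mem_ker, LinearMap.sub_apply, map_sub, ← LinearMap.comp_apply,
          ← LinearMap.comp_apply, f'.ov, g'.ov, sub_self])
    refine ⟨o, (⟨k, e1, fun c v p hp => e2 ⟨c, (v, p)⟩ hp⟩ : Hm B.1.pa o.1.pa), hm_ext ?_⟩
    change k ∘ₗ f'.f = k ∘ₗ g'.f
    ext y
    have h1 := e3 ⟨y, rfl⟩
    rw [LinearMap.mem_ker, LinearMap.sub_apply, map_sub, sub_eq_zero] at h1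
    exact h1

end Pool.Agent.K6.H47.TL.POS

namespace Pool.Agent.K6.H47.TL

/-- **POS** -/
theorem t_POS (h : S_KIL.{u}) : S_POS.{u} := by
  intro R _ 𝒞 N _ _ b hL
  have := POS.filt h b hL
  obtain ⟨α, hp, hd, hn, F, hF⟩ := IsFiltered.exists_directed (POS.Jb b)
  have : IsFiltered α := inferInstance
  have hfin := (Functor.final_iff_of_isFiltered F).1 hF
  refine ⟨α, inferInstance, hd, hn, fun i => (F.obj i).1.pa, fun i j hij => F.map (homOfLE hij),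
    fun i => (F.obj i).2, ?_, ?_, ?_, ?_⟩
  · intro i
    have e : F.map (homOfLE (le_refl i)) = 𝟙 (F.obj i) := F.map_id i
    exact congrArg Hm.f e
  · intro i j k hij hjk
    have e : F.map (homOfLE (hij.trans hjk)) = F.map (homOfLE hij) ≫ F.map (homOfLE hjk) := by
      rw [← F.map_comp]
      rfl
    exact (congrArg Hm.f e).symm
  · intro x
    obtain ⟨o, y, hy⟩ := POS.hit h b hL x
    obtain ⟨i, ⟨t⟩⟩ := hfin.1 o
    let t' : Hm o.1.pa (F.obj i).1.pa := t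
    refine ⟨i, t'.f y, ?_⟩
    rw [← LinearMap.comp_apply, t'.ov, hy]
  · intro i S hS g
    obtain ⟨o, i1, i1', e1⟩ := POS.exists_ob S hS
    obtain ⟨c, ⟨t⟩⟩ := hfin.1 o
    obtain ⟨k, hik, hck⟩ := exists_ge_ge i c
    let s0 : F.obj i ⟶ o := i1.comp g
    obtain ⟨j, r, hr⟩ := hfin.2 (s0 ≫ t ≫ F.map (homOfLE hck)) (F.map (homOfLE hik))
    let w : o ⟶ F.obj j := t ≫ F.map (homOfLE hck) ≫ F.map r
    let w' : Hm o.1.pa (F.obj j).1.pa := w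
    have hij : i ≤ j := hik.trans (leOfHom r)
    refine ⟨j, hij, w'.comp i1, ?_⟩
    have e2 : s0 ≫ w = F.map (homOfLE hij) := by
      have e3 : s0 ≫ w = (s0 ≫ t ≫ F.map (homOfLE hck)) ≫ F.map r := by
        simp only [w, Category.assoc]
      rw [e3, hr, ← F.map_comp]
      rfl
    have e4 : (s0 ≫ w : F.obj i ⟶ F.obj j) = w'.comp (i1.comp g) := rfl
    rw [e4] at e2
    exact congrArg Hm.f e2

end Pool.Agent.K6.H47.TL
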