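import Pool.Agent.K6.H47.TL.Stm

/-! Piece RLA (helper1 for helper47): attaching cells has the relative lifting property. -/

set_option autoImplicit false

universe u

namespace Pool.Agent.K6.H47.TL

theorem t_RLA : S_RLA.{u} := by
  intro R _ 𝒞 N _ _ b A B U i cell hatt X Z _ _ _ _ g hg hCE f e hge
  have key : ∀ s : U, ∃ h : s.1.1.1.P →ₗ[R] X,
      h ∘ₗ s.1.1.1.K.subtype = e ∘ₗ s.1.2 ∧ g ∘ₗ h = f ∘ₗ cell s := by
    intro s
    obtain ⟨q, hq⟩ := Module.projective_lifting_property g (f ∘ₗ cell s) hg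
    have hmem : ∀ x : s.1.1.1.K,
        (q ∘ₗ s.1.1.1.K.subtype - e ∘ₗ s.1.2) x ∈ LinearMap.ker g := by
      intro x
      rw [LinearMap.mem_ker, LinearMap.sub_apply, map_sub]
      have h1 : g (q (s.1.1.1.K.subtype x)) = f (cell s (s.1.1.1.K.subtype x)) :=
        LinearMap.congr_fun hq _
      have h2 : cell s (s.1.1.1.K.subtype x) = i.f (s.1.2 x) :=
        LinearMap.congr_fun (hatt.glue s) x
      have h3 : g (e (s.1.2 x)) = f (i.f (s.1.2 x)) := LinearMap.congr_fun hge _
      rw [LinearMap.comp_apply, LinearMap.comp_apply, h1, h2, h3, sub_self]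
    obtain ⟨r, hr⟩ := hCE s.1.1.1 s.1.1.2
      (LinearMap.codRestrict (LinearMap.ker g) (q ∘ₗ s.1.1.1.K.subtype - e ∘ₗ s.1.2) hmem)
    refine ⟨q - (LinearMap.ker g).subtype ∘ₗ r, ?_, ?_⟩
    · ext x
      have h4 : r (s.1.1.1.K.subtype x) = LinearMap.codRestrict (LinearMap.ker g)
          (q ∘ₗ s.1.1.1.K.subtype - e ∘ₗ s.1.2) hmem x := LinearMap.congr_fun hr x
      rw [LinearMap.comp_apply, LinearMap.sub_apply, LinearMap.comp_apply, h4]
      simp
    · ext1
      rename_i x
      apply LinearMap.ext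
      intro y
      have h5 : ∀ z : s.1.1.1.P, g (((LinearMap.ker g).subtype ∘ₗ r) z) = 0 := by
        intro z
        exact LinearMap.mem_ker.1 (r z).2
      have h6 : ∀ z : s.1.1.1.P, g (q z) = f (cell s z) := fun z => LinearMap.congr_fun hq z
      simp only [LinearMap.comp_apply, LinearMap.sub_apply, map_sub]
      have h7 := h5 ((LinearMap.single R (fun _ : Fin s.1.1.1.k => R) x) y)
      rw [LinearMap.comp_apply] at h7
      rw [h7, h6, sub_zero]
  choose h h1 h2 using key
  obtain ⟨f', hf1, hf2⟩ := hatt.univ X e h h1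
  refine ⟨f', ?_, hf1⟩
  apply LinearMap.ext
  intro z
  obtain ⟨y, t, x, rfl⟩ := hatt.surj z
  have h3 : ∀ s : U, ∀ w, g (f' (cell s w)) = f (cell s w) := by
    intro s w
    have := LinearMap.congr_fun (hf2 s) w
    rw [LinearMap.comp_apply] at this
    rw [this]
    exact LinearMap.congr_fun (h2 s) w
  have h4 : g (f' (i.f y)) = f (i.f y) := by
    have := LinearMap.congr_fun hf1 y
    rw [LinearMap.comp_apply] at this
    rw [this]
    exact LinearMap.congr_fun hge y
  rw [LinearMap.comp_apply, map_add, map_add, map_add, h4, map_sum, map_sum, map_sum]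
  congr 1
  exact Finset.sum_congr rfl fun s _ => h3 s _

end Pool.Agent.K6.H47.TL
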