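import Mathlib

/-!
# Modules of finite type: definitions and statements of the pieces

`Cell`: a finitely generated submodule `K` of `P = R ^ k`. For a set `𝒞` of cells, `CE 𝒞 M`: all maps
`K → M` extend to `P → M`; `LP 𝒞 Y`: maps from `Y` lift along surjections whose kernel is `CE`.
`Base`: a module `N` with chosen extensions. `PA b`: a module `Y → N` with a partial function `D`
which gives some maps `u : K → Y` an extension `p : P → Y`, over the chosen extension of `N`.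
-/

set_option autoImplicit false

universe u

namespace Pool.Agent.K6.H47.TL

/-- a cell: a finitely generated submodule `K` of `R ^ k` -/
structure Cell (R : Type u) [Ring R] where
  k : ℕ
  K : Submodule R (Fin k → R)
  fg : K.FG

/-- the free module of a cell -/
abbrev Cell.P {R : Type u} [Ring R] (c : Cell R) : Type u := Fin c.k → R

section

variable {R : Type u} [Ring R]

/-- all maps `K → M` extend to `P → M` -/
def CE (𝒞 : Set (Cell R)) (M : Type u) [AddCommGroup M] [Module R M] : Prop :=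
  ∀ c ∈ 𝒞, ∀ v : c.K →ₗ[R] M, ∃ p : c.P →ₗ[R] M, p ∘ₗ c.K.subtype = v

/-- maps from `Y` lift along surjections with kernel in `CE` -/
def LP (𝒞 : Set (Cell R)) (Y : Type u) [AddCommGroup Y] [Module R Y] : Prop :=
  ∀ (X Z : Type u) [AddCommGroup X] [Module R X] [AddCommGroup Z] [Module R Z] (g : X →ₗ[R] Z),
    Function.Surjective g → CE 𝒞 (LinearMap.ker g) → ∀ f : Y →ₗ[R] Z, ∃ f' : Y →ₗ[R] X, g ∘ₗ f' = f

/-- chosen extensions for `N` -/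
structure Base (𝒞 : Set (Cell R)) (N : Type u) [AddCommGroup N] [Module R N] where
  ext : ∀ c : 𝒞, (c.1.K →ₗ[R] N) → (c.1.P →ₗ[R] N)
  spec : ∀ (c : 𝒞) (v : c.1.K →ₗ[R] N), ext c v ∘ₗ c.1.K.subtype = v
  zero : ∀ c : 𝒞, ext c 0 = 0

variable {𝒞 : Set (Cell R)} {N : Type u} [AddCommGroup N] [Module R N]

/-- a partial algebra over `N`: a module `Y → N` with some chosen extensions -/
structure PA (b : Base 𝒞 N) where
  Y : Type u
  [acg : AddCommGroup Y]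
  [mod : Module R Y]
  π : Y →ₗ[R] N
  D : ∀ c : 𝒞, (c.1.K →ₗ[R] Y) → (c.1.P →ₗ[R] Y) → Prop
  ext : ∀ (c : 𝒞) (v : c.1.K →ₗ[R] Y) (p : c.1.P →ₗ[R] Y), D c v p → p ∘ₗ c.1.K.subtype = v
  ov : ∀ (c : 𝒞) (v : c.1.K →ₗ[R] Y) (p : c.1.P →ₗ[R] Y), D c v p → π ∘ₗ p = b.ext c (π ∘ₗ v)
  uniq : ∀ (c : 𝒞) (v : c.1.K →ₗ[R] Y) (p q : c.1.P →ₗ[R] Y), D c v p → D c v q → p = q

attribute [instance] PA.acg PA.mod

/-- homomorphisms of partial algebras -/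
structure Hm {b : Base 𝒞 N} (A B : PA b) where
  f : A.Y →ₗ[R] B.Y
  ov : B.π ∘ₗ f = A.π
  pres : ∀ (c : 𝒞) (v : c.1.K →ₗ[R] A.Y) (p : c.1.P →ₗ[R] A.Y), A.D c v p →
    B.D c (f ∘ₗ v) (f ∘ₗ p)

/-- composition -/
def Hm.comp {b : Base 𝒞 N} {A B C : PA b} (h : Hm B C) (g : Hm A B) : Hm A C where
  f := h.f ∘ₗ g.f
  ov := by rw [← LinearMap.comp_assoc, h.ov, g.ov]
  pres c v p hp := h.pres c _ _ (g.pres c v p hp)

/-- identity -/
def Hm.id {b : Base 𝒞 N} (A : PA b) : Hm A A where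
  f := LinearMap.id
  ov := rfl
  pres _ _ _ hp := hp

/-- all extensions are chosen -/
def PA.Total {b : Base 𝒞 N} (A : PA b) : Prop :=
  ∀ (c : 𝒞) (v : c.1.K →ₗ[R] A.Y), ∃ p, A.D c v p

/-- finitely many extensions are chosen -/
def PA.DFin {b : Base 𝒞 N} (A : PA b) : Prop :=
  Set.Finite {x : Σ c : 𝒞, (c.1.K →ₗ[R] A.Y) × (c.1.P →ₗ[R] A.Y) | A.D x.1 x.2.1 x.2.2}

/-- finite partial algebras with the lifting property -/
structure PA.Small {b : Base 𝒞 N} (A : PA b) : Prop where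
  fp : Module.FinitePresentation R A.Y
  lp : LP 𝒞 A.Y
  dfin : A.DFin

/-- the maps `v : K → Y` -/
abbrev Sq (𝒞 : Set (Cell R)) (Y : Type u) [AddCommGroup Y] [Module R Y] : Type u :=
  Σ c : 𝒞, (c.1.K →ₗ[R] Y)

/-- `B` is `A` with cells attached along the maps in the set `U` -/
structure IsAtt {b : Base 𝒞 N} (A B : PA b) (U : Set (Sq 𝒞 A.Y)) (i : Hm A B)
    (cell : ∀ s : U, s.1.1.1.P →ₗ[R] B.Y) : Prop where
  /-- no map in `U` had a chosen extension -/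
  new : ∀ s ∈ U, ∀ p, ¬ A.D s.1 s.2 p
  glue : ∀ s : U, cell s ∘ₗ s.1.1.1.K.subtype = i.f ∘ₗ s.1.2
  D_iff : ∀ (c : 𝒞) (v : c.1.K →ₗ[R] B.Y) (p : c.1.P →ₗ[R] B.Y), B.D c v p ↔
    (∃ v' p', A.D c v' p' ∧ v = i.f ∘ₗ v' ∧ p = i.f ∘ₗ p') ∨
    (∃ v', ∃ h : (⟨c, v'⟩ : Sq 𝒞 A.Y) ∈ U, v = i.f ∘ₗ v' ∧ p = cell ⟨⟨c, v'⟩, h⟩)
  surj : ∀ z : B.Y, ∃ (y : A.Y) (t : Finset U) (x : ∀ s : U, s.1.1.1.P),
    z = i.f y + ∑ s ∈ t, cell s (x s)
  ker : ∀ (y : A.Y) (t : Finset U) (x : ∀ s : U, s.1.1.1.P), i.f y + ∑ s ∈ t, cell s (x s) = 0 →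
    ∃ z : ∀ s : U, s.1.1.1.K, (∀ s ∈ t, (z s : s.1.1.1.P) = x s) ∧ y + ∑ s ∈ t, s.1.2 (z s) = 0
  univ : ∀ (Z : Type u) [AddCommGroup Z] [Module R Z] (f : A.Y →ₗ[R] Z)
    (g : ∀ s : U, s.1.1.1.P →ₗ[R] Z), (∀ s : U, g s ∘ₗ s.1.1.1.K.subtype = f ∘ₗ s.1.2) →
    ∃ h : B.Y →ₗ[R] Z, h ∘ₗ i.f = f ∧ ∀ s : U, h ∘ₗ cell s = g s

/-- relative lifting property -/
def RLP {b : Base 𝒞 N} {A B : PA b} (i : Hm A B) : Prop :=
  ∀ (X Z : Type u) [AddCommGroup X] [Module R X] [AddCommGroup Z] [Module R Z] (g : X →ₗ[R] Z),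
    Function.Surjective g → CE 𝒞 (LinearMap.ker g) → ∀ (f : B.Y →ₗ[R] Z) (e : A.Y →ₗ[R] X),
    g ∘ₗ e = f ∘ₗ i.f → ∃ f' : B.Y →ₗ[R] X, g ∘ₗ f' = f ∧ f' ∘ₗ i.f = e

/-- homomorphisms from `A` to total algebras extend uniquely to `B` -/
def Unv {b : Base 𝒞 N} {A B : PA b} (i : Hm A B) : Prop :=
  ∀ (Z : PA b), Z.Total → ∀ g : Hm A Z, ∃! h : Hm B Z, h.f ∘ₗ i.f = g.f

/-- finitely generated submodules of `B` lie in finite extensions of `A` inside `B` -/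
def FSC {b : Base 𝒞 N} {A B : PA b} (i : Hm A B) : Prop :=
  ∀ V : Submodule R B.Y, V.FG → ∃ (S : PA b) (h : Hm A S) (j : Hm S B), j.f ∘ₗ h.f = i.f ∧
    Function.Injective j.f ∧ V ≤ LinearMap.range j.f ∧ (A.Small → S.Small) ∧ Unv h

/-- finitely generated submodules of `B` lie in small partial algebras inside `B` -/
def LocSmall {b : Base 𝒞 N} (B : PA b) : Prop :=
  ∀ V : Submodule R B.Y, V.FG → ∃ (S : PA b) (j : Hm S B), S.Small ∧
    Function.Injective j.f ∧ V ≤ LinearMap.range j.f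

/-- maps from finitely presented modules to `N` factor through finitely presented modules with the
lifting property -/
def LL (𝒞 : Set (Cell R)) (N : Type u) [AddCommGroup N] [Module R N] : Prop :=
  ∀ (F : Type u) [AddCommGroup F] [Module R F] [Module.FinitePresentation R F] (f : F →ₗ[R] N),
    ∃ (Y : Type u) (_ : AddCommGroup Y) (_ : Module R Y), Module.FinitePresentation R Y ∧ LP 𝒞 Y ∧
      ∃ (g : F →ₗ[R] Y) (h : Y →ₗ[R] N), h ∘ₗ g = f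

end

/-! ### Part 1: attaching cells -/

/-- ATT -/
def S_ATT : Prop :=
  ∀ (R : Type u) [Ring R] (𝒞 : Set (Cell R)) (N : Type u) [AddCommGroup N] [Module R N]
    (b : Base 𝒞 N) (A : PA b) (U : Set (Sq 𝒞 A.Y)), (∀ s ∈ U, ∀ p, ¬ A.D s.1 s.2 p) →
    ∃ (B : PA b) (i : Hm A B) (cell : ∀ s : U, s.1.1.1.P →ₗ[R] B.Y), IsAtt A B U i cell

/-- HOM -/
def S_HOM : Prop :=
  ∀ (R : Type u) [Ring R] (𝒞 : Set (Cell R)) (N : Type u) [AddCommGroup N] [Module R N]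
    (b : Base 𝒞 N) (A B : PA b) (U : Set (Sq 𝒞 A.Y)) (i : Hm A B)
    (cell : ∀ s : U, s.1.1.1.P →ₗ[R] B.Y), IsAtt A B U i cell → Function.Injective i.f ∧
    ∀ (Z : PA b) (g : Hm A Z), (∀ s ∈ U, ∃ p, Z.D s.1 (g.f ∘ₗ s.2) p) →
      ∃! h : Hm B Z, h.f ∘ₗ i.f = g.f

/-- RLA -/
def S_RLA : Prop :=
  ∀ (R : Type u) [Ring R] (𝒞 : Set (Cell R)) (N : Type u) [AddCommGroup N] [Module R N]
    (b : Base 𝒞 N) (A B : PA b) (U : Set (Sq 𝒞 A.Y)) (i : Hm A B)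
    (cell : ∀ s : U, s.1.1.1.P →ₗ[R] B.Y), IsAtt A B U i cell → RLP i

/-- SMA -/
def S_SMA : Prop :=
  ∀ (R : Type u) [Ring R] (𝒞 : Set (Cell R)) (N : Type u) [AddCommGroup N] [Module R N]
    (b : Base 𝒞 N) (A B : PA b) (U : Set (Sq 𝒞 A.Y)) (i : Hm A B)
    (cell : ∀ s : U, s.1.1.1.P →ₗ[R] B.Y), IsAtt A B U i cell → RLP i → U.Finite → A.Small →
    B.Small

/-- SUB -/
def S_SUB : Prop :=
  ∀ (R : Type u) [Ring R] (𝒞 : Set (Cell R)) (N : Type u) [AddCommGroup N] [Module R N]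
    (b : Base 𝒞 N) (A B : PA b) (U : Set (Sq 𝒞 A.Y)) (i : Hm A B)
    (cell : ∀ s : U, s.1.1.1.P →ₗ[R] B.Y), IsAtt A B U i cell →
    ∀ V : Submodule R B.Y, V.FG → ∃ V₀ : Submodule R A.Y, V₀.FG ∧
      ∀ (S : PA b) (j : Hm S A), Function.Injective j.f → V₀ ≤ LinearMap.range j.f →
      ∃ (U' : Set (Sq 𝒞 S.Y)) (S' : PA b) (i' : Hm S S')
        (cell' : ∀ s : U', s.1.1.1.P →ₗ[R] S'.Y) (j' : Hm S' B), U'.Finite ∧
        IsAtt S S' U' i' cell' ∧ Function.Injective j'.f ∧ j'.f ∘ₗ i'.f = i.f ∘ₗ j.f ∧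
        V ≤ LinearMap.range j'.f

/-- LIM -/
def S_LIM : Prop :=
  ∀ (R : Type u) [Ring R] (𝒞 : Set (Cell R)) (N : Type u) [AddCommGroup N] [Module R N]
    (b : Base 𝒞 N) (A : ℕ → PA b) (i : ∀ n, Hm (A n) (A (n + 1))),
    (∀ n, Function.Injective (i n).f) →
    (∀ n (c : 𝒞) (v : c.1.K →ₗ[R] (A n).Y), ∃ p, (A (n + 1)).D c ((i n).f ∘ₗ v) p) →
    ∃ (E : PA b) (e : ∀ n, Hm (A n) E), E.Total ∧ (∀ n, Function.Injective (e n).f) ∧
      (∀ n, (e (n + 1)).f ∘ₗ (i n).f = (e n).f) ∧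
      (∀ V : Submodule R E.Y, V.FG → ∃ n, V ≤ LinearMap.range (e n).f) ∧
      (∀ (Z : Type u) [AddCommGroup Z] [Module R Z] (g : ∀ n, (A n).Y →ₗ[R] Z),
        (∀ n, g (n + 1) ∘ₗ (i n).f = g n) → ∃! h : E.Y →ₗ[R] Z, ∀ n, h ∘ₗ (e n).f = g n) ∧
      (∀ (Z : PA b) (g : ∀ n, Hm (A n) Z), (∀ n, (g (n + 1)).f ∘ₗ (i n).f = (g n).f) →
        ∃! h : Hm E Z, ∀ n, h.f ∘ₗ (e n).f = (g n).f)

/-! ### Part 2: the category of small partial algebras -/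

/-- KIL -/
def S_KIL : Prop :=
  ∀ (R : Type u) [Ring R] (𝒞 : Set (Cell R)) (N : Type u) [AddCommGroup N] [Module R N]
    (b : Base 𝒞 N), LL 𝒞 N → ∀ (Y : Type u) [AddCommGroup Y] [Module R Y]
    [Module.FinitePresentation R Y] (π : Y →ₗ[R] N)
    (D : Set (Σ c : 𝒞, (c.1.K →ₗ[R] Y) × (c.1.P →ₗ[R] Y))), D.Finite →
    (∀ x ∈ D, x.2.2 ∘ₗ x.1.1.K.subtype = x.2.1) →
    (∀ x ∈ D, π ∘ₗ x.2.2 = b.ext x.1 (π ∘ₗ x.2.1)) →
    ∀ V : Submodule R Y, V.FG → V ≤ LinearMap.ker π →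
    ∃ (B : PA b) (h : Y →ₗ[R] B.Y), B.Small ∧ B.π ∘ₗ h = π ∧
      (∀ x ∈ D, B.D x.1 (h ∘ₗ x.2.1) (h ∘ₗ x.2.2)) ∧ V ≤ LinearMap.ker h

/-- POS -/
def S_POS : Prop :=
  ∀ (R : Type u) [Ring R] (𝒞 : Set (Cell R)) (N : Type u) [AddCommGroup N] [Module R N]
    (b : Base 𝒞 N), LL 𝒞 N →
    ∃ (ι : Type u) (_ : Preorder ι) (_ : IsDirectedOrder ι) (_ : Nonempty ι) (A : ι → PA b)
      (h : ∀ i j, i ≤ j → Hm (A i) (A j)), (∀ i, (A i).Small) ∧
      (∀ i, (h i i le_rfl).f = LinearMap.id) ∧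
      (∀ i j k (hij : i ≤ j) (hjk : j ≤ k), (h j k hjk).f ∘ₗ (h i j hij).f =
        (h i k (hij.trans hjk)).f) ∧
      (∀ x : N, ∃ i, ∃ y, (A i).π y = x) ∧
      ∀ i (S : PA b), S.Small → ∀ g : Hm (A i) S, ∃ j, ∃ hij : i ≤ j, ∃ g' : Hm S (A j),
        g'.f ∘ₗ g.f = (h i j hij).f

/-! ### Part 3: tilting modules -/

/-- first syzygy (free module on the elements of `M`) -/
abbrev Om (R : Type u) [Ring R] (M : Type u) [AddCommGroup M] [Module R M] : Type u :=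
  LinearMap.ker (Finsupp.linearCombination R (id : M → M))

/-- `ExtZ i M N`: `Ext^(i+1)(M, N) = 0` -/
def ExtZ (R : Type u) [Ring R] : ℕ → ∀ (M : Type u) [AddCommGroup M] [Module R M] (N : Type u)
    [AddCommGroup N] [Module R N], Prop
  | 0, M, _, _, N, _, _ => ∀ f : Om R M →ₗ[R] N, ∃ g : (M →₀ R) →ₗ[R] N,
      g ∘ₗ (LinearMap.ker (Finsupp.linearCombination R (id : M → M))).subtype = f
  | i + 1, M, _, _, N, _, _ => ExtZ R i (Om R M) N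

/-- projective dimension at most `n` -/
def PdLE (R : Type u) [Ring R] : ℕ → ∀ (M : Type u) [AddCommGroup M] [Module R M], Prop
  | 0, M, _, _ => Module.Projective R M
  | n + 1, M, _, _ => PdLE R n (Om R M)

/-- summands of direct sums of copies of `T` -/
def AddT (R : Type u) [Ring R] (T : Type u) [AddCommGroup T] [Module R T] (M : Type u)
    [AddCommGroup M] [Module R M] : Prop :=
  ∃ (X : Type u) (i : M →ₗ[R] (X →₀ T)) (p : (X →₀ T) →ₗ[R] M), p ∘ₗ i = LinearMap.id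

/-- `M` has a coresolution `0 → M → T_0 → ... → T_n → 0` in `Add T` -/
def Cores (R : Type u) [Ring R] (T : Type u) [AddCommGroup T] [Module R T] :
    ℕ → ∀ (M : Type u) [AddCommGroup M] [Module R M], Prop
  | 0, M, _, _ => AddT R T M
  | n + 1, M, _, _ => ∃ (T₀ : Type u) (_ : AddCommGroup T₀) (_ : Module R T₀) (f : M →ₗ[R] T₀),
      AddT R T T₀ ∧ Function.Injective f ∧ Cores R T n (T₀ ⧸ LinearMap.range f)

/-- `n`-tilting modules -/
structure Tilting (R : Type u) [Ring R] (n : ℕ) (T : Type u) [AddCommGroup T] [Module R T] :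
    Prop where
  pd : PdLE R n T
  ext : ∀ (i : ℕ) (X : Type u), ExtZ R i T (X →₀ T)
  cores : Cores R T n R

/-- `M` is of type `FP_n` -/
def FPn (R : Type u) [Ring R] : ℕ → ∀ (M : Type u) [AddCommGroup M] [Module R M], Prop
  | 0, M, _, _ => Module.Finite R M
  | n + 1, M, _, _ => ∃ (k : ℕ) (f : (Fin k → R) →ₗ[R] M), Function.Surjective f ∧
      FPn R n (LinearMap.ker f)

/-- `T` is of finite type: `T^⊥` is the class orthogonal to a set of modules of type `FP_∞` -/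
def FiniteType (R : Type u) [Ring R] (T : Type u) [AddCommGroup T] [Module R T] : Prop :=
  ∃ 𝒮 : ∀ (S : Type u) [AddCommGroup S] [Module R S], Prop,
    (∀ (S : Type u) [AddCommGroup S] [Module R S], 𝒮 S → ∀ n, FPn R n S) ∧
    ∀ (M : Type u) [AddCommGroup M] [Module R M], (∀ i, ExtZ R i T M) ↔
      ∀ (S : Type u) [AddCommGroup S] [Module R S], 𝒮 S → ∀ i, ExtZ R i S M

/-- EX0: `Ext^1` and `Ext^i` by any projective presentation -/
def S_EX0 : Prop :=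
  ∀ (R : Type u) [Ring R] (P M N : Type u) [AddCommGroup P] [Module R P] [AddCommGroup M]
    [Module R M] [AddCommGroup N] [Module R N] [Module.Projective R P] (f : P →ₗ[R] M),
    Function.Surjective f → (ExtZ R 0 M N ↔ ∀ v : LinearMap.ker f →ₗ[R] N, ∃ g : P →ₗ[R] N,
      g ∘ₗ (LinearMap.ker f).subtype = v) ∧ ∀ i, ExtZ R (i + 1) M N ↔ ExtZ R i (LinearMap.ker f) N

/-- EXS: long exact sequence in the second variable -/
def S_EXS : Prop :=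
  ∀ (R : Type u) [Ring R] (M X Z : Type u) [AddCommGroup M] [Module R M] [AddCommGroup X]
    [Module R X] [AddCommGroup Z] [Module R Z] (g : X →ₗ[R] Z), Function.Surjective g →
    (∀ i, ExtZ R i M X → ExtZ R (i + 1) M (LinearMap.ker g) → ExtZ R i M Z) ∧
    (∀ i, ExtZ R i M Z → ExtZ R (i + 1) M X → ExtZ R (i + 1) M (LinearMap.ker g)) ∧
    ((∀ f : M →ₗ[R] Z, ∃ f' : M →ₗ[R] X, g ∘ₗ f' = f) → ExtZ R 0 M X →
      ExtZ R 0 M (LinearMap.ker g)) ∧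
    (ExtZ R 0 M (LinearMap.ker g) → ∀ f : M →ₗ[R] Z, ∃ f' : M →ₗ[R] X, g ∘ₗ f' = f)

/-- EXF: long exact sequence in the first variable -/
def S_EXF : Prop :=
  ∀ (R : Type u) [Ring R] (A B N : Type u) [AddCommGroup A] [Module R A] [AddCommGroup B]
    [Module R B] [AddCommGroup N] [Module R N] (f : A →ₗ[R] B), Function.Injective f →
    (∀ i, ExtZ R i B N → ExtZ R (i + 1) (B ⧸ LinearMap.range f) N → ExtZ R i A N) ∧
    (∀ i, ExtZ R i A N → ExtZ R (i + 1) B N → ExtZ R (i + 1) (B ⧸ LinearMap.range f) N) ∧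
    (ExtZ R 0 (B ⧸ LinearMap.range f) N → ∀ v : A →ₗ[R] N, ∃ w : B →ₗ[R] N, w ∘ₗ f = v)

/-- EXA: the functor `Ext` and `Add T` -/
def S_EXA : Prop :=
  ∀ (R : Type u) [Ring R] (T M N : Type u) [AddCommGroup T] [Module R T] [AddCommGroup M]
    [Module R M] [AddCommGroup N] [Module R N], AddT R T M → ∀ i, ExtZ R i T N → ExtZ R i M N

/-- CEL: the cells of a tilting module of finite type -/
def S_CEL : Prop :=
  ∀ (R : Type u) [Ring R] (T : Type u) [AddCommGroup T] [Module R T], FiniteType R T →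
    ∃ 𝒞 : Set (Cell R), (∀ c ∈ 𝒞, Module.FinitePresentation R c.K) ∧
      ∀ (M : Type u) [AddCommGroup M] [Module R M], (∀ i, ExtZ R i T M) ↔ CE 𝒞 M

/-- ADD: modules with both properties are in `Add T` -/
def S_ADD : Prop :=
  ∀ (R : Type u) [Ring R] (T : Type u) [AddCommGroup T] [Module R T] (n : ℕ), Tilting R n T →
    ∀ 𝒞 : Set (Cell R), (∀ (M : Type u) [AddCommGroup M] [Module R M],
      (∀ i, ExtZ R i T M) ↔ CE 𝒞 M) → LP 𝒞 T ∧
    ∀ (M : Type u) [AddCommGroup M] [Module R M], CE 𝒞 M → LP 𝒞 M → AddT R T M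

/-- LLT: from `T` to pure quotients of direct sums of copies of `T` -/
def S_LLT : Prop :=
  ∀ (R : Type u) [Ring R] (𝒞 : Set (Cell R)), (∀ c ∈ 𝒞, Module.FinitePresentation R c.K) →
    ∀ (T : Type u) [AddCommGroup T] [Module R T], CE 𝒞 T → LL 𝒞 T →
    ∀ (X N : Type u) [AddCommGroup N] [Module R N] (g : (X →₀ T) →ₗ[R] N),
    Function.Surjective g → (∀ (F : Type u) [AddCommGroup F] [Module R F]
      [Module.FinitePresentation R F] (f : F →ₗ[R] N), ∃ f' : F →ₗ[R] (X →₀ T), g ∘ₗ f' = f) →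
    CE 𝒞 N ∧ LL 𝒞 N

end Pool.Agent.K6.H47.TL
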