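import Mathlib
import Pool.Agent.K6.H47.TL.Stm

set_option autoImplicit false

universe u

namespace Pool.Agent.K6.H47.TL

theorem t_SMA : S_SMA.{u} := by
  classical
  intro R _ 𝒞 N _ _ b A B U i cell hatt hrlp hU hA
  haveI : Fintype U := hU.fintype
  haveI : Module.FinitePresentation R A.Y := hA.fp
  haveI : ∀ s : U, Module.Finite R s.1.1.1.K := fun s => Module.Finite.iff_fg.2 s.1.1.1.fg
  refine ⟨?_, ?_, ?_⟩
  · -- finite presentation
    obtain ⟨φ, hφ⟩ : ∃ φ : (A.Y × (∀ s : U, s.1.1.1.P)) →ₗ[R] B.Y,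
        ∀ z, φ z = i.f z.1 + ∑ s : U, cell s (z.2 s) := by
      refine ⟨i.f ∘ₗ LinearMap.fst R _ _ +
        ∑ s : U, (cell s ∘ₗ LinearMap.proj s) ∘ₗ LinearMap.snd R _ _, fun z => ?_⟩
      simp [LinearMap.sum_apply]
    have hsurj : Function.Surjective φ := by
      intro z
      obtain ⟨y, t, x, rfl⟩ := hatt.surj z
      refine ⟨(y, fun s => if s ∈ t then x s else 0), ?_⟩
      rw [hφ]
      congr 1
      rw [← Finset.sum_subset (Finset.subset_univ t)]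
      · exact Finset.sum_congr rfl fun s hs => by simp [hs]
      · intro s _ hs
        simp [hs]
    obtain ⟨ψ, hψ⟩ : ∃ ψ : (∀ s : U, s.1.1.1.K) →ₗ[R] (A.Y × (∀ s : U, s.1.1.1.P)),
        ∀ z, ψ z = (-∑ s : U, s.1.2 (z s), fun s : U => (z s : s.1.1.1.P)) := by
      refine ⟨LinearMap.prod (-∑ s : U, s.1.2 ∘ₗ LinearMap.proj s)
        (LinearMap.pi fun s => s.1.1.1.K.subtype ∘ₗ LinearMap.proj s), fun z => ?_⟩
      refine Prod.ext ?_ ?_
      · simp [LinearMap.sum_apply]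
      · funext s
        rfl
    have hker : LinearMap.ker φ = LinearMap.range ψ := by
      apply le_antisymm
      · rintro ⟨y, x⟩ h
        rw [LinearMap.mem_ker, hφ] at h
        obtain ⟨z, h1, h2⟩ := hatt.ker y Finset.univ x h
        refine ⟨z, ?_⟩
        rw [hψ]
        refine Prod.ext ?_ ?_
        · show -∑ s : U, s.1.2 (z s) = y
          exact (eq_neg_of_add_eq_zero_left h2).symm
        · funext s
          exact h1 s (Finset.mem_univ s)
      · rintro _ ⟨z, rfl⟩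
        rw [LinearMap.mem_ker, hφ, hψ]
        show i.f (-∑ s : U, s.1.2 (z s)) + ∑ s : U, cell s (z s : s.1.1.1.P) = 0
        have h1 : ∀ s : U, cell s (z s : s.1.1.1.P) = i.f (s.1.2 (z s)) := fun s =>
          LinearMap.congr_fun (hatt.glue s) (z s)
        rw [Finset.sum_congr rfl fun s _ => h1 s, map_neg, map_sum]
        exact neg_add_cancel _
    refine Module.finitePresentation_of_surjective φ hsurj ?_
    rw [hker]
    exact Module.Finite.iff_fg.1 (Module.Finite.range ψ)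
  · -- lifting
    intro X Z _ _ _ _ g hg hCE f
    obtain ⟨e, he⟩ := hA.lp X Z g hg hCE (f ∘ₗ i.f)
    obtain ⟨f', h1, -⟩ := hrlp X Z g hg hCE f e he
    exact ⟨f', h1⟩
  · -- finitely many extensions
    have h1 := hA.dfin
    have h2 : Set.Finite (Set.range fun s : U => (⟨s.1.1, (i.f ∘ₗ s.1.2, cell s)⟩ :
        Σ c : 𝒞, (c.1.K →ₗ[R] B.Y) × (c.1.P →ₗ[R] B.Y))) := Set.finite_range _
    have h3 := h1.image (fun x : Σ c : 𝒞, (c.1.K →ₗ[R] A.Y) × (c.1.P →ₗ[R] A.Y) =>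
      (⟨x.1, (i.f ∘ₗ x.2.1, i.f ∘ₗ x.2.2)⟩ : Σ c : 𝒞, (c.1.K →ₗ[R] B.Y) × (c.1.P →ₗ[R] B.Y)))
    refine (h3.union h2).subset ?_
    rintro ⟨c, v, p⟩ hx
    rcases (hatt.D_iff c v p).1 hx with ⟨v', p', h4, rfl, rfl⟩ | ⟨v', h, rfl, rfl⟩
    · exact Or.inl ⟨⟨c, v', p'⟩, h4, rfl⟩
    · exact Or.inr ⟨⟨⟨c, v'⟩, h⟩, rfl⟩

end Pool.Agent.K6.H47.TL
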