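import Pool.Agent.K6.H47.TL.Stm

/-!
# Piece SUB: finitely generated submodules of a cell extension (helper71)
-/

set_option autoImplicit false
set_option linter.all false

universe u

namespace Pool.Agent.K6.H47.TL

namespace SUB

theorem exists_ext {α α' : Type*} {β : α → Type*} [∀ a, Zero (β a)] (φ : α' → α)
    (hφ : Function.Injective φ) (x : ∀ a', β (φ a')) : ∃ y : ∀ a, β a, ∀ a', y (φ a') = x a' := by
  classical
  refine ⟨fun a => if h : ∃ a', φ a' = a then h.choose_spec ▸ x h.choose else 0, fun a' => ?_⟩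
  have h : ∃ b, φ b = φ a' := ⟨a', rfl⟩
  show (if h : ∃ b, φ b = φ a' then h.choose_spec ▸ x h.choose else 0) = x a'
  rw [dif_pos h]
  have key : ∀ (b : α') (e : φ b = φ a'), (e ▸ x b : β (φ a')) = x a' := by
    intro b e
    obtain rfl := hφ e
    rfl
  exact key _ _

variable {R : Type u} [Ring R] {𝒞 : Set (Cell R)} {N : Type u} [AddCommGroup N] [Module R N]
  {b : Base 𝒞 N}

/-- The map of squares. -/
def phi {A S : PA b} (j : Hm S A) (s : Sq 𝒞 S.Y) : Sq 𝒞 A.Y := ⟨s.1, j.f ∘ₗ s.2⟩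

theorem phi_inj {A S : PA b} (j : Hm S A) (hj : Function.Injective j.f) :
    Function.Injective (phi j) := by
  rintro ⟨c, v⟩ ⟨c', v'⟩ h
  have h1 : c = c' := congrArg Sigma.fst h
  subst h1
  have h2 : j.f ∘ₗ v = j.f ∘ₗ v' := eq_of_heq (Sigma.mk.inj h).2
  have h3 : v = v' := by
    ext x
    exact hj (LinearMap.congr_fun h2 x)
  rw [h3]

theorem fg_range {M A : Type*} [AddCommGroup M] [Module R M] [AddCommGroup A] [Module R A]
    (K : Submodule R M) (hK : K.FG) (v : K →ₗ[R] A) : (LinearMap.range v).FG := by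
  haveI : Module.Finite R K := Module.Finite.iff_fg.2 hK
  rw [LinearMap.range_eq_map]
  exact Submodule.FG.map v Module.Finite.fg_top

theorem exists_factor {M A B : Type*} [AddCommGroup M] [Module R M] [AddCommGroup A] [Module R A]
    [AddCommGroup B] [Module R B] (j : A →ₗ[R] B) (hj : Function.Injective j) (v : M →ₗ[R] B)
    (h : LinearMap.range v ≤ LinearMap.range j) : ∃ v' : M →ₗ[R] A, j ∘ₗ v' = v := by
  refine ⟨(LinearEquiv.ofInjective j hj).symm.toLinearMap ∘ₗ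
    v.codRestrict (LinearMap.range j) (fun x => h (LinearMap.mem_range_self v x)), ?_⟩
  ext x
  have h1 := LinearEquiv.apply_symm_apply (LinearEquiv.ofInjective j hj)
    (v.codRestrict (LinearMap.range j) (fun x => h (LinearMap.mem_range_self v x)) x)
  have h2 := congrArg Subtype.val h1
  exact h2

end SUB

open SUB in
theorem t_SUB (h : S_ATT.{u}) : S_SUB.{u} := by
  intro R _ 𝒞 N _ _ b A B U i cell hA V hV
  classical
  obtain ⟨G, rfl⟩ := hV
  choose y t x hz using hA.surj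
  let T : Finset U := G.biUnion t
  let V₀ : Submodule R A.Y := Submodule.span R ((G.image y : Finset A.Y) : Set A.Y) ⊔
    ⨆ s ∈ T, LinearMap.range s.1.2
  refine ⟨V₀, ?_, ?_⟩
  · refine Submodule.FG.sup ⟨_, rfl⟩ (Submodule.fg_biSup T _ fun s _ => ?_)
    exact fg_range s.1.1.1.K s.1.1.1.fg s.1.2
  intro S j hj hV₀
  let U' : Set (Sq 𝒞 S.Y) := {s | ∃ hs : phi j s ∈ U, (⟨phi j s, hs⟩ : U) ∈ T}
  have hU'U : ∀ s ∈ U', phi j s ∈ U := fun s hs => hs.1
  have hfin : U'.Finite := by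
    have h1 : ((T.image (Subtype.val : U → Sq 𝒞 A.Y) : Finset (Sq 𝒞 A.Y)) : Set (Sq 𝒞 A.Y)).Finite :=
      Finset.finite_toSet _
    refine (h1.preimage ((phi_inj j hj).injOn)).subset ?_
    rintro s ⟨hs, hsT⟩
    exact Finset.mem_coe.2 (Finset.mem_image.2 ⟨_, hsT, rfl⟩)
  obtain ⟨S', i', cell', hS⟩ := h R 𝒞 N b S U' (fun s hs p hp =>
    hA.new _ (hU'U s hs) _ (j.pres _ _ _ hp))
  -- the map of the cells
  let φ : U' → U := fun s => ⟨phi j s.1, hU'U s.1 s.2⟩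
  have hφ : Function.Injective φ := fun s s' e =>
    Subtype.ext (phi_inj j hj (congrArg Subtype.val e))
  obtain ⟨j', hj1, hj2⟩ := hS.univ B.Y (i.f ∘ₗ j.f) (fun s => cell (φ s)) (fun s => by
    have h1 := hA.glue (φ s)
    exact h1)
  have hj1' : ∀ z, j' (i'.f z) = i.f (j.f z) := fun z => LinearMap.congr_fun hj1 z
  have hj2' : ∀ (s : U') (z : s.1.1.1.P), j' (cell' s z) = cell (φ s) z := fun s z =>
    LinearMap.congr_fun (hj2 s) z
  have hBi : ∀ z, B.π (i.f z) = A.π z := fun z => LinearMap.congr_fun i.ov z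
  have hAj : ∀ z, A.π (j.f z) = S.π z := fun z => LinearMap.congr_fun j.ov z
  have hSi : ∀ z, S'.π (i'.f z) = S.π z := fun z => LinearMap.congr_fun i'.ov z
  have hcells : ∀ s : U', B.π ∘ₗ cell (φ s) = S'.π ∘ₗ cell' s := by
    intro s
    have h1 := B.ov s.1.1 (i.f ∘ₗ (j.f ∘ₗ s.1.2)) (cell (φ s))
      ((hA.D_iff _ _ _).2 (Or.inr ⟨j.f ∘ₗ s.1.2, hU'U s.1 s.2, rfl, rfl⟩))
    have h2 := S'.ov s.1.1 (i'.f ∘ₗ s.1.2) (cell' s)
      ((hS.D_iff _ _ _).2 (Or.inr ⟨s.1.2, s.2, rfl, rfl⟩))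
    have h3 : B.π ∘ₗ (i.f ∘ₗ (j.f ∘ₗ s.1.2)) = S'.π ∘ₗ (i'.f ∘ₗ s.1.2) := by
      ext z
      show B.π (i.f (j.f (s.1.2 z))) = S'.π (i'.f (s.1.2 z))
      rw [hBi, hAj, hSi]
    exact h1.trans ((congrArg (b.ext s.1.1) h3).trans h2.symm)
  let J : Hm S' B :=
    { f := j'
      ov := by
        ext z
        obtain ⟨y, t, x, rfl⟩ := hS.surj z
        show B.π (j' _) = S'.π _
        simp only [map_add, map_sum, hj1', hj2', hBi, hAj, hSi]
        congr 1
        refine Finset.sum_congr rfl fun s _ => ?_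
        exact LinearMap.congr_fun (hcells s) (x s)
      pres := by
        intro c v p hp
        rcases (hS.D_iff c v p).1 hp with ⟨v', p', h1, rfl, rfl⟩ | ⟨v', h1, rfl, rfl⟩
        · refine (hA.D_iff _ _ _).2 (Or.inl ⟨j.f ∘ₗ v', j.f ∘ₗ p', j.pres _ _ _ h1, ?_, ?_⟩)
          · ext z
            exact hj1' _
          · ext z
            exact hj1' _
        · refine (hA.D_iff _ _ _).2 (Or.inr ⟨j.f ∘ₗ v', hU'U _ h1, ?_, ?_⟩)
          · ext z
            exact hj1' _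
          · exact hj2 ⟨⟨c, v'⟩, h1⟩ }
  refine ⟨U', S', i', cell', J, hfin, hS, ?_, hj1, ?_⟩
  · -- injective
    rw [injective_iff_map_eq_zero]
    intro z hz0
    obtain ⟨y', t', x', rfl⟩ := hS.surj z
    have h1 : i.f (j.f y') + ∑ s ∈ t', cell (φ s) (x' s) = 0 := by
      have h2 : j' (i'.f y' + ∑ s ∈ t', cell' s (x' s)) = 0 := hz0
      simpa only [map_add, map_sum, hj1', hj2'] using h2
    obtain ⟨x'', hx''⟩ := exists_ext (β := fun u : U => u.1.1.1.P) φ hφ x'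
    have h2 : i.f (j.f y') + ∑ s ∈ t'.map ⟨φ, hφ⟩, cell s (x'' s) = 0 := by
      rw [Finset.sum_map, ← h1]
      congr 1
      refine Finset.sum_congr rfl fun s _ => ?_
      exact congrArg (cell (φ s)) (hx'' s)
    obtain ⟨z, hz1, hz2⟩ := hA.ker _ _ _ h2
    rw [Finset.sum_map] at hz2
    have h3 : j.f (y' + ∑ s ∈ t', s.1.2 (z (φ s))) = 0 := by
      rw [map_add, map_sum]
      exact hz2
    have h4 : y' + ∑ s ∈ t', s.1.2 (z (φ s)) = 0 := hj (by rw [h3, map_zero])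
    have h5 : ∀ s ∈ t', cell' s (x' s) = i'.f (s.1.2 (z (φ s))) := by
      intro s hs
      have h6 := LinearMap.congr_fun (hS.glue s) (z (φ s))
      have h7 := hz1 (φ s) (Finset.mem_map_of_mem ⟨φ, hφ⟩ hs)
      rw [hx'' s] at h7
      rw [← h7]
      exact h6
    rw [Finset.sum_congr rfl h5, ← map_sum, ← map_add, h4, map_zero]
  · -- the generators
    rw [Submodule.span_le]
    intro g hg
    rw [SetLike.mem_coe, hz g]
    refine add_mem ?_ (sum_mem fun s hs => ?_)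
    · have h1 : y g ∈ V₀ := Submodule.mem_sup_left (Submodule.subset_span
        (Finset.mem_coe.2 (Finset.mem_image_of_mem y (Finset.mem_coe.1 hg))))
      obtain ⟨y₀, hy₀⟩ := hV₀ h1
      exact ⟨i'.f y₀, by rw [← hy₀]; exact hj1' y₀⟩
    · have hsT : s ∈ T := Finset.mem_biUnion.2 ⟨g, Finset.mem_coe.1 hg, hs⟩
      have h1 : LinearMap.range s.1.2 ≤ LinearMap.range j.f :=
        le_trans (le_trans (le_biSup (fun s : U => LinearMap.range s.1.2) hsT) le_sup_right) hV₀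
      obtain ⟨v', hv'⟩ := exists_factor j.f hj s.1.2 h1
      have key : ∀ (c : 𝒞) (v : c.1.K →ₗ[R] A.Y) (hs0 : (⟨c, v⟩ : Sq 𝒞 A.Y) ∈ U)
          (_ : (⟨⟨c, v⟩, hs0⟩ : U) ∈ T) (v' : c.1.K →ₗ[R] S.Y), j.f ∘ₗ v' = v →
          ∃ s' : U', φ s' = ⟨⟨c, v⟩, hs0⟩ := by
        intro c v hs0 hsT v' hv'
        subst hv'
        exact ⟨⟨⟨c, v'⟩, hs0, hsT⟩, rfl⟩
      have h2 : ∃ s' : U', φ s' = s := key s.1.1 s.1.2 s.2 hsT v' hv'
      obtain ⟨s', rfl⟩ := h2
      exact ⟨cell' s' (x g (φ s')), hj2' s' _⟩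

end Pool.Agent.K6.H47.TL
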