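import Pool.Agent.K6.H47.TL.Asm
import Pool.Agent.K6.H47.TL.Conv
import Pool.Agent.K6.H47.TL.ATT
import Pool.Agent.K6.H47.TL.PHOM
import Pool.Agent.K6.H47.TL.PRLA
import Pool.Agent.K6.H47.TL.PSMA
import Pool.Agent.K6.H47.TL.PSUB
import Pool.Agent.K6.H47.TL.PLIM
import Pool.Agent.K6.H47.TL.PKIL
import Pool.Agent.K6.H47.TL.PPOS
import Pool.Agent.K6.H47.TL.PEX0
import Pool.Agent.K6.H47.TL.PEXS
import Pool.Agent.K6.H47.TL.PEXF
import Pool.Agent.K6.H47.TL.PEXA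
import Pool.Agent.K6.H47.TL.PCEL
import Pool.Agent.K6.H47.TL.PADD
import Pool.Agent.K6.H47.TL.PLLT

/-!
# Pure epimorphic images of `T^(X)` are direct limits of modules in `Add T`
-/

set_option autoImplicit false

universe u

namespace Pool.Agent.K6.H47.TL

theorem ex_all : S_EX.{u} := fun _ _ _ _ _ _ _ A =>
  Ex.ex t_ATT t_HOM t_RLA t_SMA (t_SUB t_ATT) t_LIM A

theorem final (R : Type u) [Ring R] (n : ℕ) (T : Type u) [AddCommGroup T] [Module R T]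
    (hT : Tilting R n T) (hF : FiniteType R T) (X N : Type u) [AddCommGroup N] [Module R N]
    (g : (X →₀ T) →ₗ[R] N) (hg : Function.Surjective g)
    (hp : ∀ (F : Type u) [AddCommGroup F] [Module R F] [Module.FinitePresentation R F]
      (f : F →ₗ[R] N), ∃ f' : F →ₗ[R] (X →₀ T), g ∘ₗ f' = f) :
    ∃ (ι : Type u) (_ : Preorder ι) (_ : IsDirectedOrder ι) (_ : Nonempty ι) (_ : DecidableEq ι)
      (G : ι → Type u) (_ : ∀ i, AddCommGroup (G i)) (_ : ∀ i, Module R (G i))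
      (f : ∀ i j, i ≤ j → G i →ₗ[R] G j) (_ : DirectedSystem G fun i j h => f i j h),
      (∀ i, AddT R T (G i)) ∧ Nonempty (Module.DirectLimit G f ≃ₗ[R] N) := by
  obtain ⟨𝒞, hfp, hCE⟩ := t_CEL t_EX0 R T hF
  obtain ⟨hLP, hADD⟩ := t_ADD t_EX0 (t_EXS t_EX0) (t_EXF t_EX0) (t_EXA t_EX0) R T n hT 𝒞 hCE
  have h1 : CE 𝒞 T := by
    have h2 : CE 𝒞 (PUnit.{u+1} →₀ T) := (hCE _).1 fun i => hT.ext i _
    intro c hc v
    obtain ⟨p, hp'⟩ := h2 c hc (Finsupp.lsingle PUnit.unit ∘ₗ v)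
    refine ⟨Finsupp.lapply PUnit.unit ∘ₗ p, ?_⟩
    rw [LinearMap.comp_assoc, hp']
    ext x
    simp
  have h3 : LL 𝒞 T := Asm.llT ex_all h1 hLP
  obtain ⟨h4, h5⟩ := t_LLT R 𝒞 hfp T h1 h3 X N g hg hp
  obtain ⟨ι, i1, i2, i3, i4, G, i5, i6, f, i7, h6, h7⟩ :=
    Asm.main ex_all t_KIL (t_POS t_KIL) h4 h5
  exact ⟨ι, i1, i2, i3, i4, G, i5, i6, f, i7, fun i => hADD (G i) (h6 i).1 (h6 i).2, h7⟩

end Pool.Agent.K6.H47.TL
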