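import Mathlib
import Pool.Agent.K6.H47.TL.Stm

/-!
# Piece EXA: the functor `Ext` and `Add T`
-/

set_option autoImplicit false

universe u

namespace Pool.Agent.K6.H47.TL

namespace EXA

variable {R : Type u} [Ring R]

/-- the map of first syzygies -/
noncomputable def omMap {A B : Type u} [AddCommGroup A] [Module R A] [AddCommGroup B] [Module R B]
    (f : A →ₗ[R] B) : Om R A →ₗ[R] Om R B :=
  ((Finsupp.lmapDomain R R f).comp (LinearMap.ker (Finsupp.linearCombination R
    (id : A → A))).subtype).codRestrict _ (by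
      rintro ⟨z, hz⟩
      rw [LinearMap.mem_ker] at hz ⊢
      show Finsupp.linearCombination R id (Finsupp.mapDomain f z) = 0
      rw [Finsupp.linearCombination_mapDomain]
      have h1 : Finsupp.linearCombination R (id ∘ (f : A → B)) z =
          f (Finsupp.linearCombination R (id : A → A) z) := by
        rw [Finsupp.linearCombination_apply, Finsupp.linearCombination_apply, Finsupp.sum,
          Finsupp.sum, map_sum]
        exact Finset.sum_congr rfl fun a _ => by rw [map_smul]; rfl
      rw [h1, hz, map_zero])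

lemma omMap_val {A B : Type u} [AddCommGroup A] [Module R A] [AddCommGroup B] [Module R B]
    (f : A →ₗ[R] B) (z : Om R A) : ((omMap f z : Om R B) : B →₀ R) =
      Finsupp.mapDomain f (z : A →₀ R) := rfl

/-- retracts -/
lemma retract {N : Type u} [AddCommGroup N] [Module R N] (i : ℕ) :
    ∀ (A M : Type u) [AddCommGroup A] [Module R A] [AddCommGroup M] [Module R M]
      (j : M →ₗ[R] A) (p : A →ₗ[R] M), p ∘ₗ j = LinearMap.id → ExtZ R i A N → ExtZ R i M N := by
  induction i with
  | zero =>
    intro A M _ _ _ _ j p hpj hA v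
    obtain ⟨g, hg⟩ := hA (v ∘ₗ omMap p)
    refine ⟨g ∘ₗ Finsupp.lmapDomain R R j, ?_⟩
    ext z
    have h1 := LinearMap.congr_fun hg (omMap j z)
    show g (Finsupp.mapDomain j (z : M →₀ R)) = v z
    have h2 : g (Finsupp.mapDomain j (z : M →₀ R)) = v (omMap p (omMap j z)) := h1
    rw [h2]
    congr 1
    apply Subtype.ext
    rw [omMap_val, omMap_val, ← Finsupp.mapDomain_comp]
    have h3 : ((p : A → M) ∘ (j : M → A)) = id := by
      funext x
      exact LinearMap.congr_fun hpj x
    rw [h3, Finsupp.mapDomain_id]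
  | succ i ih =>
    intro A M _ _ _ _ j p hpj hA
    refine ih (Om R A) (Om R M) (omMap j) (omMap p) ?_ hA
    ext z : 1
    apply Subtype.ext
    show ((omMap p (omMap j z) : Om R M) : M →₀ R) = z
    rw [omMap_val, omMap_val, ← Finsupp.mapDomain_comp]
    have h3 : ((p : A → M) ∘ (j : M → A)) = id := by
      funext x
      exact LinearMap.congr_fun hpj x
    rw [h3, Finsupp.mapDomain_id]

section sums

variable {K P T N : Type u} [AddCommGroup K] [Module R K] [AddCommGroup P] [Module R P]
  [AddCommGroup T] [Module R T] [AddCommGroup N] [Module R N]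

/-- the presentation of a direct sum -/
noncomputable abbrev pres (X : Type u) (q : P →ₗ[R] T) : (X →₀ P) →ₗ[R] (X →₀ T) :=
  Finsupp.mapRange.linearMap q

lemma pres_surj (X : Type u) (q : P →ₗ[R] T) (hq : Function.Surjective q) :
    Function.Surjective (pres X q) :=
  Finsupp.mapRange_surjective _ (map_zero _) hq

lemma mem_pres (X : Type u) (q : P →ₗ[R] T) (z : X →₀ P) :
    z ∈ LinearMap.ker (pres X q) ↔ ∀ x, q (z x) = 0 := by
  rw [LinearMap.mem_ker, DFunLike.ext_iff]
  exact forall_congr' fun x => Iff.rfl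

/-- the direct sum of the syzygies -/
noncomputable def toKer (X : Type u) (q : P →ₗ[R] T) (s : K →ₗ[R] P) (hs : ∀ k, q (s k) = 0) :
    (X →₀ K) →ₗ[R] LinearMap.ker (pres X q) :=
  (Finsupp.mapRange.linearMap s).codRestrict _ (by
      intro z
      rw [mem_pres]
      intro x
      exact hs (z x))

lemma toKer_bij (X : Type u) (q : P →ₗ[R] T) (s : K →ₗ[R] P) (hs : ∀ k, q (s k) = 0)
    (hinj : Function.Injective s) (hex : ∀ z, q z = 0 → ∃ k, s k = z) :
    Function.Bijective (toKer X q s hs) := by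
  classical
  constructor
  · intro z z' h
    have h1 : ∀ x, s (z x) = s (z' x) := fun x =>
      DFunLike.congr_fun (congrArg Subtype.val h) x
    ext x : 1
    exact hinj (h1 x)
  · rintro ⟨z, hz⟩
    have hz' := (mem_pres X q z).1 hz
    choose k hk using fun x => hex (z x) (hz' x)
    refine ⟨Finsupp.onFinset z.support k ?_, ?_⟩
    · intro x hx
      rw [Finsupp.mem_support_iff]
      intro h0
      apply hx
      apply hinj
      rw [hk, h0, map_zero]
    · apply Subtype.ext
      ext x : 1
      exact hk x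

lemma step (h : S_EX0.{u}) [Module.Free R P] (X : Type u) (q : P →ₗ[R] T)
    (hq : Function.Surjective q) (s : K →ₗ[R] P) (hs : ∀ k, q (s k) = 0)
    (hinj : Function.Injective s) (hex : ∀ z, q z = 0 → ∃ k, s k = z) (i : ℕ)
    (hK : ExtZ R i (X →₀ K) N) : ExtZ R (i + 1) (X →₀ T) N := by
  rw [(h R (X →₀ P) (X →₀ T) N (pres X q) (pres_surj X q hq)).2]
  let e := LinearEquiv.ofBijective (toKer X q s hs) (toKer_bij X q s hs hinj hex)
  exact retract i _ _ e.symm.toLinearMap e.toLinearMap
    (LinearMap.ext fun z => e.apply_symm_apply z) hK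

lemma zero_case (h : S_EX0.{u}) [Module.Free R P] (X : Type u) (q : P →ₗ[R] T)
    (hq : Function.Surjective q) (s : K →ₗ[R] P) (hs : ∀ k, q (s k) = 0)
    (hex : ∀ z, q z = 0 → ∃ k, s k = z)
    (hK : ∀ v : K →ₗ[R] N, ∃ g : P →ₗ[R] N, g ∘ₗ s = v) : ExtZ R 0 (X →₀ T) N := by
  classical
  rw [(h R (X →₀ P) (X →₀ T) N (pres X q) (pres_surj X q hq)).1]
  intro v
  have hsingle : ∀ (x : X) (k : K), Finsupp.single x (s k) ∈ LinearMap.ker (pres X q) := by
    intro x z
    rw [mem_pres]
    intro y
    by_cases hxy : x = y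
    · subst hxy
      rw [Finsupp.single_eq_same]
      exact hs z
    · rw [Finsupp.single_eq_of_ne (Ne.symm hxy), map_zero]
  have hex' : ∀ x : X, ∃ g : P →ₗ[R] N, ∀ z : K,
      g (s z) = v ⟨Finsupp.single x (s z), hsingle x z⟩ := by
    intro x
    let vx : K →ₗ[R] N := v ∘ₗ ((Finsupp.lsingle x).comp s).codRestrict _ (hsingle x)
    obtain ⟨g, hg⟩ := hK vx
    exact ⟨g, fun z => LinearMap.congr_fun hg z⟩
  choose g hg using hex'
  refine ⟨Finsupp.lsum ℕ g, ?_⟩
  ext z
  obtain ⟨z, hz⟩ := z
  have hz' := (mem_pres X q z).1 hz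
  choose k hk using fun x => hex (z x) (hz' x)
  show Finsupp.lsum ℕ g z = v ⟨z, hz⟩
  have h1 : (⟨z, hz⟩ : LinearMap.ker (pres X q)) =
      ∑ x ∈ z.support, ⟨Finsupp.single x (s (k x)), hsingle x (k x)⟩ := by
    apply Subtype.ext
    rw [AddSubmonoidClass.coe_finsetSum]
    simp only [hk]
    exact (Finsupp.sum_single z).symm
  rw [h1, map_sum]
  show z.sum (fun x => g x) = _
  rw [Finsupp.sum]
  refine Finset.sum_congr rfl fun x _ => ?_
  rw [← hg x (k x), hk]

end sums

lemma sum_case (h : S_EX0.{u}) {N : Type u} [AddCommGroup N] [Module R N] (X : Type u) (i : ℕ) :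
    ∀ (T : Type u) [AddCommGroup T] [Module R T], ExtZ R i T N → ExtZ R i (X →₀ T) N := by
  induction i with
  | zero =>
    intro T _ _ hT
    exact zero_case (K := Om R T) (P := T →₀ R) (T := T) h X (Finsupp.linearCombination R (id : T → T))
      (fun t => ⟨Finsupp.single t 1, by simp⟩)
      (LinearMap.ker (Finsupp.linearCombination R (id : T → T))).subtype (fun k => LinearMap.mem_ker.1 k.2)
      (fun z hz => ⟨⟨z, hz⟩, rfl⟩) hT
  | succ i ih =>
    intro T _ _ hT
    exact step (K := Om R T) (P := T →₀ R) (T := T) h X (Finsupp.linearCombination R (id : T → T))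
      (fun t => ⟨Finsupp.single t 1, by simp⟩)
      (LinearMap.ker (Finsupp.linearCombination R (id : T → T))).subtype (fun k => LinearMap.mem_ker.1 k.2)
      Subtype.val_injective (fun z hz => ⟨⟨z, hz⟩, rfl⟩) i (ih (Om R T) hT)

end EXA

theorem t_EXA (h : S_EX0.{u}) : S_EXA.{u} := by
  intro R _ T M N _ _ _ _ _ _ hM i hT
  obtain ⟨X, j, p, hpj⟩ := hM
  exact EXA.retract i _ _ j p hpj (EXA.sum_case h X i T hT)

end Pool.Agent.K6.H47.TL
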