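import Pool.Agent.K6.H47.TL.Ex

/-!
# Assembly: direct limits of modules with both properties
-/

set_option autoImplicit false

universe u

namespace Pool.Agent.K6.H47.TL

/-- EX -/
def S_EX : Prop :=
  ∀ (R : Type u) [Ring R] (𝒞 : Set (Cell R)) (N : Type u) [AddCommGroup N] [Module R N]
    (b : Base 𝒞 N) (A : PA b), ∃ (E : PA b) (e : Hm A E), E.Total ∧ RLP e ∧ Unv e ∧ FSC e ∧
      (LocSmall A → LocSmall E)

namespace Asm

variable {R : Type u} [Ring R] {𝒞 : Set (Cell R)}

open Classical in
theorem base_exists {N : Type u} [AddCommGroup N] [Module R N] (h : CE 𝒞 N) :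
    Nonempty (Base 𝒞 N) := by
  choose p hp using fun (c : 𝒞) (v : c.1.K →ₗ[R] N) => h c.1 c.2 v
  refine ⟨⟨fun c v => if v = 0 then 0 else p c v, ?_, ?_⟩⟩
  · intro c v
    by_cases hv : v = 0
    · simp only [hv, if_true, LinearMap.zero_comp]
    · simp only [hv, if_false, hp]
  · intro c
    simp

theorem total_ce {N : Type u} [AddCommGroup N] [Module R N] {b : Base 𝒞 N} {E : PA b}
    (hE : E.Total) : CE 𝒞 E.Y := by
  intro c hc v
  obtain ⟨p, hp⟩ := hE ⟨c, hc⟩ v
  exact ⟨p, E.ext _ _ _ hp⟩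

theorem total_ker {N : Type u} [AddCommGroup N] [Module R N] {b : Base 𝒞 N} {E : PA b}
    (hE : E.Total) : CE 𝒞 (LinearMap.ker E.π) := by
  intro c hc v
  obtain ⟨p, hp⟩ := hE ⟨c, hc⟩ ((LinearMap.ker E.π).subtype ∘ₗ v)
  have h1 := E.ov _ _ _ hp
  have h2 : E.π ∘ₗ ((LinearMap.ker E.π).subtype ∘ₗ v) = 0 := by
    ext x
    simp
  rw [h2, b.zero] at h1
  refine ⟨p.codRestrict _ fun x => ?_, ?_⟩
  · exact LinearMap.congr_fun h1 x
  · refine LinearMap.ext fun x => Subtype.ext ?_
    exact LinearMap.congr_fun (E.ext _ _ _ hp) x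

theorem lp_free (X : Type u) : LP 𝒞 (X →₀ R) := by
  intro A Z _ _ _ _ g hg _ f
  exact Module.projective_lifting_property g f hg

/-- the free module on the elements as a partial algebra -/
noncomputable def fr {T : Type u} [AddCommGroup T] [Module R T] (b : Base 𝒞 T) (X : Set T) :
    PA b where
  Y := X →₀ R
  π := Finsupp.linearCombination R (fun x : X => (x : T))
  D := fun _ _ _ => False
  ext := fun _ _ _ h => h.elim
  ov := fun _ _ _ h => h.elim
  uniq := fun _ _ _ _ h => h.elim

/-- inclusion -/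
noncomputable def frh {T : Type u} [AddCommGroup T] [Module R T] (b : Base 𝒞 T) {X X' : Set T}
    (h : X ⊆ X') : Hm (fr b X) (fr b X') where
  f := Finsupp.lmapDomain R R (Set.inclusion h)
  ov := by
    change Finsupp.linearCombination R (fun x : X' => (x : T)) ∘ₗ
      Finsupp.lmapDomain R R (Set.inclusion h) = Finsupp.linearCombination R (fun x : X => (x : T))
    ext x
    simp
  pres := fun _ _ _ h => h.elim

theorem fr_small {T : Type u} [AddCommGroup T] [Module R T] (b : Base 𝒞 T) (X : Set T)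
    (hX : X.Finite) : (fr b X).Small := by
  have : Finite X := hX
  refine ⟨?_, lp_free X, ?_⟩
  · change Module.FinitePresentation R (X →₀ R)
    exact Module.finitePresentation_of_projective R (X →₀ R)
  · have : {x : Σ c : 𝒞, (c.1.K →ₗ[R] (fr b X).Y) × (c.1.P →ₗ[R] (fr b X).Y) |
        (fr b X).D x.1 x.2.1 x.2.2} = ∅ := by
      ext x
      simp only [Set.mem_ofPred_eq, Set.mem_empty_iff_false, iff_false]
      exact id
    unfold PA.DFin
    rw [this]
    exact Set.finite_empty

theorem fr_loc {T : Type u} [AddCommGroup T] [Module R T] (b : Base 𝒞 T) :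
    LocSmall (fr b (Set.univ : Set T)) := by
  classical
  intro V hV
  obtain ⟨s, rfl⟩ := hV
  let F : Set (Set.univ : Set T) := ⋃ x ∈ s, ((x : (Set.univ : Set T) →₀ R).support : Set _)
  have hF : F.Finite := Set.Finite.biUnion s.finite_toSet fun x _ => x.support.finite_toSet
  let X : Set T := Subtype.val '' F
  have hX : X.Finite := hF.image _
  refine ⟨fr b X, frh b (Set.subset_univ X), fr_small b X hX, ?_, ?_⟩
  · exact Finsupp.mapDomain_injective (Set.inclusion_injective _)
  · rw [Submodule.span_le]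
    intro x hx
    refine ⟨Finsupp.comapDomain (Set.inclusion (Set.subset_univ X)) x
      (Set.inclusion_injective _).injOn, ?_⟩
    refine Finsupp.mapDomain_comapDomain (Set.inclusion (Set.subset_univ X))
      (Set.inclusion_injective _) x ?_
    intro y hy
    refine ⟨⟨y.1, ⟨y, ?_, rfl⟩⟩, ?_⟩
    · exact Set.mem_biUnion hx hy
    · rfl

/-- maps from finitely presented modules to `T` factor through small modules -/
theorem llT (hEX : S_EX.{u}) {T : Type u} [AddCommGroup T] [Module R T] (h1 : CE 𝒞 T)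
    (h2 : LP 𝒞 T) : LL 𝒞 T := by
  obtain ⟨b⟩ := base_exists h1
  obtain ⟨E, e, hT, _, _, _, hloc⟩ := hEX R 𝒞 T b (fr b Set.univ)
  have hsurj : Function.Surjective E.π := by
    intro t
    refine ⟨e.f (Finsupp.single ⟨t, Set.mem_univ t⟩ 1), ?_⟩
    have h3 := LinearMap.congr_fun e.ov (Finsupp.single ⟨t, Set.mem_univ t⟩ 1)
    have h4 : (fr b (Set.univ : Set T)).π (Finsupp.single ⟨t, Set.mem_univ t⟩ 1) = t := by
      change Finsupp.linearCombination R (fun x : (Set.univ : Set T) => (x : T)) _ = t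
      rw [Finsupp.linearCombination_single, one_smul]
    exact h3.trans h4
  obtain ⟨s, hs⟩ := h2 E.Y T E.π hsurj (total_ker hT) LinearMap.id
  intro F _ _ _ f
  have hfg : (LinearMap.range (s ∘ₗ f)).FG := by
    haveI : Module.Finite R F := inferInstance
    exact Module.Finite.iff_fg.1 (Module.Finite.range (s ∘ₗ f))
  obtain ⟨S, j, hS, hj, hV⟩ := hloc (fr_loc b) _ hfg
  have hlift : ∀ x : F, ∃ y : S.Y, j.f y = s (f x) := fun x => hV ⟨x, rfl⟩
  choose y hy using hlift
  let g : F →ₗ[R] S.Y :=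
    { toFun := y
      map_add' := by
        intro a c
        apply hj
        rw [map_add, hy, hy, hy, map_add, map_add]
      map_smul' := by
        intro r a
        apply hj
        rw [RingHom.id_apply, map_smul, hy, hy, map_smul, map_smul] }
  refine ⟨S.Y, inferInstance, inferInstance, hS.fp, hS.lp, g, S.π, ?_⟩
  ext x
  have h5 : S.π (y x) = E.π (j.f (y x)) := (LinearMap.congr_fun j.ov (y x)).symm
  change S.π (y x) = f x
  rw [h5, hy]
  exact LinearMap.congr_fun hs (f x)

/-- the main theorem for cells -/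
theorem main (hEX : S_EX.{u}) (hKIL : S_KIL.{u}) (hPOS : S_POS.{u}) {N : Type u} [AddCommGroup N]
    [Module R N] (h1 : CE 𝒞 N) (h2 : LL 𝒞 N) :
    ∃ (ι : Type u) (_ : Preorder ι) (_ : IsDirectedOrder ι) (_ : Nonempty ι) (_ : DecidableEq ι)
      (G : ι → Type u) (_ : ∀ i, AddCommGroup (G i)) (_ : ∀ i, Module R (G i))
      (f : ∀ i j, i ≤ j → G i →ₗ[R] G j) (_ : DirectedSystem G fun i j h => f i j h),
      (∀ i, CE 𝒞 (G i) ∧ LP 𝒞 (G i)) ∧ Nonempty (Module.DirectLimit G f ≃ₗ[R] N) := by
  classical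
  obtain ⟨b⟩ := base_exists h1
  obtain ⟨ι, _, hdir, hne, A, h, hsm, hid, hcomp, hsur, hfin⟩ := hPOS R 𝒞 N b h2
  choose E e hT hR hU hF _ using fun i => hEX R 𝒞 N b (A i)
  -- transition maps
  have htr : ∀ i j (hij : i ≤ j), ∃ t : Hm (E i) (E j), t.f ∘ₗ (e i).f = (e j).f ∘ₗ (h i j hij).f :=
    fun i j hij => (hU i (E j) (hT j) ((e j).comp (h i j hij))).exists
  choose t ht using htr
  have htid : ∀ i, (t i i le_rfl).f = LinearMap.id := by
    intro i
    have : t i i le_rfl = Hm.id (E i) := by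
      apply Ex.Unv.uniq (hU i) (hT i)
      rw [ht, hid]
      rfl
    rw [this]
    rfl
  have htc : ∀ i j k (hij : i ≤ j) (hjk : j ≤ k),
      (t j k hjk).f ∘ₗ (t i j hij).f = (t i k (hij.trans hjk)).f := by
    intro i j k hij hjk
    have : (t j k hjk).comp (t i j hij) = t i k (hij.trans hjk) := by
      apply Ex.Unv.uniq (hU i) (hT k)
      change ((t j k hjk).f ∘ₗ (t i j hij).f) ∘ₗ (e i).f = _
      rw [LinearMap.comp_assoc, ht, ← LinearMap.comp_assoc, ht, LinearMap.comp_assoc, hcomp, ht]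
    exact congrArg Hm.f this
  haveI hDS : DirectedSystem (fun i => (E i).Y) fun i j hij => (t i j hij).f :=
    { map_self := fun i x => by rw [htid]; rfl
      map_map := fun k j i hij hjk x => by
        rw [← htc _ _ _ hij hjk]; rfl }
  refine ⟨ι, inferInstance, hdir, hne, Classical.decEq ι, fun i => (E i).Y, fun i => inferInstance,
    fun i => inferInstance, fun i j hij => (t i j hij).f, hDS, ?_, ?_⟩
  · intro i
    refine ⟨total_ce (hT i), ?_⟩
    intro X Z _ _ _ _ g hg hCE f
    obtain ⟨l, hl⟩ := (hsm i).lp X Z g hg hCE (f ∘ₗ (e i).f)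
    obtain ⟨f', hf', _⟩ := hR i X Z g hg hCE f l hl
    exact ⟨f', hf'⟩
  · let Φ : Module.DirectLimit (fun i => (E i).Y) (fun i j hij => (t i j hij).f) →ₗ[R] N :=
      Module.DirectLimit.lift R ι (fun i => (E i).Y) (fun i j hij => (t i j hij).f)
        (fun i => (E i).π) fun i j hij x => LinearMap.congr_fun (t i j hij).ov x
    have hΦ : ∀ i x, Φ (Module.DirectLimit.of R ι (fun i => (E i).Y)
        (fun i j hij => (t i j hij).f) i x) = (E i).π x := fun i x =>
      Module.DirectLimit.lift_of _ _ _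
    refine ⟨LinearEquiv.ofBijective Φ ⟨?_, ?_⟩⟩
    · rw [← LinearMap.ker_eq_bot, LinearMap.ker_eq_bot']
      intro z hz
      obtain ⟨i, x, rfl⟩ := Module.DirectLimit.exists_of z
      rw [hΦ] at hz
      -- x lies in a finite extension
      obtain ⟨S, h', j', hjh, hji, hV, hSm, hUn⟩ := hF i (Submodule.span R {x})
        (Submodule.fg_span_singleton x)
      obtain ⟨s, hs⟩ := hV (Submodule.mem_span_singleton_self x)
      have hSs : S.Small := hSm (hsm i)
      haveI := hSs.fp
      have hsπ : S.π s = 0 := by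
        have h3 := LinearMap.congr_fun j'.ov s
        rw [← h3]
        change (E i).π (j'.f s) = 0
        rw [hs, hz]
      obtain ⟨B, hB, hBs, hBπ, hBD, hBk⟩ := hKIL R 𝒞 N b h2 S.Y S.π
        {x | S.D x.1 x.2.1 x.2.2} hSs.dfin (fun x hx => S.ext _ _ _ hx)
        (fun x hx => S.ov _ _ _ hx) (Submodule.span R {s}) (Submodule.fg_span_singleton s)
        (by rw [Submodule.span_singleton_le_iff_mem]; exact hsπ)
      let hB' : Hm S B :=
        { f := hB
          ov := hBπ
          pres := fun c v p hp => hBD ⟨c, (v, p)⟩ hp }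
      obtain ⟨j, hij, g', hg'⟩ := hfin i B hBs (hB'.comp h')
      have heq : (t i j hij).comp j' = (e j).comp (g'.comp hB') := by
        apply Ex.Unv.uniq hUn (hT j)
        change ((t i j hij).f ∘ₗ j'.f) ∘ₗ h'.f = ((e j).f ∘ₗ (g'.f ∘ₗ hB)) ∘ₗ h'.f
        rw [LinearMap.comp_assoc, hjh, ht, ← hg']
        rfl
      have hx0 : (t i j hij).f x = 0 := by
        rw [← hs]
        have h4 := LinearMap.congr_fun (congrArg Hm.f heq) s
        change (t i j hij).f (j'.f s) = (e j).f (g'.f (hB s)) at h4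
        have h5 : hB s = 0 := hBk (Submodule.mem_span_singleton_self s)
        rw [h4, h5, map_zero, map_zero]
      rw [← Module.DirectLimit.of_f (hij := hij), hx0, map_zero]
    · intro x
      obtain ⟨i, y, hy⟩ := hsur x
      refine ⟨Module.DirectLimit.of R ι (fun i => (E i).Y)
        (fun i j hij => (t i j hij).f) i ((e i).f y), ?_⟩
      rw [hΦ]
      exact (LinearMap.congr_fun (e i).ov y).trans hy

end Asm

end Pool.Agent.K6.H47.TL
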