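import Pool.Agent.K6.H47.TL.Stm

/-!
# Free completions of partial algebras
-/

set_option autoImplicit false

universe u

namespace Pool.Agent.K6.H47.TL

namespace Ex

variable {R : Type u} [Ring R] {𝒞 : Set (Cell R)} {N : Type u} [AddCommGroup N] [Module R N]
  {b : Base 𝒞 N}

theorem Hm.ext' {A B : PA b} {g h : Hm A B} (e : g.f = h.f) : g = h := by
  cases g; cases h; cases e; rfl

/-- uniqueness part of `Unv` -/
theorem Unv.uniq {A B : PA b} {i : Hm A B} (hi : Unv i) {Z : PA b} (hZ : Z.Total) {g h : Hm B Z}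
    (e : g.f ∘ₗ i.f = h.f ∘ₗ i.f) : g = h := by
  obtain ⟨k, _, hk⟩ := hi Z hZ (h.comp i)
  rw [hk g e, hk h rfl]

theorem Unv.comp {A B C : PA b} {i : Hm A B} {j : Hm B C} (hi : Unv i) (hj : Unv j) :
    Unv (j.comp i) := by
  intro Z hZ g
  obtain ⟨h, hh, _⟩ := hi Z hZ g
  obtain ⟨k, hk, _⟩ := hj Z hZ h
  refine ⟨k, ?_, ?_⟩
  · change k.f ∘ₗ (j.f ∘ₗ i.f) = g.f
    rw [← LinearMap.comp_assoc, hk, hh]
  · intro k' hk'
    apply Unv.uniq hj hZ
    have h1 : (k'.comp j) = h := by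
      apply Unv.uniq hi hZ
      change (k'.f ∘ₗ j.f) ∘ₗ i.f = h.f ∘ₗ i.f
      rw [LinearMap.comp_assoc, hh]
      exact hk'
    have h2 : k'.f ∘ₗ j.f = h.f := congrArg Hm.f h1
    rw [h2, hk]

theorem Unv.id (A : PA b) : Unv (Hm.id A) := by
  intro Z _ g
  exact ⟨g, rfl, fun y hy => Ex.Hm.ext' hy⟩

section seq

variable (hATT : S_ATT.{u})

/-- the set of maps without chosen extension -/
def UU (A : PA b) : Set (Sq 𝒞 A.Y) := {s | ∀ p, ¬ A.D s.1 s.2 p}

include hATT in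
theorem ex_step (A : PA b) : ∃ (B : PA b) (i : Hm A B) (cell : ∀ s : UU A, s.1.1.1.P →ₗ[R] B.Y),
    IsAtt A B (UU A) i cell :=
  hATT R 𝒞 N b A (UU A) fun _ hs => hs

/-- one step -/
noncomputable def nxt (A : PA b) : PA b := (ex_step hATT A).choose

/-- one step, map -/
noncomputable def nxi (A : PA b) : Hm A (nxt hATT A) := (ex_step hATT A).choose_spec.choose

/-- one step, cells -/
noncomputable def nxc (A : PA b) : ∀ s : UU A, s.1.1.1.P →ₗ[R] (nxt hATT A).Y :=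
  (ex_step hATT A).choose_spec.choose_spec.choose

theorem nx_att (A : PA b) : IsAtt A (nxt hATT A) (UU A) (nxi hATT A) (nxc hATT A) :=
  (ex_step hATT A).choose_spec.choose_spec.choose_spec

/-- the sequence -/
noncomputable def sq (A : PA b) : ℕ → PA b
  | 0 => A
  | n + 1 => nxt hATT (sq A n)

/-- the maps of the sequence -/
noncomputable def si (A : PA b) (n : ℕ) : Hm (sq hATT A n) (sq hATT A (n + 1)) :=
  nxi hATT (sq hATT A n)

theorem si_att (A : PA b) (n : ℕ) : IsAtt (sq hATT A n) (sq hATT A (n + 1)) (UU (sq hATT A n))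
    (si hATT A n) (nxc hATT (sq hATT A n)) := nx_att hATT (sq hATT A n)

/-- the map from the beginning -/
noncomputable def s0 (A : PA b) : ∀ n, Hm A (sq hATT A n)
  | 0 => Hm.id A
  | n + 1 => (si hATT A n).comp (s0 A n)

end seq

/-- free completions exist -/
theorem ex (hATT : S_ATT.{u}) (hHOM : S_HOM.{u}) (hRLA : S_RLA.{u}) (hSMA : S_SMA.{u})
    (hSUB : S_SUB.{u}) (hLIM : S_LIM.{u}) (A : PA b) :
    ∃ (E : PA b) (e : Hm A E), E.Total ∧ RLP e ∧ Unv e ∧ FSC e ∧ (LocSmall A → LocSmall E) := by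
  have hinj : ∀ n, Function.Injective (si hATT A n).f := fun n =>
    (hHOM R 𝒞 N b _ _ _ _ _ (si_att hATT A n)).1
  have hfill : ∀ n (c : 𝒞) (v : c.1.K →ₗ[R] (sq hATT A n).Y),
      ∃ p, (sq hATT A (n + 1)).D c ((si hATT A n).f ∘ₗ v) p := by
    intro n c v
    by_cases hv : ∃ p, (sq hATT A n).D c v p
    · obtain ⟨p, hp⟩ := hv
      exact ⟨_, (si hATT A n).pres c v p hp⟩
    · have hm : (⟨c, v⟩ : Sq 𝒞 (sq hATT A n).Y) ∈ UU (sq hATT A n) := fun p hp => hv ⟨p, hp⟩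
      exact ⟨_, ((si_att hATT A n).D_iff c _ _).2 (Or.inr ⟨v, hm, rfl, rfl⟩)⟩
  obtain ⟨E, e, hT, hei, hcomp, hfg, hlin, huniv⟩ :=
    hLIM R 𝒞 N b (sq hATT A) (si hATT A) hinj hfill
  have hUi : ∀ n, Unv (si hATT A n) := by
    intro n Z hZ g
    exact (hHOM R 𝒞 N b _ _ _ _ _ (si_att hATT A n)).2 Z g fun s _ => hZ s.1 _
  have hs0 : ∀ n, (e n).f ∘ₗ (s0 hATT A n).f = (e 0).f := by
    intro n
    induction n with
    | zero => rfl
    | succ n ih =>
      change (e (n + 1)).f ∘ₗ ((si hATT A n).f ∘ₗ (s0 hATT A n).f) = _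
      rw [← LinearMap.comp_assoc, hcomp, ih]
  -- pulling back finitely generated submodules
  have hpull : ∀ V : Submodule R E.Y, V.FG → ∃ n, ∃ V' : Submodule R (sq hATT A n).Y, V'.FG ∧
      V'.map (e n).f = V := by
    intro V hV
    obtain ⟨n, hn⟩ := hfg V hV
    refine ⟨n, V.comap (e n).f, ?_, ?_⟩
    · have h1 : (V.comap (e n).f).map (e n).f = V := by
        rw [Submodule.map_comap_eq, inf_eq_right]
        exact hn
      have h2 : ((V.comap (e n).f).map (e n).f).FG := by rw [h1]; exact hV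
      exact Submodule.fg_of_fg_map_injective (e n).f (hei n) h2
    · rw [Submodule.map_comap_eq, inf_eq_right]
      exact hn
  refine ⟨E, e 0, hT, ?_, ?_, ?_, ?_⟩
  · -- relative lifting
    intro X Z _ _ _ _ g hg hCE f e' he'
    have hr : ∀ n, RLP (si hATT A n) := fun n => hRLA R 𝒞 N b _ _ _ _ _ (si_att hATT A n)
    have hex : ∀ n (l : (sq hATT A n).Y →ₗ[R] X), g ∘ₗ l = f ∘ₗ (e n).f →
        ∃ l' : (sq hATT A (n + 1)).Y →ₗ[R] X, g ∘ₗ l' = f ∘ₗ (e (n + 1)).f ∧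
          l' ∘ₗ (si hATT A n).f = l := by
      intro n l hl
      refine hr n X Z g hg hCE (f ∘ₗ (e (n + 1)).f) l ?_
      rw [hl, LinearMap.comp_assoc, hcomp]
    choose! nl hnl1 hnl2 using hex
    let fl : ∀ n, {l : (sq hATT A n).Y →ₗ[R] X // g ∘ₗ l = f ∘ₗ (e n).f} := fun n =>
      Nat.rec (motive := fun n => {l : (sq hATT A n).Y →ₗ[R] X // g ∘ₗ l = f ∘ₗ (e n).f})
        ⟨e', he'⟩ (fun n l => ⟨nl n l.1, hnl1 n l.1 l.2⟩) n
    have hfl : ∀ n, (fl (n + 1)).1 ∘ₗ (si hATT A n).f = (fl n).1 := fun n =>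
      hnl2 n (fl n).1 (fl n).2
    obtain ⟨h, hh, _⟩ := hlin X (fun n => (fl n).1) hfl
    refine ⟨h, ?_, hh 0⟩
    obtain ⟨k, _, hk⟩ := hlin Z (fun n => f ∘ₗ (e n).f) fun n => by
      rw [LinearMap.comp_assoc, hcomp]
    rw [hk f fun n => rfl]
    apply hk
    intro n
    change (g ∘ₗ h) ∘ₗ (e n).f = f ∘ₗ (e n).f
    rw [LinearMap.comp_assoc, hh, (fl n).2]
  · -- universal property
    intro Z hZ g
    have hex : ∀ n (l : Hm (sq hATT A n) Z), ∃ l' : Hm (sq hATT A (n + 1)) Z,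
        l'.f ∘ₗ (si hATT A n).f = l.f := fun n l => (hUi n Z hZ l).exists
    choose nl hnl using hex
    let fl : ∀ n, Hm (sq hATT A n) Z := fun n =>
      Nat.rec (motive := fun n => Hm (sq hATT A n) Z) g (fun n l => nl n l) n
    have hfl : ∀ n, (fl (n + 1)).f ∘ₗ (si hATT A n).f = (fl n).f := fun n => hnl n (fl n)
    obtain ⟨h, hh, hu⟩ := huniv Z fl hfl
    refine ⟨h, hh 0, ?_⟩
    intro h' hh'
    apply hu
    intro n
    induction n with
    | zero => exact hh'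
    | succ n ih =>
      have h1 : h'.comp (e (n + 1)) = fl (n + 1) := by
        apply Unv.uniq (hUi n) hZ
        change (h'.f ∘ₗ (e (n + 1)).f) ∘ₗ (si hATT A n).f = (fl (n + 1)).f ∘ₗ (si hATT A n).f
        rw [hfl, LinearMap.comp_assoc, hcomp, ih]
      exact congrArg Hm.f h1
  · -- finite extensions
    have key : ∀ n, FSC (s0 hATT A n) := by
      intro n
      induction n with
      | zero =>
        intro V _
        refine ⟨A, Hm.id A, Hm.id A, rfl, Function.injective_id, ?_, id, Unv.id A⟩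
        intro x _
        exact ⟨x, rfl⟩
      | succ n ih =>
        intro V hV
        obtain ⟨V₀, hV₀, H⟩ := hSUB R 𝒞 N b _ _ _ _ _ (si_att hATT A n) V hV
        obtain ⟨S, h, j, hjh, hji, hVj, hSm, hUn⟩ := ih V₀ hV₀
        obtain ⟨U', S', i', cell', j', hfin, hatt, hj'i, hj'c, hVj'⟩ := H S j hji hVj
        refine ⟨S', i'.comp h, j', ?_, hj'i, hVj', ?_, ?_⟩
        · change j'.f ∘ₗ (i'.f ∘ₗ h.f) = (si hATT A n).f ∘ₗ (s0 hATT A n).f
          rw [← LinearMap.comp_assoc, hj'c, LinearMap.comp_assoc, hjh]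
        · intro hA
          exact hSMA R 𝒞 N b _ _ _ _ _ hatt (hRLA R 𝒞 N b _ _ _ _ _ hatt) hfin (hSm hA)
        · apply Unv.comp hUn
          intro Z hZ g
          exact (hHOM R 𝒞 N b _ _ _ _ _ hatt).2 Z g fun s _ => hZ s.1 _
    intro V hV
    obtain ⟨n, V', hV', hm⟩ := hpull V hV
    obtain ⟨S, h, j, hjh, hji, hVj, hSm, hUn⟩ := key n V' hV'
    refine ⟨S, h, (e n).comp j, ?_, (hei n).comp hji, ?_, hSm, hUn⟩
    · change ((e n).f ∘ₗ j.f) ∘ₗ h.f = (e 0).f
      rw [LinearMap.comp_assoc, hjh, hs0]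
    · rw [← hm]
      change Submodule.map (e n).f V' ≤ LinearMap.range ((e n).f ∘ₗ j.f)
      rw [LinearMap.range_comp]
      exact Submodule.map_mono hVj
  · -- local smallness
    intro hA
    have key : ∀ n, LocSmall (sq hATT A n) := by
      intro n
      induction n with
      | zero => exact hA
      | succ n ih =>
        intro V hV
        obtain ⟨V₀, hV₀, H⟩ := hSUB R 𝒞 N b _ _ _ _ _ (si_att hATT A n) V hV
        obtain ⟨S, j, hSm, hji, hVj⟩ := ih V₀ hV₀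
        obtain ⟨U', S', i', cell', j', hfin, hatt, hj'i, hj'c, hVj'⟩ := H S j hji hVj
        exact ⟨S', j', hSMA R 𝒞 N b _ _ _ _ _ hatt (hRLA R 𝒞 N b _ _ _ _ _ hatt) hfin hSm,
          hj'i, hVj'⟩
    intro V hV
    obtain ⟨n, V', hV', hm⟩ := hpull V hV
    obtain ⟨S, j, hSm, hji, hVj⟩ := key n V' hV'
    refine ⟨S, (e n).comp j, hSm, (hei n).comp hji, ?_⟩
    rw [← hm]
    change Submodule.map (e n).f V' ≤ LinearMap.range ((e n).f ∘ₗ j.f)
    rw [LinearMap.range_comp]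
    exact Submodule.map_mono hVj

end Ex

end Pool.Agent.K6.H47.TL
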